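import Mathlib
import Pool.Agent.TH892.SW.S5

/-!
# Project SYS (helper285): systems `n² + a₁, …, n² + a_k` at the optimal scale `T (log X)^k`

For almost all `(a₁, …, a_k, m)`, `|a_l| ≤ X`, `m` in an interval of length `M ≥ X^(1/3) log^B X`, every window `(m, m + H]` with
`H ≥ T log^k X` has the number of `n`, for which ALL `|n² + a_l|` are primes, predicted by Bateman and Horn, within `1 ± ε`. Host:
MP_2dba45_nt (`m² + 1` and `m² + 3` simultaneously prime), slot 2.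

Idea: for constant terms that vary independently the second moment over `(a, m)` is a sum over `n, n'` and `m` of PRODUCTS of
correlations `∑_a f(n² + a) f(n'² + a)`. With `n = m + i`, `n' = m + j` the shift `n'² - n² = (j - i)(2 m + i + j)` runs over an
arithmetic progression of length `M`, so that the one-shift law of project MK (`S_LAW'`, from `S_ARC`) shows that these correlations are
small for almost all `m` if `f` = primes minus sieve model, and the fundamental lemma (dimension 2) if `f` = difference of two models.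
`L` stands for `log X`, `z = ⌊L^E⌋`, `w = ⌊L^(1/u)⌋`. Constants may be changed freely inside the proofs.
-/

set_option autoImplicit false

namespace Run7.h285.S

open Finset Filter Topology
open Pool.Agent.TH892.SW (ff wt)
open Pool.Agent.H373R2.T7 (lamz Vz)

/-- the box of the constant terms -/
noncomputable def Bx (k X : ℕ) : Finset (Fin k → ℤ) := Fintype.piFinset (fun _ => Icc (-(X : ℤ)) X)

/-- the indicator function of the primes, both signs -/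
def uu (y : ℤ) : ℝ := if y.natAbs.Prime then 1 else 0

/-- the sieve model of the primes -/
noncomputable def vv (z : ℕ) (y : ℤ) : ℝ := lamz z y.natAbs * wt y.natAbs

/-- the sieve weight -/
noncomputable def ll (z : ℕ) (y : ℤ) : ℝ := lamz z y.natAbs

/-- primes minus model; this is `uu y - vv z y` (`ff_two` in `Run7/h285/E3a.lean`) -/
noncomputable def gg (z : ℕ) (y : ℤ) : ℝ := ff z (1 * y) + ff z (-1 * y)

/-- the correlation of `f` at `n²` and `n'²` -/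
noncomputable def cor (f : ℤ → ℝ) (X n n' : ℕ) : ℝ :=
  ∑ c ∈ Icc (-(X : ℤ)) X, f ((n : ℤ) ^ 2 + c) * f ((n' : ℤ) ^ 2 + c)

/-- the value of the product of the functions `f l` at the numbers `n² + a l` -/
noncomputable def pr {k : ℕ} (f : Fin k → ℤ → ℝ) (a : Fin k → ℤ) (n : ℕ) : ℝ := ∏ l, f l ((n : ℤ) ^ 2 + a l)

/-- the second moment over the constant terms and the windows of length `H` -/
noncomputable def MM (k : ℕ) (G : (Fin k → ℤ) → ℕ → ℝ) (X m₀ M H : ℕ) : ℝ :=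
  ∑ a ∈ Bx k X, ∑ m ∈ Ioc m₀ (m₀ + M), (∑ n ∈ Ioc m (m + H), G a n) ^ 2

/-- the number of the residues modulo `p` at which one of the polynomials vanishes -/
noncomputable def nu {k : ℕ} (a : Fin k → ℤ) (p : ℕ) : ℕ := by
  classical exact #((range p).filter (fun x : ℕ => ∃ l, (p : ℤ) ∣ (x : ℤ) ^ 2 + a l))

/-- the constant of Bateman and Horn, cut at `N` -/
noncomputable def SS {k : ℕ} (a : Fin k → ℤ) (N : ℕ) : ℝ :=
  ∏ p ∈ (range (N + 1)).filter Nat.Prime, (1 - (nu a p : ℝ) / p) / (1 - 1 / (p : ℝ)) ^ k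

/-- no prime divides the product of the polynomials at all integers -/
def Adm {k : ℕ} (a : Fin k → ℤ) : Prop := ∀ p : ℕ, p.Prime → nu a p < p

/-- the number of the `n` in the window for which all `|n² + a l|` are primes -/
def P {k : ℕ} (a : Fin k → ℤ) (m H : ℕ) : ℕ := #((Ioc m (m + H)).filter (fun n : ℕ => ∀ l, ((n : ℤ) ^ 2 + a l).natAbs.Prime))

/-- the sum of `∏ 1 / log |n² + a l|` over the window -/
noncomputable def W {k : ℕ} (a : Fin k → ℤ) (m H : ℕ) : ℝ := ∑ n ∈ Ioc m (m + H), ∏ l, wt ((n : ℤ) ^ 2 + a l).natAbs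

/-! ### the correlations -/

/-- **CG** (from `Pool.Agent.Run7.h794.MK.S_LAW'`, file `Run7/h794/MK/Stm2.lean`). Proof. `d = j - i`, `D_m = (m + j)² - (m + i)² = d (2 m + i + j) > 0`, `N = ⌈X L^(2 C + 3)⌉`. Cut
`(m₀, m₀ + M]` into blocks of lengths `M'` between `√X / (2 L^(C + U + 9))` and `√X / L^(C + U + 9)` (or one block if `M` is smaller). In a
block the interval `(m + i)² + [-X, X]` differs from a fixed interval `J = [u, v]` (that of the first `m`) by at most `X / L^(U + 5)`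
elements, each contributes at most `(6 L)²` (`sq_ff`; `|gg| ≤ 6 L`). `∑_{k ∈ J} gg(k) gg(k + D_m)`:
* `k ≥ 1`: both arguments positive, `gg = ff z` there. Replace `ff z (k + D)` by `wt(k) (Λ(k + D) - lamz z (k + D))`: for `k ≥ X / L^(U+9)` one has
  `|wt(k + D) - wt(k)| ≤ D / (k log² k) ≤ X^(-1/3)` (`D ≤ √X L^(C + D + 3)`), `|Λ - lamz| ≤ 3L`; the difference `1_prime - wt Λ` lives on the
  proper prime powers (at most `2 √N L` numbers up to `N`, each of absolute value `≤ 1`); the `k < X / L^(U + 9)` trivially. Then `S_LAW'` with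
  `B = 1`, `U' = U + 2 C + 20`, `G(k) = 1_J(k) ff z k wt(k)`, `|G| ≤ 6 L`, `Y_m = D_m`, `p_m = 1 / M'`, modulus `Md = 6 N`.
* `k ≤ -1`, `k = - t`: `gg(k) = ff z t`, `gg(k + D) = ff z (t - D)` for `t > D`; the same with `Y_m = - D_m` (`lamI`, `lamzI` are the extensions by
  `0`). The `0 ≤ t ≤ D` trivially.
Hypothesis of `S_LAW'`: for `θ = t / Md` the exponential sum over the block is geometric, `≤ 1 / (2 M' ‖2 d θ‖)`. `Γ` = the integers nearest to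
`c Md / (2 d)`, `0 ≤ c < 2 d` (`T = D + 2`); `H' = ⌊M' / L^(V + 4)⌋`, `D' = 1`: if `t` is at a distance `> L (Md / H')` from all `γ + k Md` then
`‖2 d θ‖ ≥ L^V / M'`. `H' ≥ N^(1/3) log^C' N` as `M' ≥ X^(1/3) L^B` (`B` large). -/
def S_CG : Prop := ∀ U C D : ℕ, ∃ E1 : ℕ, ∀ E : ℕ, E1 ≤ E → ∃ B X₀ : ℕ, ∀ X : ℕ, X₀ ≤ X → ∀ m₀ M i j : ℕ, i < j →
  (j : ℝ) ≤ Real.log X ^ D → (X : ℝ) ^ (1 / 3 : ℝ) * Real.log X ^ B ≤ M → (m₀ : ℝ) + M ≤ √X * Real.log X ^ C →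
  ∑ m ∈ Ioc m₀ (m₀ + M), |cor (gg ⌊Real.log X ^ E⌋₊) X (m + i) (m + j)| ≤ X * M / Real.log X ^ U

/-- **CF** (elementary; `Pool.Agent.TH892.SW.fl_set 2`, file `TH892/SW/S2.lean`). Proof. Expand: `cor` is
`C_zz - C_zw - C_wz + C_ww`, `C_xy = (Vz x)⁻¹ (Vz y)⁻¹ #{|c| ≤ X : p ∤ n² + c for p ≤ x, p ∤ n'² + c for p ≤ y}`. By `fl_set 2` with the set of the
primes `≤ z`, `R p r` := `(p ≤ x ∧ p | n² - X - 1 + r) ∨ (p ≤ y ∧ p | n'² - X - 1 + r)`, `r ∈ Icc 1 (2 X + 1)`: this count is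
`(2 X + 1) ∏_p (1 - r_p / p)` up to `(1/2)^b` times itself and `z^(5 C0 b)`, which is `≤ √X` for `b = ⌊L^(1/2)⌋` (`z ≤ L^E`). With
`D = n'² - n² ≠ 0`, `ν_p = 1` if `p | D` and `2` otherwise, `A_x = (Vz x)⁻² ∏_{p ≤ x} (1 - ν_p / p)`: the main terms are `(2 X + 1)` times
`A_z`, `A_w`, `A_w`, `A_w` (for `w < p ≤ z` only one condition, the factor `1 - 1/p` cancels). So
`|cor| ≤ (2 X + 1) |A_z - A_w| + X / L`. `A_w ≤ (Vz w)⁻²`, `A_z / A_w = ∏_{w < p ≤ z, p ∤ D} (1 - 1/(p-1)²) ∏_{w < p ≤ z, p | D} (p/(p-1))`, so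
`|A_z / A_w - 1| ≤ 2 / w + exp(σ) σ`, `σ = ∑_{w < p ≤ z, p | D} 1/(p - 1) ≤ ∑_{w < p ≤ z} 1/(p-1) ≤ K(E, u)` (from `Vz w / Vz z`, Mertens; or simply
`exp σ ≤ (Vz z)⁻¹ ≤ K log L`). Sum over `m`: `∑_m σ(D_m) ≤ ∑_{p > w, p | j - i} M / (p - 1) + ∑_{w < p ≤ z} (M / p + 1) / (p - 1) ≤ M (K log L) / w` (for
`p ∤ 2 (j - i)` the condition `p | (j - i)(2 m + i + j)` is one class of `m` modulo `p`; `Pool.Agent.TH892.OW.card_pf` bounds the
number of `p | j - i`). With `w ≥ L^(1/u) / 2` everything is `≤ X M / (log L)^V`. -/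
def S_CF : Prop := ∀ C D E u V : ℕ, 1 ≤ E → 1 ≤ u → ∃ X₀ : ℕ, ∀ X : ℕ, X₀ ≤ X → ∀ m₀ M i j : ℕ, i < j →
  (j : ℝ) ≤ Real.log X ^ D → (X : ℝ) ^ (1 / 3 : ℝ) ≤ M → (m₀ : ℝ) + M ≤ √X * Real.log X ^ C →
  ∑ m ∈ Ioc m₀ (m₀ + M), |cor (fun y => ll ⌊Real.log X ^ E⌋₊ y - ll ⌊Real.log X ^ (1 / (u : ℝ))⌋₊ y) X (m + i) (m + j)| ≤
    X * M / Real.log (Real.log X) ^ V

/-! ### the second moments -/

/-- **SM1** (from CG). Proof. `uu = vv z + gg z` (`ff_two`), telescoping: `∏ uu - ∏ vv = ∑_l (∏_{i<l} uu) gg_l (∏_{i>l} vv)`, so by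
Cauchy-Schwarz the second moment is at most `k` times the sum over `l` of the second moments of these products. For a product
`pr f`: `∑_{a ∈ Bx} (∑_n pr f a n)² = ∑_{n, n'} ∏_l cor (f l) X n n'` (`Finset.prod_univ_sum`). The terms `n = n'`:
`cor uu X n n ≤ #{|c| ≤ X : |n² + c| prime} ≤ K X / L` (`OW.primes_int` for both signs), `cor gg X n n ≤ K X / L` and
`cor (vv z) X n n ≤ K X / L` (`OW.ff_sq`, `OW.wt_sum`, as in `Run7/h545/CR/E1.lean`; `(Vz z)⁻² ≤ √L`). The terms `n = m + i ≠ n' = m + j`: all factors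
but the one with `gg` are at most `(2 X + 1) (6 L)² `, and CG with `U + 2 k + 2 D + 5` for the remaining one (by symmetry `i < j`). -/
def S_SM1 (k : ℕ) : Prop := ∃ K₀ : ℝ, 1 ≤ K₀ ∧ ∀ U C D : ℕ, ∃ E1 : ℕ, ∀ E : ℕ, E1 ≤ E → ∃ B X₀ : ℕ, ∀ X : ℕ, X₀ ≤ X →
  ∀ m₀ M H : ℕ, 1 ≤ H → (H : ℝ) ≤ Real.log X ^ D → (X : ℝ) ^ (1 / 3 : ℝ) * Real.log X ^ B ≤ M →
  (m₀ : ℝ) + M ≤ √X * Real.log X ^ C →
  MM k (fun a n => pr (fun _ => uu) a n - pr (fun _ => vv ⌊Real.log X ^ E⌋₊) a n) X m₀ M H ≤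
    (X : ℝ) ^ k * M * (K₀ * H / Real.log X ^ k + (H : ℝ) ^ 2 / Real.log X ^ U)

/-- **SM2** (from CF). Proof. The same telescoping with `ll z`, `ll w`, `ll z - ll w`. The terms `n = n'`: `cor (ll x) X n n ≤`
`(Vz x)⁻¹ ∑ lamz ≤ K X log L` for `x ∈ {w, z}` (`OW.lz_up` or `fl_set`), so together `≤ X^k (K log L)^k ≤ X^k √L`; the other terms: all
factors but one are `≤ (2 X + 1) (Vz z)⁻² ≤ X (K log L)²`, CF with `V + 2 k + 1`. -/
def S_SM2 (k : ℕ) : Prop := ∀ C D E u V : ℕ, 1 ≤ E → 1 ≤ u → ∃ X₀ : ℕ, ∀ X : ℕ, X₀ ≤ X →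
  ∀ m₀ M H : ℕ, 1 ≤ H → (H : ℝ) ≤ Real.log X ^ D → (X : ℝ) ^ (1 / 3 : ℝ) ≤ M → (m₀ : ℝ) + M ≤ √X * Real.log X ^ C →
  MM k (fun a n => pr (fun _ => ll ⌊Real.log X ^ E⌋₊) a n - pr (fun _ => ll ⌊Real.log X ^ (1 / (u : ℝ))⌋₊) a n) X m₀ M H ≤
    (X : ℝ) ^ k * M * (H * √(Real.log X) + (H : ℝ) ^ 2 / Real.log (Real.log X) ^ V)

/-! ### the constants -/

/-- **FLS** (fundamental lemma in a window; model `SW.flq`, `TH892/SW/S3.lean`, and `Run7.h285.E3.fl`, `E3a.lean`). Proof.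
`∏_l lamz w |n² + a l| = (Vz w)^(-k)` if no prime `p ≤ w` divides one of the `n² + a l`, and `0` otherwise. `SW.fl_set (2 k)` with
`R p x := ∃ l, p | (m + x)² + a l`: the number of residues is `nu a p ≤ 2 k` (translation by `m`; at most two roots of a monic quadratic
polynomial modulo a prime, `SW.root_card`), the product is `∏_{p ≤ w} (1 - nu a p / p) = Vz w ^ k * SS a w`. It is at least
`w^(-4k - K)`: the factors at `p ≤ 4 k` are `≥ 1 / p` by `Adm`, the others `≥ 1 - 2k/p ≥ (1 - 1/p)^(4k)`. `y0` and `C1` may depend on `k`. -/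
def S_FLS (k : ℕ) : Prop := ∃ C1 y0 : ℕ, 1 ≤ C1 ∧ 2 ≤ y0 ∧ ∀ b : ℕ, C1 ≤ b → ∀ w : ℕ, y0 ≤ w → ∀ H : ℕ, w ^ (C1 * b) ≤ H →
  ∀ (a : Fin k → ℤ) (m : ℕ), Adm a →
  |∑ n ∈ Ioc m (m + H), pr (fun _ => ll w) a n - H * SS a w| ≤ 2 * (1 / 2 : ℝ) ^ b * SS a w * H

/-- **HGS** (the constants; from `S_HG` (one polynomial), a theorem: `Run7.h437.CR.hg`; or with `CR.HTG` directly). Proof. For all but
`k (η / 4 k) X (3 X)^(k-1)`, i.e. `η X^k / 2` after rescaling `η`, of the `a` all `a l` are good for `S_HG`: `-a l` is no square, `hprod (a l) N → h_l ≥ δ`,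
`|hprod (a l) w - h_l| ≤ ε₂ h_l`. For a prime `p > 2` which divides none of the `a i - a j` the sets of roots of different polynomials are
disjoint and `nu a p = ∑_l (1 + χ_l(p))`, `χ_l(p) = jacobiSym (-a l) p` (also if `p | a l`); in any case
`0 ≤ ∑_l (1 + χ_l(p)) - nu a p ≤ 2 k`. The factor of `SS` is `(1 - nu/p) / (1 - 1/p)^k`, that of `∏_l hprod (a l)` is
`∏_l (1 - χ_l(p)/(p-1)) = ∏_l (1 - (1 + χ_l)/p) / (1 - 1/p)^k`. So for `p > 4 k + 2` the quotient `ρ_p` of the two factors is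
`1 + O_k(1/p²)` if `p ∤ Δ = ∏_{i<j} (a i - a j)`, and `1 + O_k(1/p)` for `p | Δ`. `∏_{p ≤ N} ρ_p` converges (finitely many `p | Δ`, as `Δ ≠ 0` for
all but `k² X (3X)^(k-2) · 3X` tuples ... few), and from `w` on it is `1 + O_k(1/w + ∑_{p > w, p | Δ} 1/p)`. The last sum is small for almost all `a`:
`∑_a ∑_{w < p ≤ L², p | Δ} 1/p ≤ k² ∑_p (1/p) (2X+1)^(k-1) (2X/p + 1) ≤ K X^k / w`, and `∑_{p > L², p | Δ} 1/p ≤ log₂ |Δ| / L² ≤ K k² L / L²`.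
Lower bound: the same with a large constant `w0(η)` in the place of `w`: `SS a N / SS a w0 ≥ (1/2) ∏_l (hprod (a l) N / hprod (a l) w0)`, and
`SS a w0 ≥ ∏_{p ≤ w0} (1/p)` by `Adm` — a constant; `hprod (a l) w0 ≤ ∏_{3 ≤ p ≤ w0} (1 + 1/(p-1))`, `h_l ≥ δ`. -/
def S_HGS (k : ℕ) : Prop := ∀ η : ℝ, 0 < η → ∃ δ0 : ℝ, 0 < δ0 ∧ ∀ ε1 : ℝ, 0 < ε1 → ∀ u : ℕ, 1 ≤ u →
  ∃ X₀ : ℕ, ∀ X : ℕ, X₀ ≤ X → ∃ Bad ⊆ Bx k X, (#Bad : ℝ) ≤ η * (X : ℝ) ^ k ∧ ∀ a ∈ Bx k X, a ∉ Bad → Adm a →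
    ∃ h : ℝ, δ0 ≤ h ∧ Tendsto (fun N : ℕ => SS a N) atTop (𝓝 h) ∧
      |SS a ⌊Real.log X ^ (1 / (u : ℝ))⌋₊ - h| ≤ ε1 * h

/-- **SYS** (the hand-in; from SM1, SM2, FLS, HGS; model `Run7/h285/E3{a,b,c}.lean`, `Q/EQ.lean`). Written by helper285. -/
def S_SYS (k : ℕ) : Prop := ∀ ε : ℝ, 0 < ε → ∃ T : ℝ, 0 < T ∧ ∀ C : ℕ, ∃ B X₀ : ℕ, ∀ X : ℕ, X₀ ≤ X → ∀ m₀ M H : ℕ,
  (X : ℝ) ^ (1 / 3 : ℝ) * Real.log X ^ B ≤ M → (m₀ : ℝ) + M ≤ √X * Real.log X ^ C → T * Real.log X ^ k ≤ H → H ≤ M →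
  ∃ Bad ⊆ Bx k X ×ˢ Ioc m₀ (m₀ + M), (#Bad : ℝ) ≤ ε * ((X : ℝ) ^ k * M) ∧
    ∀ a ∈ Bx k X, ∀ m ∈ Ioc m₀ (m₀ + M), (a, m) ∉ Bad → Adm a →
      ∃ h : ℝ, 0 < h ∧ Tendsto (fun N : ℕ => SS a N) atTop (𝓝 h) ∧
        |(P a m H : ℝ) - h * W a m H| ≤ ε * (h * W a m H)

end Run7.h285.S
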