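import Pool.Agent.Run7.h285.S.SYSMb

/-!
# Project SYS: all scales at once, assembly
-/

set_option autoImplicit false

namespace Run7.h285.S

open Finset Filter Topology
open Pool.Agent.H373R2.T7 (pz Vz lamz mem_pz Vz_ge Vz_inv_le Vz_le_one Vz_inv_small)
open Pool.Agent.TH892.SW (ff wt wt_nonneg wt_le)
open Pool.Agent.TH892.OW (evt_ll)
open Run7.h285.X (scal scal_ge scal_lt all_scales max_abs)
open Pool.Agent.H442R2.EHI (evt_log_pow evt_log_ge)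

/-- **SYSM**: `S_SYS` with one exceptional set for all lengths -/
def S_SYSM (k : ℕ) : Prop := ∀ ε : ℝ, 0 < ε → ∃ T : ℝ, 0 < T ∧ ∀ C : ℕ, ∃ B X₀ : ℕ, ∀ X : ℕ, X₀ ≤ X → ∀ m₀ M : ℕ,
  (X : ℝ) ^ (1 / 3 : ℝ) * Real.log X ^ B ≤ M → (m₀ : ℝ) + M ≤ √X * Real.log X ^ C →
  ∃ Bad ⊆ Bx k X ×ˢ Ioc m₀ (m₀ + M), (#Bad : ℝ) ≤ ε * ((X : ℝ) ^ k * M) ∧
    ∀ a ∈ Bx k X, ∀ m ∈ Ioc m₀ (m₀ + M), (a, m) ∉ Bad → Adm a →
      ∃ h : ℝ, 0 < h ∧ Tendsto (fun N : ℕ => SS a N) atTop (𝓝 h) ∧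
        ∀ H : ℕ, T * Real.log X ^ k ≤ H → (H : ℝ) ≤ √X * Real.log X ^ C →
          |(P a m H : ℝ) - h * W a m H| ≤ ε * (h * W a m H)

/-- the sizes of `w`, `z` and of the length `HD` -/
lemma cuts (l : ℝ) (k u E y0 D : ℕ) (hl : 10000 ≤ l) (hu : 1 ≤ u) (hE : 1 ≤ E) (hy0 : 2 ≤ y0) (hk : 1 ≤ k)
    (hD : D = E * u + k) (hlu : (y0 : ℝ) + 1 ≤ l ^ (1 / (u : ℝ))) :
    2 ≤ ⌊l ^ E⌋₊ ∧ y0 ≤ ⌊l ^ (1 / (u : ℝ))⌋₊ ∧ y0 ≤ ⌊l ^ E⌋₊ ∧
    ((⌊l ^ (1 / (u : ℝ))⌋₊ ^ u : ℕ) : ℝ) ≤ l ^ k ∧ l ^ k ≤ ((⌊l ^ E⌋₊ ^ u + ⌈l ^ k⌉₊ : ℕ) : ℝ) ∧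
    ((⌊l ^ E⌋₊ ^ u + ⌈l ^ k⌉₊ : ℕ) : ℝ) ≤ l ^ (D + 1) := by
  have hl0 : 0 < l := by linarith
  have hl1 : 1 ≤ l := by linarith
  have hur : (0 : ℝ) < u := by exact_mod_cast hu
  obtain ⟨w, hw⟩ : ∃ w, w = ⌊l ^ (1 / (u : ℝ))⌋₊ := ⟨_, rfl⟩
  obtain ⟨z, hz⟩ : ∃ z, z = ⌊l ^ E⌋₊ := ⟨_, rfl⟩
  rw [← hw, ← hz]
  have hwl : (w : ℝ) ≤ l ^ (1 / (u : ℝ)) := by rw [hw]; exact Nat.floor_le (by positivity)
  have hwy : y0 ≤ w := by
    have h4 := Nat.lt_floor_add_one (l ^ (1 / (u : ℝ)))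
    rw [← hw] at h4
    have h5 : (y0 : ℝ) < w := by linarith
    exact_mod_cast h5.le
  have hzl : (z : ℝ) ≤ l ^ E := by rw [hz]; exact Nat.floor_le (by positivity)
  have hlE : l ≤ l ^ E := le_self_pow₀ hl1 (by omega)
  have hlk : l ≤ l ^ k := le_self_pow₀ hl1 (by omega)
  have hwz : w ≤ z := by
    have h4 : l ^ (1 / (u : ℝ)) ≤ l := by
      calc l ^ (1 / (u : ℝ)) ≤ l ^ (1 : ℝ) := by
            apply Real.rpow_le_rpow_of_exponent_le hl1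
            rw [div_le_one hur]; exact_mod_cast hu
        _ = l := Real.rpow_one l
    rw [hw, hz]
    exact Nat.floor_le_floor (h4.trans hlE)
  have hzu : (z : ℝ) ^ u ≤ l ^ D := by
    calc (z : ℝ) ^ u ≤ (l ^ E) ^ u := pow_le_pow_left₀ (Nat.cast_nonneg _) hzl _
      _ = l ^ (E * u) := by rw [← pow_mul]
      _ ≤ l ^ D := pow_le_pow_right₀ hl1 (by omega)
  have hlkD : l ^ k ≤ l ^ D := pow_le_pow_right₀ hl1 (by omega)
  have hl1D : 1 ≤ l ^ D := one_le_pow₀ hl1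
  refine ⟨by omega, hwy, by omega, ?_, ?_, ?_⟩
  · push_cast
    refine le_trans ?_ hlk
    calc (w : ℝ) ^ u ≤ (l ^ (1 / (u : ℝ))) ^ u := pow_le_pow_left₀ (Nat.cast_nonneg _) hwl u
      _ = l := by
          rw [← Real.rpow_natCast, ← Real.rpow_mul hl0.le, one_div, inv_mul_cancel₀ hur.ne', Real.rpow_one]
  · push_cast
    have := Nat.le_ceil (l ^ k)
    have h5 : (0 : ℝ) ≤ (z : ℝ) ^ u := by positivity
    linarith
  · push_cast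
    have h5 := (Nat.ceil_lt_add_one (show 0 ≤ l ^ k by positivity)).le
    have h6 : l ^ (D + 1) = l ^ D * l := by ring
    rw [h6]
    nlinarith

/-- the fundamental lemma with nonnegative constant -/
lemma fl_use (S V x y : ℝ) (G : ℕ) (hG : 1 ≤ G) (hx : 0 < x) (hxy : x ≤ y) (h : |S - G * V| ≤ x * V * G) :
    |S - G * V| ≤ y * V * G := by
  have hG0 : (0 : ℝ) < G := by exact_mod_cast hG
  have hV : 0 ≤ V := by
    have h5 := le_trans (abs_nonneg _) h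
    by_contra hcon
    push Not at hcon
    have h7 : x * V < 0 := mul_neg_of_pos_of_neg hx hcon
    have : x * V * G < 0 := mul_neg_of_neg_of_pos h7 hG0
    linarith
  refine h.trans ?_
  apply mul_le_mul_of_nonneg_right _ hG0.le
  exact mul_le_mul_of_nonneg_right hxy hV

/-- the size of the values -/
lemma val_le {k : ℕ} (X m₀ M C : ℕ) (a : Fin k → ℤ) (m G n : ℕ) (l : ℝ) (hl : 10 ≤ l)
    (ha : a ∈ Bx k X) (hm : m ∈ Ioc m₀ (m₀ + M)) (hW : (m₀ : ℝ) + M ≤ √X * l ^ C) (hG : (G : ℝ) ≤ √X * l ^ (C + 1))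
    (hn : n ∈ Ioc m (m + G)) (i : Fin k) : (((n : ℤ) ^ 2 + a i).natAbs : ℝ) ≤ X * l ^ (2 * C + 3) := by
  have hX0 : (0 : ℝ) ≤ X := Nat.cast_nonneg _
  have hl1 : 1 ≤ l := by linarith
  have hl0 : 0 < l := by linarith
  rw [mem_Ioc] at hn hm
  have hai := Fintype.mem_piFinset.1 ha i
  rw [mem_Icc] at hai
  have h4 : (((n : ℤ) ^ 2 + a i).natAbs : ℝ) ≤ (n : ℝ) ^ 2 + X := by
    have h5 : ((n : ℤ) ^ 2 + a i).natAbs ≤ n ^ 2 + X := by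
      have h6 : (0 : ℤ) ≤ (n : ℤ) ^ 2 := sq_nonneg _
      have h7 : (((n ^ 2 : ℕ) : ℤ)) = (n : ℤ) ^ 2 := by push_cast; rfl
      omega
    exact_mod_cast h5
  refine h4.trans ?_
  have hsX : 0 ≤ √(X : ℝ) * l ^ C := by positivity
  have h5 : (n : ℝ) ≤ 2 * (√X * l ^ (C + 1)) := by
    have h6 : (n : ℝ) ≤ m + G := by exact_mod_cast hn.2
    have h7 : (m : ℝ) ≤ m₀ + M := by exact_mod_cast hm.2
    have h8 : √(X : ℝ) * l ^ (C + 1) = l * (√X * l ^ C) := by ring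
    have h9 : √(X : ℝ) * l ^ C ≤ l * (√X * l ^ C) := le_mul_of_one_le_left hsX hl1
    linarith
  have h6 : (n : ℝ) ^ 2 ≤ (2 * (√X * l ^ (C + 1))) ^ 2 := pow_le_pow_left₀ (Nat.cast_nonneg _) h5 2
  have h7 : (2 * (√(X : ℝ) * l ^ (C + 1))) ^ 2 = 4 * (X * l ^ (2 * C + 2)) := by
    rw [mul_pow, mul_pow, Real.sq_sqrt hX0, ← pow_mul, show (C + 1) * 2 = 2 * C + 2 by ring]; norm_num
  have h8 : 1 ≤ l ^ (2 * C + 2) := one_le_pow₀ hl1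
  have h9 : (X : ℝ) ≤ X * l ^ (2 * C + 2) := le_mul_of_one_le_right hX0 h8
  have h10 : (X : ℝ) * l ^ (2 * C + 3) = l * (X * l ^ (2 * C + 2)) := by ring
  have h11 : 5 * ((X : ℝ) * l ^ (2 * C + 2)) ≤ l * (X * l ^ (2 * C + 2)) :=
    mul_le_mul_of_nonneg_right (by linarith) (by positivity)
  rw [h10]
  linarith

open Classical in
/-- the tuples without a good constant -/
lemma count0 (k X m₀ M : ℕ) (BadG : Finset (Fin k → ℤ)) (η : ℝ) (h : (#BadG : ℝ) ≤ η * (X : ℝ) ^ k) :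
    (#((Bx k X ×ˢ Ioc m₀ (m₀ + M)).filter (fun p => p.1 ∈ BadG)) : ℝ) ≤ η * ((X : ℝ) ^ k * M) := by
  have h4 : (Bx k X ×ˢ Ioc m₀ (m₀ + M)).filter (fun p => p.1 ∈ BadG) ⊆ BadG ×ˢ Ioc m₀ (m₀ + M) := by
    intro p hp
    rw [mem_filter, mem_product] at hp
    exact mem_product.2 ⟨hp.2, hp.1.2⟩
  have h5 := card_le_card h4
  rw [card_product, Nat.card_Ioc, Nat.add_sub_cancel_left] at h5
  have h6 : (#((Bx k X ×ˢ Ioc m₀ (m₀ + M)).filter (fun p => p.1 ∈ BadG)) : ℝ) ≤ #BadG * M := by exact_mod_cast h5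
  refine h6.trans ?_
  calc (#BadG : ℝ) * M ≤ (η * (X : ℝ) ^ k) * M := mul_le_mul_of_nonneg_right h (Nat.cast_nonneg _)
    _ = _ := by ring

open Classical in
theorem sysm (k : ℕ) (hk : 1 ≤ k) (h1 : S_SM1 k) (h2 : S_SM2 k) (hf : S_FLS k) (h3 : S_HGS k) : S_SYSM k := by
  intro ε₀ hε₀
  obtain ⟨ε, hεd⟩ : ∃ ε, ε = min ε₀ 1 := ⟨_, rfl⟩
  have hε : 0 < ε := by rw [hεd]; exact lt_min hε₀ one_pos
  have hεl : ε ≤ 1 := by rw [hεd]; exact min_le_right _ _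
  have hεe : ε ≤ ε₀ := by rw [hεd]; exact min_le_left _ _
  clear hεd
  obtain ⟨ε₁, hε₁⟩ : ∃ ε₁, ε₁ = ε / 2400 := ⟨_, rfl⟩
  have he0 : 0 < ε₁ := by rw [hε₁]; positivity
  obtain ⟨δ0, hδ0, hHG⟩ := h3 (ε / 4) (by positivity)
  obtain ⟨C1, y0, hC1, hy0, hfl⟩ := hf
  obtain ⟨ε₂, he20, he21⟩ := pow_small k ε₁ he0
  obtain ⟨b, hb1, hb2⟩ : ∃ b : ℕ, C1 ≤ b ∧ 2 * (1 / 2 : ℝ) ^ b ≤ ε₁ := by
    obtain ⟨n, hn⟩ := exists_pow_lt_of_lt_one (show (0 : ℝ) < ε₁ / 2 by positivity) (show (1 / 2 : ℝ) < 1 by norm_num)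
    refine ⟨C1 + n, by omega, ?_⟩
    have h4 : (1 / 2 : ℝ) ^ (C1 + n) ≤ (1 / 2 : ℝ) ^ n := pow_le_pow_of_le_one (by norm_num) (by norm_num) (by omega)
    linarith
  obtain ⟨u, hu⟩ : ∃ u, u = C1 * b := ⟨_, rfl⟩
  have hu1 : 1 ≤ u := by rw [hu]; exact Nat.mul_pos (by omega) (by omega)
  have hfl := fun (w : ℕ) (hw : y0 ≤ w) (H : ℕ) (hH : w ^ (C1 * b) ≤ H) => hfl b hb1 w hw H hH
  rw [← hu] at hfl
  obtain ⟨Xg, hXg⟩ := hHG ε₁ he0 u hu1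
  obtain ⟨K₀, hK₀, hff⟩ := mom_1M k h1
  obtain ⟨lam, hlam⟩ : ∃ lam, lam = 1 + ε / 10 := ⟨_, rfl⟩
  have hlam1 : 1 < lam := by rw [hlam]; have : 0 < ε / 10 := by positivity
                             linarith
  have hloglam : 0 < Real.log lam := Real.log_pos hlam1
  obtain ⟨e, he⟩ : ∃ e, e = ε₁ * δ0 := ⟨_, rfl⟩
  have hep : 0 < e := by rw [he]; positivity
  obtain ⟨Kf, hKf⟩ : ∃ Kf, Kf = 1 / e ^ 2 * K₀ + 3 * (k * 3 ^ k) := ⟨_, rfl⟩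
  have hKf0 : 0 < Kf := by rw [hKf]; positivity
  obtain ⟨Kz, hKz⟩ : ∃ Kz, Kz = 1 / e ^ 2 := ⟨_, rfl⟩
  have hKz0 : 0 < Kz := by rw [hKz]; positivity
  obtain ⟨T, hT⟩ : ∃ T, T = Kf * (8 * (lam / (lam - 1))) / ε + 1 := ⟨_, rfl⟩
  have hlr : 0 < lam / (lam - 1) := div_pos (by linarith) (by linarith)
  have hT1 : 1 ≤ T := by
    rw [hT]
    have : 0 ≤ Kf * (8 * (lam / (lam - 1))) / ε := by positivity
    linarith
  have hTK : Kf * (1 / T * (lam / (lam - 1))) ≤ ε / 8 := by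
    have hT0 : 0 < T := by linarith
    have e' : Kf * (1 / T * (lam / (lam - 1))) = Kf * (lam / (lam - 1)) / T := by ring
    rw [e', div_le_iff₀ hT0]
    have h4 : ε / 8 * T = Kf * (lam / (lam - 1)) + ε / 8 := by rw [hT]; field_simp
    rw [h4]
    have : 0 < ε / 8 := by positivity
    linarith
  clear hT
  refine ⟨2 * T, by linarith, fun C => ?_⟩
  obtain ⟨E1, hff⟩ := hff (C + 2)
  obtain ⟨E, hE⟩ : ∃ E, E = E1 + 1 := ⟨_, rfl⟩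
  obtain ⟨B, Xa, hff⟩ := hff E (by omega)
  obtain ⟨D, hD⟩ : ∃ D, D = E * u + k := ⟨_, rfl⟩
  obtain ⟨Xb, hfz⟩ := mom_2M k h2 C (D + 1) E u (by omega) hu1
  obtain ⟨Xc, hVz⟩ := Run7.h285.E2.Vz_sqrt E (by omega)
  obtain ⟨Xd, hwc⟩ := wt_close (2 * k + 4) (2 * C + 3) ε₂ he20
  obtain ⟨LJ, hLJ⟩ : ∃ LJ, LJ = 1 / Real.log lam + 1 := ⟨_, rfl⟩
  have hLJ0 : 0 < LJ := by rw [hLJ]; positivity
  obtain ⟨KD, hKD⟩ : ∃ KD, KD = ((D + 1 : ℕ) : ℝ) / Real.log lam + 1 := ⟨_, rfl⟩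
  have hKD0 : 0 < KD := by rw [hKD]; positivity
  have hev : ∀ᶠ X : ℕ in atTop, (10000 + 10 / ε + 2 ^ (k + 1) / (ε₁ * δ0) + 2 ^ (k + 1) / ε₁ +
        16 * (LJ * (Kf + 3)) / ε : ℝ) ≤ Real.log X ∧
      ((y0 : ℝ) + 1) * Real.log (Real.log X) ^ 0 ≤ Real.log X ^ (1 / (u : ℝ)) ∧
      Real.log X ^ (2 * k + 4 + 2 * C + 2) ≤ (X : ℝ) ^ (1 : ℝ) ∧
      1 * Real.log (Real.log X) ^ 4 ≤ Real.log X ^ (1 : ℝ) ∧
      Real.exp (64 * ((KD + 1) * Kz) / ε + 2) ≤ Real.log X := by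
    filter_upwards [evt_log_ge _, evt_ll 0 (1 / (u : ℝ)) (y0 + 1) (by positivity),
      evt_log_pow (2 * k + 4 + 2 * C + 2) 1 (by norm_num), evt_ll 4 1 1 (by norm_num), evt_log_ge _] with X a1 a2 a3 a4 a5
    exact ⟨a1, a2, a3, a4, a5⟩
  obtain ⟨Xe, hXe⟩ := eventually_atTop.1 hev
  refine ⟨B, Xg + Xa + Xb + Xc + Xd + Xe, fun X hX m₀ M hM hW => ?_⟩
  obtain ⟨BadG, -, hBadG, hgood⟩ := hXg X (by omega)
  have hff := hff X (by omega) m₀ M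
  have hfz := hfz X (by omega) m₀ M
  have hVz := hVz X (by omega)
  have hwc := hwc X (by omega)
  obtain ⟨hl, hlu, hlX, hl4, hle⟩ := hXe X (by omega)
  have p0 : 0 < 10 / ε := by positivity
  have p2 : 0 < 2 ^ (k + 1) / (ε₁ * δ0) := by positivity
  have p3 : 0 < 2 ^ (k + 1) / ε₁ := by positivity
  have p4 : 0 < 16 * (LJ * (Kf + 3)) / ε := by positivity
  have g0 : 10000 ≤ Real.log X := by linarith
  have g1 : 10 / ε ≤ Real.log X := by linarith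
  have g2 : 2 ^ (k + 1) / (ε₁ * δ0) ≤ Real.log X := by linarith
  have g3 : 2 ^ (k + 1) / ε₁ ≤ Real.log X := by linarith
  have g4 : 16 * (LJ * (Kf + 3)) / ε ≤ Real.log X := by linarith
  clear hl p0 p2 p3 p4
  have hl1' : 1 ≤ Real.log X := by linarith
  have hM3 : (X : ℝ) ^ (1 / 3 : ℝ) ≤ M := by
    refine le_trans ?_ hM
    exact le_mul_of_one_le_right (by positivity) (one_le_pow₀ hl1')
  have hff := fun H hH1 hH2 => hff H hM hH1 hH2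
  have hfz := fun H hH1 hH2 => hfz H hM3 hW hH1 hH2
  clear hXg hXe hev h1 h2 h3 hHG
  rw [pow_zero, mul_one] at hlu
  rw [Real.rpow_one] at hlX
  rw [Real.rpow_one, one_mul] at hl4
  have hXp : 1 ≤ X := by
    rcases Nat.eq_zero_or_pos X with h | h
    · rw [h] at hl1'; norm_num at hl1'
    · exact h
  have hX1 : (1 : ℝ) ≤ X := by exact_mod_cast hXp
  have hX0 : (0 : ℝ) < X := by linarith
  have hM0 : (0 : ℝ) < M := by
    have : 0 < (X : ℝ) ^ (1 / 3 : ℝ) := Real.rpow_pos_of_pos (by linarith) _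
    linarith
  clear hM hM3
  generalize hll : Real.log (X : ℝ) = l at *
  obtain ⟨hz2, hwy, hzy, hwu, hHDl, hHDu⟩ := cuts l k u E y0 D g0 hu1 (by omega) hy0 hk hD hlu
  obtain ⟨w, hw⟩ : ∃ w, w = ⌊l ^ (1 / (u : ℝ))⌋₊ := ⟨_, rfl⟩
  obtain ⟨z, hz⟩ : ∃ z, z = ⌊l ^ E⌋₊ := ⟨_, rfl⟩
  rw [← hz] at hff hfz hVz hz2 hzy hHDl hHDu
  rw [← hw] at hfz hgood hwy hwu
  clear hw hz hlu
  have hl0 : 0 < l := by linarith
  have hLl : l ≤ l ^ k := le_self_pow₀ hl1' (by omega)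
  have hL1 : 1 ≤ l ^ k := one_le_pow₀ hl1'
  obtain ⟨k₂, hk₂⟩ : ∃ k₂, k₂ = Real.log l := ⟨_, rfl⟩
  rw [← hk₂] at hfz hl4
  have hk1 : 64 * ((KD + 1) * Kz) / ε + 2 ≤ k₂ := by
    rw [hk₂, Real.le_log_iff_exp_le hl0]; exact hle
  have hk0 : 0 < 64 * ((KD + 1) * Kz) / ε := by positivity
  obtain ⟨HD, hHD⟩ : ∃ HD : ℕ, HD = z ^ u + ⌈l ^ k⌉₊ := ⟨_, rfl⟩
  rw [← hHD] at hHDl hHDu
  have huHD : z ^ u ≤ HD := by omega
  have hXM : 0 < (X : ℝ) ^ k * M := by positivity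
  have h6X : l ^ (2 * k + 4) ≤ X := (pow_le_pow_right₀ hl1' (by omega)).trans hlX
  have hsX0 : 0 < √(X : ℝ) := Real.sqrt_pos.2 hX0
  have hsq : l ^ (C + 1) ≤ √(X : ℝ) := by
    apply Real.le_sqrt_of_sq_le
    rw [← pow_mul]
    exact (pow_le_pow_right₀ hl1' (by omega)).trans hlX
  obtain ⟨Al, hAl⟩ : ∃ Al : ℕ → Prop, Al = fun H : ℕ => (H : ℝ) ≤ √X * l ^ (C + 1) := ⟨_, rfl⟩
  have hAlX : ∀ H : ℕ, Al H → (H : ℝ) ≤ X := by
    intro H hH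
    rw [hAl] at hH
    refine le_trans hH ?_
    calc √(X : ℝ) * l ^ (C + 1) ≤ √X * √X := by gcongr
      _ = X := Real.mul_self_sqrt hX0.le
  have hAlm : ∀ H H' : ℕ, H ≤ H' → Al H' → Al H := by
    intro H H' h hH
    rw [hAl] at hH ⊢
    refine le_trans ?_ hH
    exact_mod_cast h
  have hAlW : ∀ H : ℕ, Al H → (m₀ : ℝ) + H + M ≤ √X * l ^ (C + 2) := by
    intro H hH
    rw [hAl] at hH
    have h5 : √(X : ℝ) * l ^ (C + 2) = l * (√X * l ^ (C + 1)) := by ring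
    have h6 : √(X : ℝ) * l ^ C ≤ √X * l ^ (C + 1) := by
      gcongr
      omega
    have h7 : 2 * (√(X : ℝ) * l ^ (C + 1)) ≤ l * (√X * l ^ (C + 1)) :=
      mul_le_mul_of_nonneg_right (by linarith) (by positivity)
    rw [h5]
    linarith
  obtain ⟨Bad, hBadS, hBadc, hBadg⟩ := max_abs (Bx k X ×ˢ Ioc m₀ (m₀ + M)) (fun p => p.1 ∈ BadG)
    (bad1 z (l ^ k) (l ^ (2 * k + 2)) e ((X : ℝ) / l ^ (2 * k + 4))) (bad2 w z e) Al ((X : ℝ) ^ k * M) l (l ^ k) k₂ ε T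
    lam Kf Kz LJ KD X (D + 1) HD hXM hl1' hLl hk₂ (by linarith) hε hT1 hlam1 hKf0 hKz0 hLJ hKD hTK hll hAlX g4
    (by linarith) hl4 hHDl hHDu
    (by
      refine le_trans (le_of_eq ?_) (count0 k X m₀ M BadG (ε / 4) hBadG)
      congr!)
    (by
      intro G hG hA
      have h4 := count1 k hk X m₀ M z G l e (K₀ * (l ^ k / G + 1 / l ^ 2)) hl1' (by linarith) hep h6X hXp
        (hff G (hAlW G hA) hG)
      refine h4.trans (mul_le_mul_of_nonneg_left ?_ hXM.le)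
      have h5 : 0 ≤ 3 * ((k : ℝ) * 3 ^ k) * (l ^ k / G) := by positivity
      have h6 : 0 ≤ 3 / l ^ 2 := by positivity
      have h7 : Kf * (l ^ k / G + 1 / l ^ 2) + 3 / l ^ 2 = 1 / e ^ 2 * (K₀ * (l ^ k / G + 1 / l ^ 2)) +
          3 * (k * 3 ^ k) / l ^ 2 + (3 * ((k : ℝ) * 3 ^ k) * (l ^ k / G) + 3 / l ^ 2) := by
        rw [hKf]; ring
      rw [h7]
      linarith)
    (by
      intro G hG hGD hA
      have h4 := count2 k X m₀ M w z G e (1 / √l + 1 / k₂ ^ 2) (by linarith) hep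
        (hfz G (hLl.trans hG) hGD)
      refine h4.trans (le_of_eq ?_)
      rw [hKz])
  clear hff hfz hBadG hKf hKz hLJ hKD hTK hl4 hle hk1 hk0 hk₂ h6X hAlX hAlW
  refine ⟨Bad, hBadS, hBadc.trans (mul_le_mul_of_nonneg_right hεe hXM.le), ?_⟩
  intro a ha m hm hbad hadm
  obtain ⟨q0, q1, q2, q3⟩ := hBadg (a, m) (mem_product.2 ⟨ha, hm⟩) hbad
  clear hBadg hBadc hBadS
  obtain ⟨h, hδh, hlim, hhw⟩ := hgood a ha q0 hadm
  have hh0 : 0 < h := by linarith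
  refine ⟨h, hh0, hlim, fun H hTH hHA => ?_⟩
  have hWt : 0 ≤ h * W a m H := by
    have hWt : 0 ≤ W a m H := by
      unfold W
      exact sum_nonneg fun _ _ => prod_nonneg fun _ _ => wt_nonneg _
    positivity
  refine le_trans ?_ (mul_le_mul_of_nonneg_right hεe hWt)
  have hb0 : 0 < 2 * (1 / 2 : ℝ) ^ b := by positivity
  have hVz0 := inv_pos.2 (Pool.Agent.TH892.OW.Vz_pos z)
  refine pair_all w z (z ^ u) (D + 1) hz2 a m HD l h δ0 ε₁ ((X : ℝ) / l ^ (2 * k + 4)) (SS a w) (SS a z) ε lam T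
    g0 hε₁ hε hεl hh0 hδ0 hδh hlam hT1 g1 hHDl Al hVz0.le ?_ g2 g3 hk ?_ ?_ ?_ ?_ ?_ huHD hHDu ?_ hAlm ?_ H hTH ?_
  · have h4 : √l ≤ l := by rw [Real.sqrt_le_left hl0.le]; nlinarith
    linarith
  · intro j hj
    have h4 := q1 j hj
    rw [bad1] at h4
    push Not at h4
    rw [← he]
    exact h4
  · intro G hG n hn hκ
    rw [hAl] at hG
    have h4 := prod_close (univ : Finset (Fin k)) (fun i => wt ((n : ℤ) ^ 2 + a i).natAbs) (1 / l) ε₂ (by positivity)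
      he20.le (fun i _ => hwc _ (hκ i) (val_le X m₀ M C a m G n l (by linarith) ha hm hW hG hn i))
    rw [card_univ, Fintype.card_fin, one_div, inv_pow, ← one_div] at h4
    refine h4.trans ?_
    exact mul_le_mul_of_nonneg_right he21 (by positivity)
  · exact hhw
  · intro G hG
    have hwG : w ^ u ≤ G := by
      have : ((w ^ u : ℕ) : ℝ) ≤ G := hwu.trans hG
      exact_mod_cast this
    have hG0 : (0 : ℝ) < G := by linarith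
    exact fl_use _ _ _ _ G (by exact_mod_cast hG0) hb0 hb2 (hfl w hwy G hwG a m hadm)
  · intro G hG1 hG
    exact fl_use _ _ _ _ G hG1 hb0 hb2 (hfl z hzy G hG a m hadm)
  · intro j hj hjD
    have h4 := q2 j hj hjD
    rw [bad2] at h4
    push Not at h4
    rw [← he]
    exact h4
  · intro hA
    have h4 := q3 hA
    rw [bad2] at h4
    push Not at h4
    rw [← he]
    exact h4
  · intro G hG
    rw [hAl]
    have h4 : (G : ℝ) ≤ 2 * H := by exact_mod_cast hG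
    have h5 : √(X : ℝ) * l ^ (C + 1) = l * (√X * l ^ C) := by ring
    have h6 : 2 * (√(X : ℝ) * l ^ C) ≤ l * (√X * l ^ C) := mul_le_mul_of_nonneg_right (by linarith) (by positivity)
    show (G : ℝ) ≤ √X * l ^ (C + 1)
    rw [h5]
    linarith

end Run7.h285.S
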