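import Pool.Agent.Run7.h285.S.SYSMa

/-!
# Project SYS: all scales at once, one tuple
-/

set_option autoImplicit false

namespace Run7.h285.S

open Finset Filter Topology
open Pool.Agent.H373R2.T7 (pz Vz lamz mem_pz Vz_ge Vz_inv_le Vz_le_one Vz_inv_small)
open Pool.Agent.TH892.SW (ff wt wt_nonneg wt_le)
open Pool.Agent.TH892.OW (evt_ll)
open Run7.h285.X (scal scal_ge scal_lt all_scales)

lemma hN1_ar (k : ℕ) (l e V : ℝ) (G : ℕ) (hl : 1 ≤ l) (he : 0 < e) (hV0 : 0 ≤ V) (hV : V ≤ l) (h : 2 ^ (k + 1) / e ≤ l) :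
    2 ^ (k + 1) * ((G : ℝ) / l ^ (2 * k + 2)) * V ^ k ≤ e * (G / l ^ k) := by
  have hl0 : 0 < l := by linarith
  rw [div_le_iff₀ he] at h
  have h5 : l ≤ l ^ 2 := le_self_pow₀ hl (by norm_num)
  have h6 : (2 : ℝ) ^ (k + 1) ≤ l ^ 2 * e := h.trans (mul_le_mul_of_nonneg_right h5 he.le)
  have e2 : l ^ (2 * k + 2) = l ^ k * l ^ k * l ^ 2 := by ring
  calc 2 ^ (k + 1) * ((G : ℝ) / l ^ (2 * k + 2)) * V ^ k ≤ 2 ^ (k + 1) * ((G : ℝ) / l ^ (2 * k + 2)) * l ^ k := by gcongr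
    _ ≤ (l ^ 2 * e) * ((G : ℝ) / l ^ (2 * k + 2)) * l ^ k := by gcongr
    _ = e * ((G : ℝ) / l ^ k) := by rw [e2]; field_simp

lemma hN2_ar (k : ℕ) (l e : ℝ) (G : ℕ) (hl : 1 ≤ l) (he : 0 < e) (h : 2 ^ (k + 1) / e ≤ l) :
    2 ^ (k + 1) * ((G : ℝ) / l ^ (2 * k + 2)) ≤ e * (G / l ^ k) := by
  have hl0 : 0 < l := by linarith
  rw [div_le_iff₀ he] at h
  have h5 : l ≤ l ^ (k + 2) := le_self_pow₀ hl (by omega)
  have h6 : (2 : ℝ) ^ (k + 1) ≤ l ^ (k + 2) * e := h.trans (mul_le_mul_of_nonneg_right h5 he.le)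
  have e2 : l ^ (2 * k + 2) = l ^ (k + 2) * l ^ k := by ring
  calc 2 ^ (k + 1) * ((G : ℝ) / l ^ (2 * k + 2)) ≤ (l ^ (k + 2) * e) * ((G : ℝ) / l ^ (2 * k + 2)) := by gcongr
    _ = e * ((G : ℝ) / l ^ k) := by rw [e2]; field_simp

/-- one tuple, all scales -/
theorem pair_all {k : ℕ} (w z u D : ℕ) (hz : 2 ≤ z) (a : Fin k → ℤ) (m HD : ℕ)
    (l h δ0 e κ V V' ε lam T : ℝ)
    (hl : 10000 ≤ l) (he : e = ε / 2400) (hε : 0 < ε) (hε1 : ε ≤ 1) (hh : 0 < h) (hδ : 0 < δ0) (hδh : δ0 ≤ h)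
    (hlam : lam = 1 + ε / 10) (hT : 1 ≤ T) (hlT : 10 / ε ≤ l)
    (hlHD : l ^ k ≤ HD) (Al : ℕ → Prop) (hVz0 : 0 ≤ (Vz z)⁻¹) (hVz : (Vz z)⁻¹ ≤ l) (hl1 : 2 ^ (k + 1) / (e * δ0) ≤ l)
    (hl2 : 2 ^ (k + 1) / e ≤ l) (hk : 1 ≤ k)
    (k12 : ∀ j, Al (scal (T * l ^ k) lam j) → |∑ n ∈ Ioc m (m + scal (T * l ^ k) lam j), (pr (fun _ => uu) a n - pr (fun _ => vv z) a n)| ≤
        e * δ0 * (scal (T * l ^ k) lam j / l ^ k) ∧
      (nn a m (scal (T * l ^ k) lam j) κ : ℝ) ≤ scal (T * l ^ k) lam j / l ^ (2 * k + 2))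
    (hwt : ∀ G : ℕ, Al G → ∀ n ∈ Ioc m (m + G), (∀ i, κ ≤ (((n : ℤ) ^ 2 + a i).natAbs : ℝ)) →
      |∏ i, wt ((n : ℤ) ^ 2 + a i).natAbs - 1 / l ^ k| ≤ e * (1 / l ^ k))
    (hV : |V - h| ≤ e * h)
    (hQ : ∀ G' : ℕ, l ^ k ≤ G' → |∑ n ∈ Ioc m (m + G'), pr (fun _ => ll w) a n - G' * V| ≤ e * V * G')
    (hQz : ∀ G' : ℕ, 1 ≤ G' → u ≤ G' → |∑ n ∈ Ioc m (m + G'), pr (fun _ => ll z) a n - G' * V'| ≤ e * V' * G')
    (huHD : u ≤ HD) (hHDu : (HD : ℝ) ≤ l ^ D)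
    (hsm : ∀ j, Al (scal (T * l ^ k) lam j) → (scal (T * l ^ k) lam j : ℝ) ≤ l ^ D →
      |∑ n ∈ Ioc m (m + scal (T * l ^ k) lam j), (pr (fun _ => ll z) a n - pr (fun _ => ll w) a n)| ≤
        e * δ0 * scal (T * l ^ k) lam j)
    (hAlm : ∀ G G' : ℕ, G ≤ G' → Al G' → Al G)
    (hlg : Al HD → |∑ n ∈ Ioc m (m + HD), (pr (fun _ => ll z) a n - pr (fun _ => ll w) a n)| ≤ e * δ0 * HD)
    (H : ℕ) (hTH : 2 * T * l ^ k ≤ H) (hAH : ∀ G : ℕ, G ≤ 2 * H → Al G) :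
    |(P a m H : ℝ) - h * W a m H| ≤ ε * (h * W a m H) := by
  have hl0 : 0 < l := by linarith
  have hl1' : 1 ≤ l := by linarith
  have hL1 : 1 ≤ l ^ k := one_le_pow₀ hl1'
  have hlL : l ≤ l ^ k := le_self_pow₀ hl1' (by omega)
  have hL0 : 0 < l ^ k := by positivity
  have he0 : 0 < e := by rw [he]; positivity
  have heδ : 0 < e * δ0 := by positivity
  have he2 : 5 * e ≤ 1 / 100 := by rw [he]; linarith
  have hlam1 : 1 < lam := by rw [hlam]; have : 0 < ε / 10 := by positivity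
                             linarith
  have ht0 : 0 < T * l ^ k := by positivity
  have hlt : l ^ k ≤ T * l ^ k := by nlinarith
  have hscl : ∀ j, l ^ k ≤ (scal (T * l ^ k) lam j : ℝ) := by
    intro j
    refine le_trans ?_ (scal_ge (T * l ^ k) lam j)
    have : 1 ≤ lam ^ j := one_le_pow₀ hlam1.le
    nlinarith
  have hgood : ∀ j, scal (T * l ^ k) lam j ≤ 2 * H →
      |(P a m (scal (T * l ^ k) lam j) : ℝ) - h * W a m (scal (T * l ^ k) lam j)| ≤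
        ε / 40 * (h * W a m (scal (T * l ^ k) lam j)) ∧
      |W a m (scal (T * l ^ k) lam j) - scal (T * l ^ k) lam j / l ^ k| ≤ ε / 40 * (scal (T * l ^ k) lam j / l ^ k) := by
    intro j hj
    have hA := hAH _ hj
    obtain ⟨k1, k3⟩ := k12 j hA
    have hs := hscl j
    have hsm' := hsm j hA
    generalize scal (T * l ^ k) lam j = G at *
    have h4 := good_scale w z u D hz a m G HD l (l ^ k) h δ0 e κ V V' hL1 he0 he2 hh hδ hδh hs hlHD k1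
      ((G : ℝ) / l ^ (2 * k + 2)) k3 (hN1_ar k l (e * δ0) _ G hl1' heδ hVz0 hVz hl1) (hN2_ar k l e G hl1' he0 hl2)
      (hwt G hA) hV hQ hQz huHD hsm' (by
        intro hG
        have hHDG : HD ≤ G := by
          have : (HD : ℝ) ≤ G := hHDu.trans hG.le
          exact_mod_cast this
        exact ⟨hHDG, hlg (hAlm _ _ hHDG hA)⟩)
    have h60 : 60 * e = ε / 40 := by rw [he]; ring
    have hG0 : 0 ≤ (G : ℝ) / l ^ k := by positivity
    rw [h60] at h4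
    refine ⟨h4.1, h4.2.trans (mul_le_mul_of_nonneg_right ?_ hG0)⟩
    rw [he]; linarith
  have hPm : Monotone (fun G : ℕ => (P a m G : ℝ)) := by
    intro G G' hGG
    have : P a m G ≤ P a m G' := by
      unfold P
      apply card_le_card
      apply filter_subset_filter
      exact Ioc_subset_Ioc le_rfl (by omega)
    show (P a m G : ℝ) ≤ P a m G'
    exact_mod_cast this
  have hWm : Monotone (fun G : ℕ => W a m G) := by
    intro G G' hGG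
    show W a m G ≤ W a m G'
    unfold W
    apply sum_le_sum_of_subset_of_nonneg
    · exact Ioc_subset_Ioc le_rfl (by omega)
    · intro n _ _; exact prod_nonneg fun _ _ => wt_nonneg _
  exact all_scales (fun G : ℕ => (P a m G : ℝ)) (fun G : ℕ => W a m G) hPm hWm h (l ^ k) ε (ε / 40) lam (T * l ^ k)
    hh hL0 hε hε1 (by positivity) le_rfl hlam (by linarith) (fun j => scal (T * l ^ k) lam j ≤ 2 * H) hgood H (by
      have h5 := scal_lt (T * l ^ k) lam ht0.le (by linarith) 0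
      rw [pow_zero, mul_one] at h5
      have h6 : (scal (T * l ^ k) lam 0 : ℝ) < H + 1 := by
        have : T * l ^ k + 1 ≤ 2 * T * l ^ k := by nlinarith
        linarith
      have h7 : scal (T * l ^ k) lam 0 < H + 1 := by exact_mod_cast h6
      omega) (fun j hj => hj)

end Run7.h285.S
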