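import Pool.Agent.Run7.h285.E3b
import Pool.Agent.Run7.h285.S.Stm

/-!
# Project SYS, assembly, first part: long windows, Chebyshev, small values, one tuple
-/

set_option autoImplicit false

namespace Run7.h285.S

open Finset Filter
open Pool.Agent.H373R2.T7 (pz Vz lamz mem_pz Vz_ge Vz_inv_le Vz_le_one Vz_inv_small)
open Pool.Agent.TH892.SW (ff wt wt_nonneg wt_le)
open Pool.Agent.TH892.OW (evt_ll)
open Run7.h285.E3 (win_split near_a wt_le')
open Pool.Agent.H442R2.EHI (evt_log_pow evt_log_ge)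

/-! ### long windows -/

section gen
variable {α : Type*}

/-- the second moment over a set of parameters and the windows of length `H` -/
noncomputable def MG (A : Finset α) (G : α → ℕ → ℝ) (m₀ M H : ℕ) : ℝ :=
  ∑ a ∈ A, ∑ m ∈ Ioc m₀ (m₀ + M), (∑ n ∈ Ioc m (m + H), G a n) ^ 2

lemma MG_shift (A : Finset α) (G : α → ℕ → ℝ) (m₀ M c H : ℕ) :
    ∑ a ∈ A, ∑ m ∈ Ioc m₀ (m₀ + M), (∑ n ∈ Ioc (m + c) (m + c + H), G a n) ^ 2 = MG A G (m₀ + c) M H := by
  unfold MG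
  refine sum_congr rfl fun a _ => ?_
  refine sum_nbij' (fun m => m + c) (fun m => m - c) ?_ ?_ ?_ ?_ ?_
  · intro m hm; rw [mem_Ioc] at hm ⊢; omega
  · intro m hm; rw [mem_Ioc] at hm ⊢; omega
  · intro m hm; simp
  · intro m hm
    rw [mem_Ioc] at hm
    show m - c + c = m
    omega
  · intro m _; rfl

lemma MG_cs (A : Finset α) (G : α → ℕ → ℝ) (m₀ M H₁ J r : ℕ) :
    MG A G m₀ M (J * H₁ + r) ≤
      ((J : ℝ) + 1) * (∑ j ∈ range J, MG A G (m₀ + j * H₁) M H₁ + MG A G (m₀ + J * H₁) M r) := by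
  have key : ∀ (a : α) (m : ℕ), (∑ n ∈ Ioc m (m + (J * H₁ + r)), G a n) ^ 2 ≤
      ((J : ℝ) + 1) * (∑ j ∈ range J, (∑ n ∈ Ioc (m + j * H₁) (m + j * H₁ + H₁), G a n) ^ 2 +
        (∑ n ∈ Ioc (m + J * H₁) (m + J * H₁ + r), G a n) ^ 2) := by
    intro a m
    rw [win_split]
    have h1 := sq_sum_le_card_mul_sum_sq (s := range (J + 1))
      (f := fun j => if j < J then ∑ n ∈ Ioc (m + j * H₁) (m + j * H₁ + H₁), G a n else
        ∑ n ∈ Ioc (m + J * H₁) (m + J * H₁ + r), G a n)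
    rw [sum_range_succ, sum_range_succ, card_range] at h1
    have h2 : ∀ F : ℝ → ℝ, ∑ j ∈ range J, F (if j < J then ∑ n ∈ Ioc (m + j * H₁) (m + j * H₁ + H₁), G a n else
        ∑ n ∈ Ioc (m + J * H₁) (m + J * H₁ + r), G a n) =
        ∑ j ∈ range J, F (∑ n ∈ Ioc (m + j * H₁) (m + j * H₁ + H₁), G a n) := by
      intro F
      refine sum_congr rfl fun j hj => ?_
      rw [if_pos (mem_range.1 hj)]
    have h3 := h2 (fun x => x)
    have h4 := h2 (fun x => x ^ 2)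
    rw [h3, h4] at h1
    simp only [lt_irrefl, if_false] at h1
    push_cast at h1
    exact h1
  have e1 : MG A G m₀ M (J * H₁ + r) = ∑ a ∈ A, ∑ m ∈ Ioc m₀ (m₀ + M),
      (∑ n ∈ Ioc m (m + (J * H₁ + r)), G a n) ^ 2 := rfl
  rw [e1]
  refine (sum_le_sum fun a _ => sum_le_sum fun m _ => key a m).trans (le_of_eq ?_)
  simp_rw [← mul_sum, sum_add_distrib]
  congr 2
  · rw [← sum_congr rfl fun j _ => MG_shift A G m₀ M (j * H₁) H₁, sum_comm]
    rw [sum_comm]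
    refine (sum_congr rfl fun a _ => ?_).trans sum_comm
    exact sum_comm
  · exact MG_shift A G m₀ M (J * H₁) r

lemma MG_zero (A : Finset α) (G : α → ℕ → ℝ) (m₀ M : ℕ) : MG A G m₀ M 0 = 0 := by
  unfold MG
  simp

/-- bounds for short windows give bounds for long windows -/
lemma MG_long (A : Finset α) (G : α → ℕ → ℝ) (M H₁ : ℕ) (V W : ℝ) (hH₁ : 1 ≤ H₁) (hV : 0 ≤ V)
    (h : ∀ m₀ r : ℕ, 1 ≤ r → r ≤ H₁ → (m₀ : ℝ) + M ≤ W → MG A G m₀ M r ≤ V) :
    ∀ m₀ H : ℕ, H₁ ≤ H → (m₀ : ℝ) + H + M ≤ W → MG A G m₀ M H ≤ 4 * ((H : ℝ) / H₁) ^ 2 * V := by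
  intro m₀ H hH hW
  obtain ⟨J, hJ⟩ : ∃ J, J = H / H₁ := ⟨_, rfl⟩
  obtain ⟨r, hr⟩ : ∃ r, r = H % H₁ := ⟨_, rfl⟩
  have hHJ : H = J * H₁ + r := by rw [hJ, hr, mul_comm]; exact (Nat.div_add_mod H H₁).symm
  have hr1 : r < H₁ := by rw [hr]; exact Nat.mod_lt _ (by omega)
  have hJ1 : 1 ≤ J := by rw [hJ]; exact Nat.div_pos hH (by omega)
  have h1 := MG_cs A G m₀ M H₁ J r
  rw [← hHJ] at h1
  refine h1.trans ?_
  have hHr : (H : ℝ) = J * H₁ + r := by exact_mod_cast hHJ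
  have hr0 : (0 : ℝ) ≤ r := Nat.cast_nonneg _
  have h2 : ∀ j ∈ range J, MG A G (m₀ + j * H₁) M H₁ ≤ V := by
    intro j hj
    rw [mem_range] at hj
    apply h _ _ hH₁ le_rfl
    push_cast
    have : (j : ℝ) * H₁ ≤ J * H₁ := mul_le_mul_of_nonneg_right (by exact_mod_cast hj.le) (Nat.cast_nonneg _)
    linarith
  have h3 : MG A G (m₀ + J * H₁) M r ≤ V := by
    rcases Nat.eq_zero_or_pos r with h0 | h0
    · rw [h0, MG_zero]; exact hV
    · apply h _ _ h0 hr1.le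
      push_cast
      linarith
  have h4 := sum_le_sum h2
  rw [sum_const, card_range, nsmul_eq_mul] at h4
  have hH1r : (0 : ℝ) < H₁ := by exact_mod_cast hH₁
  have hJr : (1 : ℝ) ≤ J := by exact_mod_cast hJ1
  have h5 : (J : ℝ) + 1 ≤ 2 * ((H : ℝ) / H₁) := by
    rw [mul_div_assoc', le_div_iff₀ hH1r]
    nlinarith
  calc ((J : ℝ) + 1) * (∑ j ∈ range J, MG A G (m₀ + j * H₁) M H₁ + MG A G (m₀ + J * H₁) M r)
      ≤ ((J : ℝ) + 1) * (J * V + V) := mul_le_mul_of_nonneg_left (by linarith) (by linarith)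
    _ = ((J : ℝ) + 1) ^ 2 * V := by ring
    _ ≤ (2 * ((H : ℝ) / H₁)) ^ 2 * V := by gcongr
    _ = _ := by ring

/-! ### Chebyshev -/

lemma cheb (A : Finset α) (I : Finset ℕ) (F : α → ℕ → ℝ) (lam S : ℝ) (hl : 0 < lam)
    (h : ∑ a ∈ A, ∑ m ∈ I, F a m ^ 2 ≤ S) :
    (#((A ×ˢ I).filter (fun p => lam < |F p.1 p.2|)) : ℝ) ≤ S / lam ^ 2 := by
  rw [le_div_iff₀ (by positivity)]
  rw [← sum_product' (f := fun a m => F a m ^ 2)] at h
  refine le_trans ?_ h
  refine le_trans ?_ (sum_le_sum_of_subset_of_nonneg (filter_subset (fun p => lam < |F p.1 p.2|) (A ×ˢ I))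
    fun p _ _ => sq_nonneg _)
  rw [← nsmul_eq_mul]
  apply card_nsmul_le_sum
  intro p hp
  rw [mem_filter] at hp
  have h1 := pow_le_pow_left₀ hl.le hp.2.le 2
  rwa [sq_abs] at h1

lemma markov (A : Finset α) (I : Finset ℕ) (F : α → ℕ → ℝ) (lam S : ℝ) (hl : 0 < lam) (hF : ∀ a m, 0 ≤ F a m)
    (h : ∑ a ∈ A, ∑ m ∈ I, F a m ≤ S) :
    (#((A ×ˢ I).filter (fun p => lam < F p.1 p.2)) : ℝ) ≤ S / lam := by
  rw [le_div_iff₀ hl]
  rw [← sum_product' (f := fun a m => F a m)] at h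
  refine le_trans ?_ h
  refine le_trans ?_ (sum_le_sum_of_subset_of_nonneg (filter_subset (fun p => lam < F p.1 p.2) (A ×ˢ I))
    fun p _ _ => hF _ _)
  rw [← nsmul_eq_mul]
  apply card_nsmul_le_sum
  intro p hp
  rw [mem_filter] at hp
  exact hp.2.le

lemma card_or (S : Finset (α × ℕ)) (p q : α × ℕ → Prop) [DecidablePred p] [DecidablePred q] (x y : ℝ)
    (hp : (#(S.filter p) : ℝ) ≤ x) (hq : (#(S.filter q) : ℝ) ≤ y) :
    (#(S.filter (fun s => p s ∨ q s)) : ℝ) ≤ x + y := by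
  classical
  rw [filter_or]
  have h1 := card_union_le (S.filter p) (S.filter q)
  have h2 : (#(S.filter p ∪ S.filter q) : ℝ) ≤ #(S.filter p) + #(S.filter q) := by exact_mod_cast h1
  linarith

end gen

/-! ### small values -/

open Classical in
/-- the number of the `n` of the window with a small value -/
noncomputable def nn {k : ℕ} (a : Fin k → ℤ) (m H : ℕ) (κ : ℝ) : ℕ :=
  #((Ioc m (m + H)).filter (fun n : ℕ => ∃ l, (((n : ℤ) ^ 2 + a l).natAbs : ℝ) < κ))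

lemma card_Bx (k X : ℕ) : (#(Bx k X) : ℝ) = (2 * X + 1) ^ k := by
  unfold Bx
  rw [Fintype.card_piFinset, prod_const, card_univ, Fintype.card_fin, Int.card_Icc]
  have : ((X : ℤ) + 1 - -(X : ℤ)).toNat = 2 * X + 1 := by omega
  rw [this]; push_cast; ring

open Classical in
lemma card_slice (k X : ℕ) (l : Fin k) (p : ℤ → Prop) (t : ℝ)
    (h : (#((Icc (-(X : ℤ)) X).filter p) : ℝ) ≤ t) :
    (#((Bx k X).filter (fun a => p (a l))) : ℝ) ≤ t * (2 * X + 1) ^ (k - 1) := by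
  set S := Icc (-(X : ℤ)) X with hS
  have h1 : (Bx k X).filter (fun a => p (a l)) ⊆
      Fintype.piFinset (Function.update (fun _ => S) l (S.filter p)) := by
    intro a ha
    rw [mem_filter] at ha
    have h2 := Fintype.mem_piFinset.1 ha.1
    rw [Fintype.mem_piFinset]
    intro i
    by_cases hi : i = l
    · subst hi
      rw [Function.update_self]
      exact mem_filter.2 ⟨h2 i, ha.2⟩
    · rw [Function.update_of_ne hi]
      exact h2 i
  have h2 : (#((Bx k X).filter (fun a => p (a l))) : ℝ) ≤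
      (#(Fintype.piFinset (Function.update (fun _ => S) l (S.filter p))) : ℕ) := by exact_mod_cast card_le_card h1
  refine h2.trans ?_
  rw [Fintype.card_piFinset]
  have h3 : ∏ i : Fin k, #(Function.update (fun _ => S) l (S.filter p) i) = #(S.filter p) * (#S) ^ (k - 1) := by
    rw [← mul_prod_erase univ _ (mem_univ l), Function.update_self]
    congr 1
    rw [prod_congr rfl (g := fun _ => #S) (fun i hi => by rw [Function.update_of_ne (ne_of_mem_erase hi)]), prod_const,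
      card_erase_of_mem (mem_univ l), card_univ, Fintype.card_fin]
  rw [h3]
  have h4 : #S = 2 * X + 1 := by rw [hS, Int.card_Icc]; omega
  rw [h4]
  push_cast
  exact mul_le_mul_of_nonneg_right h (by positivity)

open Classical in
lemma near (k X m₀ M H : ℕ) (κ lam : ℝ) (hκ : 0 ≤ κ) (hl : 0 < lam) :
    (#((Bx k X ×ˢ Ioc m₀ (m₀ + M)).filter (fun p => lam < (nn p.1 p.2 H κ : ℝ))) : ℝ) ≤
      M * (H * (k * ((2 * κ + 1) * (2 * X + 1) ^ (k - 1)))) / lam := by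
  apply markov (Bx k X) (Ioc m₀ (m₀ + M)) (fun a m => (nn a m H κ : ℝ)) lam _ hl (fun _ _ => Nat.cast_nonneg _)
  rw [sum_comm]
  have h1 : ∀ m ∈ Ioc m₀ (m₀ + M), ∑ a ∈ Bx k X, (nn a m H κ : ℝ) ≤ H * (k * ((2 * κ + 1) * (2 * X + 1) ^ (k - 1))) := by
    intro m _
    have e1 : ∑ a ∈ Bx k X, (nn a m H κ : ℝ) =
        ∑ n ∈ Ioc m (m + H), (#((Bx k X).filter (fun a => ∃ l, (((n : ℤ) ^ 2 + a l).natAbs : ℝ) < κ)) : ℝ) := by
      unfold nn
      simp_rw [card_filter]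
      push_cast
      exact sum_comm
    rw [e1]
    have h2 : ∀ n ∈ Ioc m (m + H), (#((Bx k X).filter (fun a => ∃ l, (((n : ℤ) ^ 2 + a l).natAbs : ℝ) < κ)) : ℝ) ≤
        k * ((2 * κ + 1) * (2 * X + 1) ^ (k - 1)) := by
      intro n _
      have h3 : (Bx k X).filter (fun a => ∃ l, (((n : ℤ) ^ 2 + a l).natAbs : ℝ) < κ) ⊆
          univ.biUnion fun l : Fin k => (Bx k X).filter (fun a => (((n : ℤ) ^ 2 + a l).natAbs : ℝ) < κ) := by
        intro a ha
        rw [mem_filter] at ha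
        obtain ⟨l, hl⟩ := ha.2
        exact mem_biUnion.2 ⟨l, mem_univ _, mem_filter.2 ⟨ha.1, hl⟩⟩
      have h4 := (card_le_card h3).trans card_biUnion_le
      have h5 : (#((Bx k X).filter (fun a => ∃ l, (((n : ℤ) ^ 2 + a l).natAbs : ℝ) < κ)) : ℝ) ≤
          ∑ l : Fin k, (#((Bx k X).filter (fun a => (((n : ℤ) ^ 2 + a l).natAbs : ℝ) < κ)) : ℝ) := by exact_mod_cast h4
      refine h5.trans ?_
      refine (sum_le_sum fun l _ => card_slice k X l (fun c => (((n : ℤ) ^ 2 + c).natAbs : ℝ) < κ) (2 * κ + 1)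
        (near_a _ _ κ hκ)).trans (le_of_eq ?_)
      rw [sum_const, card_univ, Fintype.card_fin, nsmul_eq_mul]
    refine (sum_le_sum h2).trans (le_of_eq ?_)
    rw [sum_const, Nat.card_Ioc, nsmul_eq_mul, Nat.add_sub_cancel_left]
  refine (sum_le_sum h1).trans (le_of_eq ?_)
  rw [sum_const, Nat.card_Ioc, nsmul_eq_mul, Nat.add_sub_cancel_left]

/-! ### products close to a power -/

lemma prod_close {ι : Type*} (s : Finset ι) (x : ι → ℝ) (c ε : ℝ) (hc : 0 < c) (hε : 0 ≤ ε)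
    (h : ∀ i ∈ s, |x i - c| ≤ ε * c) : |∏ i ∈ s, x i - c ^ #s| ≤ ((1 + ε) ^ #s - 1) * c ^ #s := by
  classical
  induction s using Finset.induction_on with
  | empty => simp
  | insert i s hi ih =>
    rw [prod_insert hi, card_insert_of_notMem hi]
    have h1 := h i (mem_insert_self _ _)
    have h2 := ih fun j hj => h j (mem_insert_of_mem hj)
    have h3 : |∏ j ∈ s, x j| ≤ (1 + ε) ^ #s * c ^ #s := by
      have h4 := abs_sub_abs_le_abs_sub (∏ j ∈ s, x j) (c ^ #s)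
      have h5 : |c ^ #s| = c ^ #s := abs_of_pos (by positivity)
      rw [h5] at h4
      nlinarith
    have e1 : x i * ∏ j ∈ s, x j - c ^ (#s + 1) = (x i - c) * ∏ j ∈ s, x j + c * (∏ j ∈ s, x j - c ^ #s) := by ring
    rw [e1]
    refine (abs_add_le _ _).trans ?_
    rw [abs_mul, abs_mul, abs_of_pos hc]
    have h4 : |x i - c| * |∏ j ∈ s, x j| ≤ (ε * c) * ((1 + ε) ^ #s * c ^ #s) :=
      mul_le_mul h1 h3 (abs_nonneg _) (by positivity)
    have h5 : c * |∏ j ∈ s, x j - c ^ #s| ≤ c * (((1 + ε) ^ #s - 1) * c ^ #s) := mul_le_mul_of_nonneg_left h2 hc.le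
    have e2 : ((1 + ε) ^ (#s + 1) - 1) * c ^ (#s + 1) =
        (ε * c) * ((1 + ε) ^ #s * c ^ #s) + c * (((1 + ε) ^ #s - 1) * c ^ #s) := by ring
    rw [e2]
    linarith

lemma pow_small (k : ℕ) (ε : ℝ) (hε : 0 < ε) : ∃ ε₂ : ℝ, 0 < ε₂ ∧ (1 + ε₂) ^ k - 1 ≤ ε := by
  have h1 : Tendsto (fun t : ℝ => (1 + t) ^ k - 1) (nhds 0) (nhds ((1 + 0) ^ k - 1)) := by
    apply Continuous.tendsto
    fun_prop
  simp only [add_zero, one_pow, sub_self] at h1
  have h2 := (h1.eventually (gt_mem_nhds hε))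
  have h3 : ∀ᶠ t : ℝ in nhdsWithin 0 (Set.Ioi 0), (1 + t) ^ k - 1 < ε := h2.filter_mono nhdsWithin_le_nhds
  obtain ⟨t, ht⟩ := (h3.and self_mem_nhdsWithin).exists
  exact ⟨t, ht.2, ht.1.le⟩

/-! ### the weights -/

lemma wt_close (A C : ℕ) (ε : ℝ) (hε : 0 < ε) : ∃ X0 : ℕ, ∀ X : ℕ, X0 ≤ X → ∀ v : ℕ,
    (X : ℝ) / Real.log X ^ A ≤ v → (v : ℝ) ≤ X * Real.log X ^ C → |wt v - 1 / Real.log X| ≤ ε * (1 / Real.log X) := by
  have hev : ∀ᶠ X : ℕ in atTop, (10000 : ℝ) ≤ Real.log X ∧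
      ((2 * A + 2 * (C + A) / ε)) * Real.log (Real.log X) ^ 1 ≤ Real.log X ^ (1 : ℝ) := by
    filter_upwards [evt_log_ge 10000, evt_ll 1 1 (2 * A + 2 * (C + A) / ε) (by norm_num)] with X a1 a2
    exact ⟨a1, a2⟩
  obtain ⟨X1, hX1⟩ := eventually_atTop.1 hev
  refine ⟨max X1 1, fun X hX v hv1 hv2 => ?_⟩
  obtain ⟨hl, hm⟩ := hX1 X (le_trans (le_max_left _ _) hX)
  have hXp : 1 ≤ X := le_trans (le_max_right _ _) hX
  clear hev hX1 hX
  rw [pow_one, Real.rpow_one] at hm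
  have hXr : (1 : ℝ) ≤ X := by exact_mod_cast hXp
  have hX0 : (0 : ℝ) < X := by linarith
  obtain ⟨l, hlX⟩ : ∃ l, l = Real.log X := ⟨_, rfl⟩
  rw [← hlX] at hl hm hv1 hv2 ⊢
  have hl0 : 0 < l := by linarith
  have hl1 : 1 ≤ l := by linarith
  obtain ⟨m, hml⟩ : ∃ m, m = Real.log l := ⟨_, rfl⟩
  rw [← hml] at hm
  have hm0 : 0 ≤ m := by rw [hml]; exact Real.log_nonneg hl1
  have hvp : (0 : ℝ) < v := lt_of_lt_of_le (by positivity) hv1
  have h1 : l - A * m ≤ Real.log v := by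
    have h2 := Real.log_le_log (by positivity) hv1
    rw [Real.log_div (by positivity) (by positivity), Real.log_pow, ← hlX, ← hml] at h2
    exact h2
  have h2 : Real.log v ≤ l + C * m := by
    have h2 := Real.log_le_log hvp hv2
    rw [Real.log_mul (by positivity) (by positivity), Real.log_pow, ← hlX, ← hml] at h2
    exact h2
  have hC0 : (0 : ℝ) ≤ C := Nat.cast_nonneg _
  have hA0 : (0 : ℝ) ≤ A := Nat.cast_nonneg _
  have h3 : 2 * A * m ≤ l := by
    have h4 : 0 ≤ 2 * (C + A) / ε * m := by positivity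
    have h5 : (2 * A + 2 * (C + A) / ε) * m = 2 * A * m + 2 * (C + A) / ε * m := by ring
    linarith
  have h4 : 2 * (C + A) * m ≤ ε * l := by
    have h5 : (2 * A + 2 * (C + A) / ε) * m = 2 * A * m + 2 * (C + A) / ε * m := by ring
    have h50 : 0 ≤ 2 * A * m := by positivity
    have h6 : 2 * (C + A) / ε * m ≤ l := by linarith
    have h7 : 2 * (C + A) / ε * m * ε ≤ l * ε := mul_le_mul_of_nonneg_right h6 hε.le
    have h8 : 2 * ((C : ℝ) + A) / ε * m * ε = 2 * (C + A) * m := by field_simp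
    linarith
  have h5 : l / 2 ≤ Real.log v := by linarith
  have h6 : 0 < Real.log v := by linarith
  unfold wt
  have e1 : 1 / Real.log v - 1 / l = (l - Real.log v) / (Real.log v * l) := by field_simp
  rw [e1, abs_div, abs_of_pos (show 0 < Real.log v * l by positivity), div_le_iff₀ (by positivity)]
  have h7 : |l - Real.log v| ≤ (C + A) * m := by
    rw [abs_le]
    have c1 : 0 ≤ C * m := by positivity
    have c2 : 0 ≤ A * m := by positivity
    constructor <;> nlinarith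
  calc |l - Real.log v| ≤ (C + A) * m := h7
    _ ≤ ε * (l / 2) := by linarith
    _ ≤ ε * Real.log v := by gcongr
    _ = ε * (1 / l) * (Real.log v * l) := by field_simp

open Classical in
/-- the weights in a window -/
lemma sum_near {k : ℕ} (a : Fin k → ℤ) (m H : ℕ) (κ c ε c0 : ℝ) (x : ℕ → ℝ) (hx : ∀ n, 0 ≤ x n) (hx0 : ∀ n, x n ≤ c0)
    (hc : 0 < c) (hc1 : c ≤ 1) (hε : 0 ≤ ε) (hwt : ∀ n ∈ Ioc m (m + H), (∀ l, κ ≤ (((n : ℤ) ^ 2 + a l).natAbs : ℝ)) →
      |∏ l, wt ((n : ℤ) ^ 2 + a l).natAbs - c| ≤ ε * c) :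
    |∑ n ∈ Ioc m (m + H), x n * ∏ l, wt ((n : ℤ) ^ 2 + a l).natAbs - c * ∑ n ∈ Ioc m (m + H), x n| ≤
      ε * c * ∑ n ∈ Ioc m (m + H), x n + 2 ^ (k + 1) * (nn a m H κ : ℝ) * c0 := by
  have e1 : ε * c * ∑ n ∈ Ioc m (m + H), x n + 2 ^ (k + 1) * (nn a m H κ : ℝ) * c0 =
      ∑ n ∈ Ioc m (m + H), (ε * c * x n + 2 ^ (k + 1) * c0 * (if ∃ l, (((n : ℤ) ^ 2 + a l).natAbs : ℝ) < κ then 1 else 0)) := by
    rw [sum_add_distrib, ← mul_sum, ← mul_sum, sum_boole]
    unfold nn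
    ring
  rw [e1, mul_sum, ← sum_sub_distrib]
  refine (abs_sum_le_sum_abs _ _).trans (sum_le_sum fun n hn => ?_)
  have e2 : x n * ∏ l, wt ((n : ℤ) ^ 2 + a l).natAbs - c * x n = x n * (∏ l, wt ((n : ℤ) ^ 2 + a l).natAbs - c) := by ring
  rw [e2, abs_mul, abs_of_nonneg (hx n)]
  have hc00 : 0 ≤ c0 := (hx n).trans (hx0 n)
  split_ifs with h
  · have h1 : |∏ l, wt ((n : ℤ) ^ 2 + a l).natAbs - c| ≤ 2 ^ (k + 1) := by
      have h2 : 0 ≤ ∏ l, wt ((n : ℤ) ^ 2 + a l).natAbs := prod_nonneg fun l _ => wt_nonneg _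
      have h3 : ∏ l, wt ((n : ℤ) ^ 2 + a l).natAbs ≤ 2 ^ k := by
        calc ∏ l, wt ((n : ℤ) ^ 2 + a l).natAbs ≤ ∏ _l : Fin k, (2 : ℝ) :=
              prod_le_prod (fun l _ => wt_nonneg _) fun l _ => (wt_le' _).trans (by norm_num)
          _ = 2 ^ k := by rw [prod_const, card_univ, Fintype.card_fin]
      have h4 : (1 : ℝ) ≤ 2 ^ k := one_le_pow₀ (by norm_num)
      rw [abs_le, pow_succ]; constructor <;> linarith
    have h2 : x n * |∏ l, wt ((n : ℤ) ^ 2 + a l).natAbs - c| ≤ c0 * 2 ^ (k + 1) :=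
      mul_le_mul (hx0 n) h1 (abs_nonneg _) hc00
    have h3 : 0 ≤ ε * c * x n := by have := hx n; positivity
    linarith
  · push Not at h
    have h1 := mul_le_mul_of_nonneg_left (hwt n hn h) (hx n)
    linarith

/-- the final comparison of real numbers -/
lemma combA (l H h ε V Qz Qw Z W G : ℝ) (hl : 0 < l) (hH0 : 0 ≤ H) (hε : 0 < ε) (hε1 : ε ≤ 1 / 100) (hh : 0 < h)
    (g1 : |G| ≤ ε * (h * (H / l))) (g2 : |Qz - Qw| ≤ ε * (h * (H / l)) * l)
    (hV : |V - h| ≤ ε * h) (hQ : |Qw - H * V| ≤ ε * V * H)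
    (e3 : |Z - 1 / l * Qz| ≤ ε * (1 / l) * Qz + ε * (h * (H / l)))
    (e4 : |W - H / l| ≤ 2 * ε * (H / l)) :
    |G + Z - h * W| ≤ 12 * ε * (h * W) := by
  set q := H / l with hq
  have hq0 : 0 ≤ q := by rw [hq]; positivity
  have hHq : H = q * l := by rw [hq]; field_simp
  have hhq : 0 ≤ h * q := by positivity
  have hV2 := abs_le.1 hV
  have hεh : ε * h ≤ 1 / 100 * h := mul_le_mul_of_nonneg_right hε1 hh.le
  have hV3 : V ≤ 101 / 100 * h := by linarith
  have g3 : |Qz - h * q * l| ≤ 4 * ε * (h * q) * l := by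
    have h1 : Qz - h * q * l = (Qz - Qw) + (Qw - H * V) + (V - h) * H := by rw [hHq]; ring
    rw [h1]
    refine (abs_add_le _ _).trans ?_
    have a2 := abs_add_le (Qz - Qw) (Qw - H * V)
    have a3 : |(V - h) * H| ≤ ε * h * H := by
      rw [abs_mul, abs_of_nonneg hH0]
      exact mul_le_mul_of_nonneg_right hV hH0
    have a4 : ε * V * H ≤ ε * (101 / 100 * h) * H := by gcongr
    have a5 : ε * h * H = ε * (h * q) * l := by rw [hHq]; ring
    have a6 : ε * (101 / 100 * h) * H = 101 / 100 * (ε * (h * q) * l) := by rw [hHq]; ring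
    have a7 : 0 ≤ ε * (h * q) * l := by positivity
    rw [a5] at a3
    rw [a6] at a4
    linarith
  have g4 : Qz ≤ 104 / 100 * (h * q * l) := by
    have h1 := (abs_le.1 g3).2
    have h2 : 4 * ε * (h * q) * l ≤ 4 * (1 / 100) * (h * q) * l := by gcongr
    linarith
  have g5 : |Z - 1 / l * Qz| ≤ 205 / 100 * (ε * (h * q)) := by
    have h1 : ε * (1 / l) * Qz ≤ ε * (1 / l) * (104 / 100 * (h * q * l)) := by gcongr
    have h2 : ε * (1 / l) * (104 / 100 * (h * q * l)) = 104 / 100 * (ε * (h * q)) := by field_simp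
    have h3 : 0 ≤ ε * (h * q) := by positivity
    linarith
  have g6 : |1 / l * Qz - h * q| ≤ 4 * (ε * (h * q)) := by
    have h1 : 1 / l * Qz - h * q = 1 / l * (Qz - h * q * l) := by field_simp
    rw [h1, abs_mul, abs_of_pos (by positivity)]
    calc 1 / l * |Qz - h * q * l| ≤ 1 / l * (4 * ε * (h * q) * l) := by gcongr
      _ = _ := by field_simp
  have g8 : |h * q - h * W| ≤ 2 * (ε * (h * q)) := by
    have h1 : h * q - h * W = -(h * (W - q)) := by ring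
    rw [h1, abs_neg, abs_mul, abs_of_pos hh]
    calc h * |W - q| ≤ h * (2 * ε * q) := by gcongr
      _ = _ := by ring
  have g9 : |G + Z - h * W| ≤ 10 * (ε * (h * q)) := by
    have h1 : G + Z - h * W = G + (Z - 1 / l * Qz) + (1 / l * Qz - h * q) + (h * q - h * W) := by ring
    rw [h1]
    have b1 := abs_add_le (G + (Z - 1 / l * Qz) + (1 / l * Qz - h * q)) (h * q - h * W)
    have b2 := abs_add_le (G + (Z - 1 / l * Qz)) (1 / l * Qz - h * q)
    have b3 := abs_add_le G (Z - 1 / l * Qz)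
    have h3 : 0 ≤ ε * (h * q) := by positivity
    linarith
  have g10 : 98 / 100 * (h * q) ≤ h * W := by
    have h1 := (abs_le.1 g8).2
    have h2 : 2 * (ε * (h * q)) ≤ 2 * (1 / 100 * (h * q)) := by gcongr
    linarith
  refine g9.trans ?_
  have h1 : 12 * ε * (98 / 100 * (h * q)) ≤ 12 * ε * (h * W) := by gcongr
  have h3 : 0 ≤ ε * (h * q) := by positivity
  linarith

end Run7.h285.S
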