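import Pool.Agent.Run7.h285.S.Stm
import Pool.Agent.Run7.h437.CR.HTG

/-!
# HGS (project SYS): the constant of Bateman and Horn for almost all systems `n² + a₁, …, n² + a_k`

For almost all tuples the product converges, the limit is bounded below and is close to the product cut at a
small power of `log X`. The quotient of the factor of the constant of the system and of the factors of the constants
of the single polynomials is `exp (O (1 / p²))`, if `p` divides no difference `a i - a j`, and `exp (O (1 / p))`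
otherwise; for almost all tuples the sum of `1 / p` over the `p > w` dividing a difference is small. For one
polynomial the theorem is `Run7.h437.CR.hg`.
-/

set_option autoImplicit false

namespace Run7.h285.S

open Finset Filter Topology
open Run7.h757.CR (hprod)

namespace HGS

/-! ### sums over the primes in `(w, N]` -/

/-- the primes in `(w, N]` -/
def ps (w N : ℕ) : Finset ℕ := (Ioc w N).filter Nat.Prime

lemma mem_ps {w N p : ℕ} : p ∈ ps w N ↔ (w < p ∧ p ≤ N) ∧ p.Prime := by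
  unfold ps
  rw [mem_filter, mem_Ioc]

lemma sum_inv_sq (w N : ℕ) (hw : 1 ≤ w) : ∑ p ∈ ps w N, 1 / (p : ℝ) ^ 2 ≤ 1 / (w : ℝ) := by
  rcases le_total w N with h | h
  · have h1 := sum_Ioc_inv_sq_le_sub (α := ℝ) (k := w) (n := N) (by omega) h
    calc ∑ p ∈ ps w N, 1 / (p : ℝ) ^ 2 ≤ ∑ p ∈ Ioc w N, 1 / (p : ℝ) ^ 2 :=
          sum_le_sum_of_subset_of_nonneg (filter_subset _ _) (fun _ _ _ => by positivity)
      _ = ∑ p ∈ Ioc w N, ((p : ℝ) ^ 2)⁻¹ := by simp only [one_div]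
      _ ≤ (w : ℝ)⁻¹ - (N : ℝ)⁻¹ := h1
      _ ≤ 1 / w := by
          rw [one_div]
          have : (0 : ℝ) ≤ (N : ℝ)⁻¹ := by positivity
          linarith
  · have : ps w N = ∅ := by
      unfold ps
      rw [Ioc_eq_empty_of_le h, filter_empty]
    rw [this, sum_empty]
    positivity

/-! ### counting in the box -/

lemma card_fix {k : ℕ} (X : ℕ) (i : Fin k) (Q : (Fin k → ℤ) → Prop) [DecidablePred Q] (n : ℕ)
    (h : ∀ b : Fin k → ℤ, #((Icc (-(X : ℤ)) X).filter (fun x : ℤ => Q (Function.update b i x))) ≤ n) :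
    #((Bx k X).filter Q) ≤ n * (2 * X + 1) ^ (k - 1) := by
  classical
  have hc : #(Fintype.piFinset (fun l : Fin k => if l = i then ({0} : Finset ℤ) else Icc (-(X : ℤ)) X)) =
      (2 * X + 1) ^ (k - 1) := by
    rw [Fintype.card_piFinset, ← mul_prod_erase univ _ (mem_univ i), if_pos rfl, card_singleton, one_mul]
    rw [prod_congr rfl (g := fun _ => 2 * X + 1), prod_const, card_erase_of_mem (mem_univ i), card_univ,
      Fintype.card_fin]
    intro l hl
    rw [if_neg (ne_of_mem_erase hl), Int.card_Icc]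
    omega
  rw [← hc]
  apply card_le_mul_card_image_of_maps_to (f := fun a => Function.update a i 0)
  · intro a ha
    rw [mem_filter, Bx, Fintype.mem_piFinset] at ha
    rw [Fintype.mem_piFinset]
    intro l
    by_cases hl : l = i
    · subst hl
      simp
    · rw [if_neg hl]
      simp only [Function.update_of_ne hl]
      exact ha.1 l
  · intro b _
    refine le_trans ?_ (h b)
    have key : ∀ a ∈ ((Bx k X).filter Q).filter (fun a => Function.update a i 0 = b),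
        a = Function.update b i (a i) := by
      intro a ha
      rw [mem_filter] at ha
      rw [← ha.2, Function.update_idem, Function.update_eq_self]
    apply card_le_card_of_injOn (fun a => a i)
    · intro a ha
      have h1 := key a ha
      rw [mem_coe] at ha
      rw [mem_coe, mem_filter]
      rw [mem_filter, mem_filter, Bx, Fintype.mem_piFinset] at ha
      refine ⟨ha.1.1 i, ?_⟩
      rw [← h1]
      exact ha.1.2
    · intro a ha a' ha' he
      rw [key a ha, key a' ha']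
      simp only at he
      rw [he]

lemma card_fix' {k : ℕ} (X : ℕ) (i : Fin k) (Q : (Fin k → ℤ) → Prop) [DecidablePred Q] (n : ℝ)
    (h : ∀ b : Fin k → ℤ, (#((Icc (-(X : ℤ)) X).filter (fun x : ℤ => Q (Function.update b i x))) : ℝ) ≤ n) :
    (#((Bx k X).filter Q) : ℝ) ≤ n * (2 * X + 1) ^ (k - 1) := by
  have hn : 0 ≤ n := le_trans (Nat.cast_nonneg _) (h (fun _ => 0))
  have h1 := card_fix X i Q ⌊n⌋₊ (fun b => Nat.le_floor (h b))
  calc (#((Bx k X).filter Q) : ℝ) ≤ ((⌊n⌋₊ * (2 * X + 1) ^ (k - 1) : ℕ) : ℝ) := by exact_mod_cast h1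
    _ = (⌊n⌋₊ : ℝ) * (2 * X + 1) ^ (k - 1) := by push_cast; ring
    _ ≤ _ := mul_le_mul_of_nonneg_right (Nat.floor_le hn) (by positivity)

lemma card_exists {α ι : Type*} [DecidableEq α] [Fintype ι] (s : Finset α) (Q : ι → α → Prop)
    [∀ i, DecidablePred (Q i)] [DecidablePred fun a => ∃ i, Q i a] (c : ℝ)
    (h : ∀ i, (#(s.filter (Q i)) : ℝ) ≤ c) :
    (#(s.filter (fun a => ∃ i, Q i a)) : ℝ) ≤ Fintype.card ι * c := by
  have h1 : s.filter (fun a => ∃ i, Q i a) = univ.biUnion (fun i => s.filter (Q i)) := by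
    ext a
    simp only [mem_filter, mem_biUnion, mem_univ, true_and]
    constructor
    · rintro ⟨h1, i, h2⟩
      exact ⟨i, h1, h2⟩
    · rintro ⟨i, h1, h2⟩
      exact ⟨h1, i, h2⟩
  rw [h1]
  calc (#(univ.biUnion (fun i => s.filter (Q i))) : ℝ) ≤ ((∑ i : ι, #(s.filter (Q i)) : ℕ) : ℝ) := by
        exact_mod_cast card_biUnion_le
    _ = ∑ i : ι, (#(s.filter (Q i)) : ℝ) := by push_cast; rfl
    _ ≤ ∑ _i : ι, c := sum_le_sum fun i _ => h i
    _ = Fintype.card ι * c := by rw [sum_const, card_univ, nsmul_eq_mul]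

lemma card_class (X p : ℕ) (hp : 1 ≤ p) (v : ℤ) :
    (#((Icc (-(X : ℤ)) X).filter (fun x : ℤ => (p : ℤ) ∣ x - v)) : ℝ) ≤ (2 * X + 1) / p + 1 := by
  have h0 : (0 : ℤ) < p := by exact_mod_cast hp
  have h1 := Int.Ioc_filter_modEq_card (-(X : ℤ) - 1) X h0 v
  have h2 : (Icc (-(X : ℤ)) X).filter (fun x : ℤ => (p : ℤ) ∣ x - v) =
      (Ioc (-(X : ℤ) - 1) X).filter (fun x : ℤ => x ≡ v [ZMOD p]) := by
    ext x
    rw [mem_filter, mem_filter, mem_Icc, mem_Ioc, Int.modEq_comm, Int.modEq_iff_dvd]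
    constructor
    · rintro ⟨⟨a, b⟩, c⟩; exact ⟨⟨by omega, b⟩, c⟩
    · rintro ⟨⟨a, b⟩, c⟩; exact ⟨⟨by omega, b⟩, c⟩
  rw [h2]
  have hpq : (0 : ℚ) < p := by exact_mod_cast hp
  have h3 : (((#((Ioc (-(X : ℤ) - 1) X).filter (fun x : ℤ => x ≡ v [ZMOD p])) : ℕ) : ℤ) : ℚ) ≤
      (2 * X + 1) / p + 1 := by
    rw [h1]
    have e1 := Int.floor_le (((X : ℤ) - v : ℚ) / ((p : ℤ) : ℚ))
    have e2 := Int.lt_floor_add_one (((-(X : ℤ) - 1 : ℤ) - v : ℚ) / ((p : ℤ) : ℚ))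
    rw [Int.cast_max, Int.cast_zero]
    apply max_le
    · push_cast at e1 e2 ⊢
      have e3 : ((X : ℚ) - v) / p - ((-X - 1) - v) / p = (2 * X + 1) / p := by ring
      linarith
    · positivity
  have h4 : ((#((Ioc (-(X : ℤ) - 1) X).filter (fun x : ℤ => x ≡ v [ZMOD p])) : ℚ) : ℝ) ≤
      (((2 * X + 1) / p + 1 : ℚ) : ℝ) := by
    rw [Rat.cast_le]
    exact_mod_cast h3
  push_cast at h4
  exact_mod_cast h4

/-- few tuples have a pair whose difference is divisible by many primes -/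
lemma count_tail {k : ℕ} (X w Y : ℕ) (hw : 1 ≤ w) (hY : Y ≤ X) (i j : Fin k) (hij : i ≠ j) (τ : ℝ) (hτ : 0 < τ) :
    (#((Bx k X).filter (fun a => τ < ∑ p ∈ (ps w Y).filter (fun p : ℕ => (p : ℤ) ∣ a i - a j), 1 / (p : ℝ))) : ℝ) ≤
      4 * X * (2 * X + 1) ^ (k - 1) / (w * τ) := by
  classical
  set S := (Bx k X).filter (fun a => τ < ∑ p ∈ (ps w Y).filter (fun p : ℕ => (p : ℤ) ∣ a i - a j), 1 / (p : ℝ))
    with hS
  have hw0 : (0 : ℝ) < w := by exact_mod_cast hw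
  have h1 : τ * #S ≤ ∑ a ∈ S, ∑ p ∈ (ps w Y).filter (fun p : ℕ => (p : ℤ) ∣ a i - a j), 1 / (p : ℝ) := by
    rw [mul_comm, ← nsmul_eq_mul]
    apply card_nsmul_le_sum
    intro a ha
    exact (mem_filter.1 ha).2.le
  have h2 : ∑ a ∈ S, ∑ p ∈ (ps w Y).filter (fun p : ℕ => (p : ℤ) ∣ a i - a j), 1 / (p : ℝ) ≤
      ∑ a ∈ Bx k X, ∑ p ∈ (ps w Y).filter (fun p : ℕ => (p : ℤ) ∣ a i - a j), 1 / (p : ℝ) :=
    sum_le_sum_of_subset_of_nonneg (filter_subset _ _) (fun _ _ _ => sum_nonneg fun _ _ => by positivity)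
  have h3 : ∑ a ∈ Bx k X, ∑ p ∈ (ps w Y).filter (fun p : ℕ => (p : ℤ) ∣ a i - a j), 1 / (p : ℝ) =
      ∑ p ∈ ps w Y, 1 / (p : ℝ) * #((Bx k X).filter (fun a => (p : ℤ) ∣ a i - a j)) := by
    simp only [sum_filter]
    rw [sum_comm]
    apply sum_congr rfl
    intro p _
    rw [← sum_filter, sum_const, nsmul_eq_mul, mul_comm]
  have h4 : ∑ p ∈ ps w Y, 1 / (p : ℝ) * #((Bx k X).filter (fun a => (p : ℤ) ∣ a i - a j)) ≤
      ∑ p ∈ ps w Y, 4 * X * (2 * X + 1) ^ (k - 1) * (1 / (p : ℝ) ^ 2) := by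
    apply sum_le_sum
    intro p hp
    obtain ⟨⟨_, hp2⟩, hp3⟩ := mem_ps.1 hp
    have hp1 : (1 : ℝ) ≤ p := by exact_mod_cast hp3.one_lt.le
    have hp0 : (0 : ℝ) < p := by linarith
    have hpX : (p : ℝ) ≤ X := by exact_mod_cast hp2.trans hY
    have e1 := card_fix' X i (fun a => (p : ℤ) ∣ a i - a j) ((2 * X + 1) / p + 1) (by
      intro b
      simp only [Function.update_self, Function.update_of_ne hij.symm]
      exact card_class X p hp3.one_lt.le (b j))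
    have e2 : ((2 * X + 1 : ℝ) / p + 1) ≤ 4 * X / p := by
      rw [div_add_one hp0.ne', div_le_div_iff_of_pos_right hp0]
      linarith
    calc 1 / (p : ℝ) * #((Bx k X).filter (fun a => (p : ℤ) ∣ a i - a j))
        ≤ 1 / (p : ℝ) * ((4 * X / p) * (2 * X + 1) ^ (k - 1)) := by
          apply mul_le_mul_of_nonneg_left _ (by positivity)
          exact e1.trans (mul_le_mul_of_nonneg_right e2 (by positivity))
      _ = _ := by field_simp
  rw [← mul_sum] at h4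
  have h5 := mul_le_mul_of_nonneg_left (sum_inv_sq w Y hw)
    (show (0 : ℝ) ≤ 4 * X * (2 * X + 1) ^ (k - 1) by positivity)
  rw [le_div_iff₀ (by positivity)]
  have h6 : τ * #S ≤ 4 * X * (2 * X + 1) ^ (k - 1) * (1 / w) := by
    rw [h3] at h2
    linarith
  rw [mul_one_div, le_div_iff₀ hw0] at h6
  linarith

lemma sum_far (d : ℤ) (hd : d ≠ 0) (Y N : ℕ) (hY : 1 ≤ Y) :
    ∑ p ∈ (ps Y N).filter (fun p : ℕ => (p : ℤ) ∣ d), 1 / (p : ℝ) ≤ (Nat.log 2 d.natAbs : ℝ) / Y := by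
  have hY0 : (0 : ℝ) < Y := by exact_mod_cast hY
  have h1 : #((ps Y N).filter (fun p : ℕ => (p : ℤ) ∣ d)) ≤ Nat.log 2 d.natAbs := by
    have hq' : d.natAbs ≠ 0 := Int.natAbs_ne_zero.2 hd
    apply Nat.le_log_of_pow_le (by norm_num)
    set T := (ps Y N).filter (fun p : ℕ => (p : ℤ) ∣ d) with hT
    have hTp : ∀ p ∈ T, p.Prime := fun p hp => (mem_ps.1 (mem_filter.1 hp).1).2
    have h1 : ∏ p ∈ T, p ∣ d.natAbs := by
      apply Finset.prod_primes_dvd
      · intro p hp; exact (hTp p hp).prime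
      · intro p hp
        exact Int.natCast_dvd.1 (mem_filter.1 hp).2
    calc 2 ^ #T = ∏ _p ∈ T, 2 := by rw [prod_const]
      _ ≤ ∏ p ∈ T, p := prod_le_prod' fun p hp => (hTp p hp).two_le
      _ ≤ d.natAbs := Nat.le_of_dvd (Nat.pos_of_ne_zero hq') h1
  calc ∑ p ∈ (ps Y N).filter (fun p : ℕ => (p : ℤ) ∣ d), 1 / (p : ℝ)
      ≤ ∑ _p ∈ (ps Y N).filter (fun p : ℕ => (p : ℤ) ∣ d), 1 / (Y : ℝ) := by
        apply sum_le_sum
        intro p hp
        have := (mem_ps.1 (mem_filter.1 hp).1).1.1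
        apply one_div_le_one_div_of_le hY0
        exact_mod_cast this.le
    _ = #((ps Y N).filter (fun p : ℕ => (p : ℤ) ∣ d)) * (1 / (Y : ℝ)) := by rw [sum_const, nsmul_eq_mul]
    _ ≤ Nat.log 2 d.natAbs * (1 / (Y : ℝ)) := mul_le_mul_of_nonneg_right (by exact_mod_cast h1) (by positivity)
    _ = _ := by ring

lemma sum_split (Q : ℕ → Prop) [DecidablePred Q] (w Y N : ℕ) :
    ∑ p ∈ (ps w N).filter Q, 1 / (p : ℝ) ≤
      ∑ p ∈ (ps w Y).filter Q, 1 / (p : ℝ) + ∑ p ∈ (ps Y N).filter Q, 1 / (p : ℝ) := by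
  classical
  have h1 : (ps w N).filter Q ⊆ (ps w Y).filter Q ∪ (ps Y N).filter Q := by
    intro p hp
    rw [mem_filter, mem_ps] at hp
    rw [mem_union, mem_filter, mem_filter, mem_ps, mem_ps]
    rcases le_or_gt p Y with h | h
    · left; exact ⟨⟨⟨hp.1.1.1, h⟩, hp.1.2⟩, hp.2⟩
    · right; exact ⟨⟨⟨h, hp.1.1.2⟩, hp.1.2⟩, hp.2⟩
  refine (sum_le_sum_of_subset_of_nonneg h1 (fun _ _ _ => by positivity)).trans ?_
  rw [← sum_union_inter]
  have : 0 ≤ ∑ p ∈ (ps w Y).filter Q ∩ (ps Y N).filter Q, 1 / (p : ℝ) := sum_nonneg fun _ _ => by positivity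
  linarith

/-! ### the number of residues -/

/-- the residues at which `x ^ 2 + c` vanishes modulo `p` -/
noncomputable def rt (c : ℤ) (p : ℕ) : Finset ℕ := (range p).filter (fun x : ℕ => (p : ℤ) ∣ (x : ℤ) ^ 2 + c)

lemma nu_eq {k : ℕ} (a : Fin k → ℤ) (p : ℕ) : nu a p = #(univ.biUnion fun l => rt (a l) p) := by
  classical
  unfold nu rt
  congr 1
  ext x
  simp only [mem_filter, mem_biUnion, mem_univ, true_and]
  constructor
  · rintro ⟨h1, l, h2⟩; exact ⟨l, h1, h2⟩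
  · rintro ⟨l, h1, h2⟩; exact ⟨h1, l, h2⟩

lemma nu_le {k : ℕ} (a : Fin k → ℤ) (p : ℕ) : (nu a p : ℝ) ≤ ∑ l, (#(rt (a l) p) : ℝ) := by
  rw [nu_eq]
  exact_mod_cast card_biUnion_le

lemma nu_disj {k : ℕ} (a : Fin k → ℤ) (p : ℕ) (h : ¬ ∃ i j, i ≠ j ∧ (p : ℤ) ∣ a i - a j) :
    (nu a p : ℝ) = ∑ l, (#(rt (a l) p) : ℝ) := by
  rw [nu_eq, card_biUnion]
  · push_cast; rfl
  · intro i _ j _ hij
    change Disjoint (rt (a i) p) (rt (a j) p)
    rw [Finset.disjoint_left]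
    intro x hx hx'
    apply h
    refine ⟨i, j, hij, ?_⟩
    unfold rt at hx hx'
    rw [mem_filter] at hx hx'
    have := dvd_sub hx.2 hx'.2
    rwa [add_sub_add_left_eq_sub] at this

/-! ### the quotient of the factors -/

/-- logarithm of the quotient of the factors -/
noncomputable def rr {k : ℕ} (a : Fin k → ℤ) (p : ℕ) : ℝ :=
  Real.log (1 - (nu a p : ℝ) / p) - ∑ l, Real.log (1 - (#(rt (a l) p) : ℝ) / p)

lemma log_low (x : ℝ) (h0 : 0 ≤ x) (h1 : x ≤ 1 / 2) : -x - 2 * x ^ 2 ≤ Real.log (1 - x) := by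
  have h2 : 0 < 1 - x := by linarith
  have h3 := Real.one_sub_inv_le_log_of_pos h2
  refine le_trans ?_ h3
  have h4 : (1 - x)⁻¹ ≤ 1 + x + 2 * x ^ 2 := by
    rw [inv_le_iff_one_le_mul₀ h2]
    nlinarith [mul_nonneg h0 h0, mul_nonneg (mul_nonneg h0 h0) (by linarith : 0 ≤ 1 - 2 * x)]
  linarith

lemma log_up (x : ℝ) (h1 : x < 1) : Real.log (1 - x) ≤ -x := by
  have := Real.log_le_sub_one_of_pos (by linarith : 0 < 1 - x)
  linarith

open Classical in
lemma rr_bound {k : ℕ} (a : Fin k → ℤ) (p : ℕ) (hp : 4 * k + 4 ≤ p) (hr : ∀ l, (#(rt (a l) p) : ℝ) ≤ 2) :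
    |rr a p| ≤ 8 * (k : ℝ) ^ 2 / (p : ℝ) ^ 2 +
      (if ∃ i j, i ≠ j ∧ (p : ℤ) ∣ a i - a j then 2 * (k : ℝ) / p else 0) := by
  have hpr : (4 : ℝ) * k + 4 ≤ p := by exact_mod_cast hp
  have hk0 : (0 : ℝ) ≤ k := Nat.cast_nonneg _
  have hp0 : (0 : ℝ) < p := by linarith
  have hn := nu_le a p
  have hs : ∑ l, (#(rt (a l) p) : ℝ) ≤ 2 * k := by
    calc ∑ l, (#(rt (a l) p) : ℝ) ≤ ∑ _l : Fin k, (2 : ℝ) := sum_le_sum fun l _ => hr l
      _ = 2 * k := by rw [sum_const, card_univ, Fintype.card_fin, nsmul_eq_mul]; ring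
  have hn0 : (0 : ℝ) ≤ nu a p := Nat.cast_nonneg _
  have hr0 : ∀ l, (0 : ℝ) ≤ (#(rt (a l) p) : ℝ) := fun l => Nat.cast_nonneg _
  have hx : ∀ l, 0 ≤ (#(rt (a l) p) : ℝ) / p ∧ (#(rt (a l) p) : ℝ) / p ≤ 1 / 2 := by
    intro l
    refine ⟨div_nonneg (hr0 l) hp0.le, ?_⟩
    rw [div_le_iff₀ hp0]
    have := hr l
    linarith
  have hx2 : ∀ l, ((#(rt (a l) p) : ℝ) / p) ^ 2 ≤ 4 / (p : ℝ) ^ 2 := by
    intro l
    rw [div_pow]
    apply div_le_div_of_nonneg_right _ (by positivity)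
    nlinarith [hr l, hr0 l]
  set s := ∑ l, (#(rt (a l) p) : ℝ) with hsd
  have hs0 : 0 ≤ s := sum_nonneg fun l _ => hr0 l
  have hsp : s / p ≤ 1 / 2 := by rw [div_le_iff₀ hp0]; linarith
  have hsp0 : 0 ≤ s / p := div_nonneg hs0 hp0.le
  have hnp : (nu a p : ℝ) / p ≤ s / p := div_le_div_of_nonneg_right hn hp0.le
  have hsum : ∑ l, (#(rt (a l) p) : ℝ) / p = s / p := (sum_div _ _ _).symm
  have hL1 : -(s / p) - 2 * (s / p) ^ 2 ≤ Real.log (1 - (nu a p : ℝ) / p) := by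
    refine (log_low _ hsp0 hsp).trans ?_
    apply Real.log_le_log (by linarith)
    linarith
  have hL2 : ∑ l, Real.log (1 - (#(rt (a l) p) : ℝ) / p) ≤ -(s / p) := by
    rw [← hsum, ← sum_neg_distrib]
    apply sum_le_sum
    intro l _
    exact log_up _ (by linarith [(hx l).2])
  have hU1 : Real.log (1 - (nu a p : ℝ) / p) ≤ -((nu a p : ℝ) / p) := log_up _ (by linarith)
  have hU2 : -(s / p) - 8 * k / (p : ℝ) ^ 2 ≤ ∑ l, Real.log (1 - (#(rt (a l) p) : ℝ) / p) := by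
    have h1 : ∑ l, (-((#(rt (a l) p) : ℝ) / p) - 2 * (4 / (p : ℝ) ^ 2)) ≤
        ∑ l, Real.log (1 - (#(rt (a l) p) : ℝ) / p) := by
      apply sum_le_sum
      intro l _
      have h2 := log_low _ (hx l).1 (hx l).2
      have h3 := hx2 l
      linarith
    rw [sum_sub_distrib, sum_neg_distrib, hsum, sum_const, card_univ, Fintype.card_fin, nsmul_eq_mul] at h1
    have h4 : (k : ℝ) * (2 * (4 / (p : ℝ) ^ 2)) = 8 * k / (p : ℝ) ^ 2 := by ring
    linarith
  have hsq : 2 * (s / p) ^ 2 ≤ 8 * (k : ℝ) ^ 2 / (p : ℝ) ^ 2 := by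
    rw [div_pow, mul_div_assoc']
    apply div_le_div_of_nonneg_right _ (by positivity)
    nlinarith
  have hkk : 8 * (k : ℝ) / (p : ℝ) ^ 2 ≤ 8 * (k : ℝ) ^ 2 / (p : ℝ) ^ 2 := by
    apply div_le_div_of_nonneg_right _ (by positivity)
    have : (k : ℝ) ≤ (k : ℝ) ^ 2 := by exact_mod_cast Nat.le_self_pow two_ne_zero k
    linarith
  have hc : s / p - (nu a p : ℝ) / p ≤ (if ∃ i j, i ≠ j ∧ (p : ℤ) ∣ a i - a j then 2 * (k : ℝ) / p else 0) := by
    split_ifs with h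
    · rw [← sub_div]
      apply div_le_div_of_nonneg_right _ hp0.le
      linarith
    · rw [nu_disj a p h, sub_self]
  have hc0 : 0 ≤ (if ∃ i j, i ≠ j ∧ (p : ℤ) ∣ a i - a j then 2 * (k : ℝ) / p else 0) := by
    split_ifs
    · positivity
    · exact le_rfl
  unfold rr
  rw [abs_le]
  constructor
  · linarith
  · linarith

/-! ### the limit -/

lemma hprod_pos (c : ℤ) (N : ℕ) : 0 < hprod c N := by
  unfold hprod
  apply prod_pos
  intro p hp
  rw [mem_filter] at hp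
  have h3 : (3 : ℝ) ≤ p := by
    have h1 := hp.2.1.two_le
    have h2 := hp.2.2
    exact_mod_cast (by omega : 3 ≤ p)
  have h4 := (abs_le.1 (Pool.Agent.TH892.SW.js_le (-c) p)).2
  rw [sub_pos, div_lt_one (by linarith)]
  linarith

lemma hprod_le (c : ℤ) (N : ℕ) : hprod c N ≤ 2 ^ (N + 1) := by
  unfold hprod
  have h1 : ∏ w ∈ (range (N + 1)).filter (fun w => Nat.Prime w ∧ w ≠ 2),
      (1 - (jacobiSym (-c) w : ℝ) / ((w : ℝ) - 1)) ≤
      ∏ _w ∈ (range (N + 1)).filter (fun w => Nat.Prime w ∧ w ≠ 2), (2 : ℝ) := by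
    apply Finset.prod_le_prod
    · intro p hp
      rw [mem_filter] at hp
      have h3 : (3 : ℝ) ≤ p := by
        have h1 := hp.2.1.two_le
        have h2 := hp.2.2
        exact_mod_cast (by omega : 3 ≤ p)
      have h4 := (abs_le.1 (Pool.Agent.TH892.SW.js_le (-c) p)).2
      rw [sub_nonneg, div_le_one (by linarith)]
      linarith
    · intro p hp
      rw [mem_filter] at hp
      have h3 : (3 : ℝ) ≤ p := by
        have h1 := hp.2.1.two_le
        have h2 := hp.2.2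
        exact_mod_cast (by omega : 3 ≤ p)
      have h4 := (abs_le.1 (Pool.Agent.TH892.SW.js_le (-c) p)).1
      have h5 : -1 ≤ (jacobiSym (-c) p : ℝ) / ((p : ℝ) - 1) := by
        rw [le_div_iff₀ (by linarith)]
        linarith
      linarith
  refine h1.trans ?_
  rw [prod_const]
  apply pow_le_pow_right₀ (by norm_num)
  refine (card_filter_le _ _).trans ?_
  rw [card_range]

lemma SS_ge {k : ℕ} (a : Fin k → ℤ) (ha : Adm a) (N : ℕ) : (1 / ((N : ℝ) + 1)) ^ (N + 1) ≤ SS a N := by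
  unfold SS
  have hN : (0 : ℝ) < (N : ℝ) + 1 := by positivity
  have h1 : ∏ _p ∈ (range (N + 1)).filter Nat.Prime, (1 / ((N : ℝ) + 1)) ≤
      ∏ p ∈ (range (N + 1)).filter Nat.Prime, (1 - (nu a p : ℝ) / p) / (1 - 1 / (p : ℝ)) ^ k := by
    apply Finset.prod_le_prod
    · intro p _; positivity
    · intro p hp
      rw [mem_filter, mem_range] at hp
      have h2 : (2 : ℝ) ≤ p := by exact_mod_cast hp.2.two_le
      have h3 : (nu a p : ℝ) + 1 ≤ p := by exact_mod_cast ha p hp.2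
      have h4 : 1 / (p : ℝ) ≤ 1 - (nu a p : ℝ) / p := by
        rw [← sub_nonneg]
        have : 1 - (nu a p : ℝ) / p - 1 / p = (p - (nu a p + 1)) / p := by field_simp; ring
        rw [this]
        apply div_nonneg <;> linarith
      have h5 : 0 < 1 - 1 / (p : ℝ) := by
        rw [sub_pos, div_lt_one (by linarith)]; linarith
      have h6 : (1 - 1 / (p : ℝ)) ^ k ≤ 1 := by
        apply pow_le_one₀ h5.le
        have : (0 : ℝ) ≤ 1 / p := by positivity
        linarith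
      have h7 : 1 / ((N : ℝ) + 1) ≤ 1 / p := by
        apply one_div_le_one_div_of_le (by linarith)
        exact_mod_cast hp.1.le
      rw [le_div_iff₀ (pow_pos h5 k)]
      calc 1 / ((N : ℝ) + 1) * (1 - 1 / (p : ℝ)) ^ k ≤ 1 / ((N : ℝ) + 1) * 1 :=
            mul_le_mul_of_nonneg_left h6 (by positivity)
        _ ≤ _ := by linarith
  refine le_trans ?_ h1
  rw [prod_const]
  apply pow_le_pow_of_le_one (by positivity)
  · rw [div_le_one hN]
    have : (0 : ℝ) ≤ N := Nat.cast_nonneg _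
    linarith
  · refine (card_filter_le _ _).trans ?_
    rw [card_range]

lemma primes_split (w N : ℕ) (h : w ≤ N) :
    (range (N + 1)).filter Nat.Prime = (range (w + 1)).filter Nat.Prime ∪ ps w N := by
  ext p
  rw [mem_union, mem_filter, mem_filter, mem_ps, mem_range, mem_range]
  constructor
  · rintro ⟨h1, h2⟩
    rcases Nat.lt_or_ge w p with h3 | h3
    · right; exact ⟨⟨h3, by omega⟩, h2⟩
    · left; exact ⟨by omega, h2⟩
  · rintro (⟨h1, h2⟩ | ⟨⟨h1, h2⟩, h3⟩)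
    · exact ⟨by omega, h2⟩
    · exact ⟨by omega, h3⟩

lemma disj_ps (w N : ℕ) : Disjoint ((range (w + 1)).filter Nat.Prime) (ps w N) := by
  rw [Finset.disjoint_left]
  intro p hp hp'
  rw [mem_filter, mem_range] at hp
  rw [mem_ps] at hp'
  omega

lemma hprod_split (c : ℤ) (w N : ℕ) (hw : 2 ≤ w) (h : w ≤ N) :
    hprod c N = hprod c w * ∏ p ∈ ps w N, (1 - (jacobiSym (-c) p : ℝ) / ((p : ℝ) - 1)) := by
  unfold hprod
  rw [← filter_filter, ← filter_filter, primes_split w N h, filter_union, prod_union]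
  · congr 1
    rw [filter_true_of_mem]
    intro p hp
    rw [mem_ps] at hp
    omega
  · exact disjoint_filter_filter (disj_ps w N)

lemma SS_split {k : ℕ} (a : Fin k → ℤ) (w N : ℕ) (h : w ≤ N) :
    SS a N = SS a w * ∏ p ∈ ps w N, (1 - (nu a p : ℝ) / p) / (1 - 1 / (p : ℝ)) ^ k := by
  unfold SS
  rw [primes_split w N h, prod_union (disj_ps w N)]

lemma rt_card (p : ℕ) (hp : p.Prime) (hp2 : p ≠ 2) (c : ℤ) : (#(rt c p) : ℝ) = 1 + (jacobiSym (-c) p : ℝ) := by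
  have h := Pool.Agent.TH892.SW.root_card p hp 0 (-c)
  rw [if_neg hp2] at h
  rw [← h]
  unfold rt
  simp only [zero_add, sub_neg_eq_add]

lemma rt_le (p : ℕ) (hp : p.Prime) (hp2 : p ≠ 2) (c : ℤ) : (#(rt c p) : ℝ) ≤ 2 := by
  rw [rt_card p hp hp2]
  have := (abs_le.1 (Pool.Agent.TH892.SW.js_le (-c) p)).2
  linarith

lemma fac_eq {k : ℕ} (a : Fin k → ℤ) (p : ℕ) (hp : p.Prime) (hpk : 4 * k + 4 ≤ p) :
    (1 - (nu a p : ℝ) / p) / (1 - 1 / (p : ℝ)) ^ k =
      (∏ l, (1 - (jacobiSym (-(a l)) p : ℝ) / ((p : ℝ) - 1))) * Real.exp (rr a p) := by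
  have hp2 : p ≠ 2 := by omega
  have hpr : (4 : ℝ) * k + 4 ≤ p := by exact_mod_cast hpk
  have hk0 : (0 : ℝ) ≤ k := Nat.cast_nonneg _
  have hp0 : (0 : ℝ) < p := by linarith
  have hr := fun l => rt_le p hp hp2 (a l)
  have hn := nu_le a p
  have hs : ∑ l, (#(rt (a l) p) : ℝ) ≤ 2 * k := by
    calc ∑ l, (#(rt (a l) p) : ℝ) ≤ ∑ _l : Fin k, (2 : ℝ) := sum_le_sum fun l _ => hr l
      _ = 2 * k := by rw [sum_const, card_univ, Fintype.card_fin, nsmul_eq_mul]; ring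
  have h1 : 0 < 1 - (nu a p : ℝ) / p := by
    rw [sub_pos, div_lt_one hp0]; linarith
  have h2 : ∀ l, 0 < 1 - (#(rt (a l) p) : ℝ) / p := by
    intro l
    rw [sub_pos, div_lt_one hp0]
    have := hr l
    linarith
  have h3 : ∀ l, (1 - (jacobiSym (-(a l)) p : ℝ) / ((p : ℝ) - 1)) =
      (1 - (#(rt (a l) p) : ℝ) / p) / (1 - 1 / (p : ℝ)) := by
    intro l
    rw [rt_card p hp hp2]
    have e1 : (p : ℝ) - 1 ≠ 0 := by linarith
    have e2 : (1 : ℝ) - 1 / p ≠ 0 := by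
      rw [one_sub_div hp0.ne']
      exact div_ne_zero e1 hp0.ne'
    field_simp
    ring
  have h4 : Real.exp (rr a p) = (1 - (nu a p : ℝ) / p) / ∏ l, (1 - (#(rt (a l) p) : ℝ) / p) := by
    unfold rr
    rw [Real.exp_sub, Real.exp_log h1, Real.exp_sum]
    congr 1
    apply prod_congr rfl
    intro l _
    exact Real.exp_log (h2 l)
  rw [h4, prod_congr rfl (fun l _ => h3 l), prod_div_distrib, prod_const, card_univ, Fintype.card_fin]
  have h5 : ∏ l, (1 - (#(rt (a l) p) : ℝ) / p) ≠ 0 := (prod_pos fun l _ => h2 l).ne'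
  generalize ∏ l, (1 - (#(rt (a l) p) : ℝ) / p) = Q at *
  generalize (1 - 1 / (p : ℝ)) ^ k = V at *
  rw [div_mul_div_comm, mul_comm Q, mul_div_mul_right _ _ h5]

lemma SS_eq {k : ℕ} (a : Fin k → ℤ) (w N : ℕ) (hw : 4 * k + 4 ≤ w) (h : w ≤ N) :
    SS a N = SS a w * (∏ l, hprod (a l) N / hprod (a l) w) * Real.exp (∑ p ∈ ps w N, rr a p) := by
  rw [SS_split a w N h, prod_congr rfl (fun p hp => fac_eq a p (mem_ps.1 hp).2 (by
    have := (mem_ps.1 hp).1.1
    omega)), prod_mul_distrib, Finset.prod_comm, ← Real.exp_sum, mul_assoc]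
  congr 2
  apply prod_congr rfl
  intro l _
  rw [hprod_split (a l) w N (by omega) h, mul_div_cancel_left₀ _ (hprod_pos (a l) w).ne']

open Classical in
lemma key {k : ℕ} (a : Fin k → ℤ) (w : ℕ) (hw : 4 * k + 4 ≤ w) (h : Fin k → ℝ)
    (hlim : ∀ l, Tendsto (fun N : ℕ => hprod (a l) N) atTop (𝓝 (h l))) (T : ℝ)
    (hT : ∀ N, ∑ p ∈ (ps w N).filter (fun p : ℕ => ∃ i j, i ≠ j ∧ (p : ℤ) ∣ a i - a j), 1 / (p : ℝ) ≤ T) :
    ∃ t : ℝ, |t| ≤ 8 * (k : ℝ) ^ 2 / w + 2 * k * T ∧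
      Tendsto (fun N : ℕ => SS a N) atTop (𝓝 (SS a w * (∏ l, h l / hprod (a l) w) * Real.exp t)) := by
  have hw0 : (0 : ℝ) < w := by exact_mod_cast (by omega : 0 < w)
  have hk0 : (0 : ℝ) ≤ k := Nat.cast_nonneg _
  have hT0 : 0 ≤ T := le_trans (sum_nonneg fun _ _ => by positivity) (hT 0)
  set f : ℕ → ℝ := fun p => if w < p ∧ p.Prime then rr a p else 0 with hf
  have hsum : ∀ (g : ℕ → ℝ) (N : ℕ), ∑ p ∈ range (N + 1), (if w < p ∧ p.Prime then g p else 0) = ∑ p ∈ ps w N, g p := by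
    intro g N
    rw [← sum_filter]
    apply sum_congr _ fun _ _ => rfl
    ext p
    rw [mem_filter, mem_ps, mem_range]
    constructor
    · rintro ⟨h1, h2, h3⟩; exact ⟨⟨h2, by omega⟩, h3⟩
    · rintro ⟨⟨h1, h2⟩, h3⟩; exact ⟨by omega, h1, h3⟩
  have hfabs : ∀ p, |f p| = if w < p ∧ p.Prime then |rr a p| else 0 := by
    intro p
    simp only [hf]
    split_ifs
    · rfl
    · exact abs_zero
  have hbd : ∀ N, ∑ p ∈ ps w N, |rr a p| ≤ 8 * (k : ℝ) ^ 2 / w + 2 * k * T := by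
    intro N
    calc ∑ p ∈ ps w N, |rr a p| ≤ ∑ p ∈ ps w N, (8 * (k : ℝ) ^ 2 * (1 / (p : ℝ) ^ 2) +
          (if ∃ i j, i ≠ j ∧ (p : ℤ) ∣ a i - a j then 2 * (k : ℝ) * (1 / p) else 0)) := by
          apply sum_le_sum
          intro p hp
          obtain ⟨⟨h1, _⟩, h2⟩ := mem_ps.1 hp
          have h3 := rr_bound a p (by omega) (fun l => rt_le p h2 (by omega) (a l))
          rw [mul_one_div, mul_one_div]
          exact h3
      _ = 8 * (k : ℝ) ^ 2 * ∑ p ∈ ps w N, 1 / (p : ℝ) ^ 2 + 2 * k *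
          ∑ p ∈ (ps w N).filter (fun p : ℕ => ∃ i j, i ≠ j ∧ (p : ℤ) ∣ a i - a j), 1 / (p : ℝ) := by
          rw [sum_add_distrib, ← mul_sum, ← sum_filter, ← mul_sum]
      _ ≤ 8 * (k : ℝ) ^ 2 * (1 / w) + 2 * k * T :=
          add_le_add (mul_le_mul_of_nonneg_left (sum_inv_sq w N (by omega)) (by positivity))
            (mul_le_mul_of_nonneg_left (hT N) (by positivity))
      _ = _ := by ring
  have hrange : ∀ n, ∑ p ∈ range n, |f p| ≤ 8 * (k : ℝ) ^ 2 / w + 2 * k * T := by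
    intro n
    rcases n with _ | N
    · rw [sum_range_zero]; positivity
    · simp only [hfabs]
      rw [hsum]
      exact hbd N
  have hsm : Summable (fun p => |f p|) := summable_of_sum_range_le (fun _ => abs_nonneg _) hrange
  have hsm' : Summable f := hsm.of_abs
  refine ⟨∑' p, f p, ?_, ?_⟩
  · have h1 : |∑' p, f p| ≤ ∑' p, |f p| := by
      have := norm_tsum_le_tsum_norm (f := f) (by simpa only [Real.norm_eq_abs] using hsm)
      simpa only [Real.norm_eq_abs] using this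
    exact h1.trans (Real.tsum_le_of_sum_range_le (fun _ => abs_nonneg _) hrange)
  · have h1 : Tendsto (fun N : ℕ => ∑ p ∈ ps w N, rr a p) atTop (𝓝 (∑' p, f p)) := by
      have h2 := (hsm'.hasSum.tendsto_sum_nat).comp (tendsto_add_atTop_nat 1)
      refine h2.congr fun N => ?_
      simp only [Function.comp, hf]
      exact hsum _ N
    have h3 : Tendsto (fun N : ℕ => ∏ l, hprod (a l) N / hprod (a l) w) atTop
        (𝓝 (∏ l, h l / hprod (a l) w)) :=
      tendsto_finsetProd _ fun l _ => (hlim l).div_const _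
    have h4 := ((h3.const_mul (SS a w)).mul ((Real.continuous_exp.tendsto _).comp h1))
    refine h4.congr' ?_
    filter_upwards [eventually_ge_atTop w] with N hN
    exact (SS_eq a w N hw hN).symm

/-! ### the bad tuples -/

lemma far_bound (X : ℕ) (hL : 2 ≤ Real.log X) (d : ℤ) (hd : d ≠ 0) (hd2 : d.natAbs ≤ 2 * X) (N : ℕ) :
    ∑ p ∈ (ps (⌊Real.log X⌋₊ ^ 2) N).filter (fun p : ℕ => (p : ℤ) ∣ d), 1 / (p : ℝ) ≤ 12 / Real.log X := by
  have hX1 : 1 ≤ X := by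
    rcases Nat.eq_zero_or_pos X with h | h
    · rw [h] at hL; norm_num at hL
    · exact h
  have hXr : (0 : ℝ) < X := by exact_mod_cast hX1
  have h0 : (0 : ℝ) < Real.log X := by linarith
  have hf1 := Nat.lt_floor_add_one (Real.log X)
  have hf2 : (2 : ℕ) ≤ ⌊Real.log X⌋₊ := Nat.le_floor (by exact_mod_cast hL)
  have hY : 1 ≤ ⌊Real.log X⌋₊ ^ 2 := Nat.one_le_pow _ _ (by omega)
  refine (sum_far d hd _ N hY).trans ?_
  have h1 : (Nat.log 2 d.natAbs : ℝ) ≤ 3 * Real.log X := by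
    have e1 : Nat.log 2 d.natAbs ≤ Nat.log 2 (2 * X) := Nat.log_mono_right hd2
    have e2 : (Nat.log 2 (2 * X) : ℝ) ≤ Real.logb 2 ((2 * X : ℕ) : ℝ) := by
      have := Real.natLog_le_logb (2 * X) 2
      exact_mod_cast this
    have e3 : Real.logb 2 ((2 * X : ℕ) : ℝ) = 1 + Real.log X / Real.log 2 := by
      rw [Real.logb]
      push_cast
      rw [Real.log_mul (by norm_num) hXr.ne', add_div, div_self (Real.log_pos (by norm_num)).ne']
    have e4 : Real.log X / Real.log 2 ≤ 2 * Real.log X := by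
      have := Real.log_two_gt_d9
      rw [div_le_iff₀ (by linarith)]
      nlinarith
    have e5 : (Nat.log 2 d.natAbs : ℝ) ≤ Nat.log 2 (2 * X) := by exact_mod_cast e1
    linarith
  have h2 : Real.log X ^ 2 / 4 ≤ ((⌊Real.log X⌋₊ ^ 2 : ℕ) : ℝ) := by
    push_cast
    have e1 : Real.log X / 2 ≤ ⌊Real.log X⌋₊ := by linarith
    nlinarith
  have h3 : 0 < Real.log X ^ 2 / 4 := by positivity
  calc (Nat.log 2 d.natAbs : ℝ) / ((⌊Real.log X⌋₊ ^ 2 : ℕ) : ℝ) ≤ (3 * Real.log X) / (Real.log X ^ 2 / 4) :=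
        div_le_div₀ (by positivity) h1 h3 h2
    _ = 12 / Real.log X := by field_simp; norm_num

open Classical in
lemma pair_sum {k : ℕ} (a : Fin k → ℤ) (w N : ℕ) (c : ℝ) (hc : 0 ≤ c)
    (h : ∀ i j, i ≠ j → ∑ p ∈ (ps w N).filter (fun p : ℕ => (p : ℤ) ∣ a i - a j), 1 / (p : ℝ) ≤ c) :
    ∑ p ∈ (ps w N).filter (fun p : ℕ => ∃ i j, i ≠ j ∧ (p : ℤ) ∣ a i - a j), 1 / (p : ℝ) ≤ (k : ℝ) ^ 2 * c := by
  have h1 : ∑ p ∈ (ps w N).filter (fun p : ℕ => ∃ i j, i ≠ j ∧ (p : ℤ) ∣ a i - a j), 1 / (p : ℝ) ≤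
      ∑ p ∈ ps w N, ∑ i : Fin k, ∑ j : Fin k, (if i ≠ j ∧ (p : ℤ) ∣ a i - a j then 1 / (p : ℝ) else 0) := by
    rw [sum_filter]
    apply sum_le_sum
    intro p _
    split_ifs with hx
    · obtain ⟨i, j, hij, hd⟩ := hx
      have e1 : ∑ j : Fin k, (if i ≠ j ∧ (p : ℤ) ∣ a i - a j then 1 / (p : ℝ) else 0) ≤
          ∑ i : Fin k, ∑ j : Fin k, (if i ≠ j ∧ (p : ℤ) ∣ a i - a j then 1 / (p : ℝ) else 0) :=
        single_le_sum (f := fun i : Fin k => ∑ j : Fin k, (if i ≠ j ∧ (p : ℤ) ∣ a i - a j then 1 / (p : ℝ) else 0))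
          (fun i _ => sum_nonneg fun j _ => by split_ifs <;> positivity) (mem_univ i)
      have e2 : (if i ≠ j ∧ (p : ℤ) ∣ a i - a j then 1 / (p : ℝ) else 0) ≤
          ∑ j : Fin k, (if i ≠ j ∧ (p : ℤ) ∣ a i - a j then 1 / (p : ℝ) else 0) :=
        single_le_sum (f := fun j : Fin k => (if i ≠ j ∧ (p : ℤ) ∣ a i - a j then 1 / (p : ℝ) else 0))
          (fun j _ => by split_ifs <;> positivity) (mem_univ j)
      rw [if_pos ⟨hij, hd⟩] at e2
      exact e2.trans e1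
    · exact sum_nonneg fun i _ => sum_nonneg fun j _ => by split_ifs <;> positivity
  refine h1.trans ?_
  rw [sum_comm]
  calc ∑ i : Fin k, ∑ p ∈ ps w N, ∑ j : Fin k, (if i ≠ j ∧ (p : ℤ) ∣ a i - a j then 1 / (p : ℝ) else 0)
      ≤ ∑ _i : Fin k, ∑ _j : Fin k, c := by
        apply sum_le_sum
        intro i _
        rw [sum_comm]
        apply sum_le_sum
        intro j _
        by_cases hij : i = j
        · have : ∀ p ∈ ps w N, (if i ≠ j ∧ (p : ℤ) ∣ a i - a j then 1 / (p : ℝ) else 0) = 0 := by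
            intro p _
            rw [if_neg]
            exact fun h => h.1 hij
          rw [sum_congr rfl this, sum_const_zero]
          exact hc
        · refine le_trans (le_of_eq ?_) (h i j hij)
          rw [sum_filter]
          apply sum_congr rfl
          intro p _
          simp only [ne_eq, hij, not_false_eq_true, true_and]
    _ = (k : ℝ) ^ 2 * c := by
        simp only [sum_const, card_univ, Fintype.card_fin, nsmul_eq_mul]
        ring

lemma tail_all {k : ℕ} (X w : ℕ) (hL : 2 ≤ Real.log X) (a : Fin k → ℤ) (ha : a ∈ Bx k X)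
    (hne : ∀ i j, i ≠ j → a i ≠ a j) (τ : ℝ) (hτ : 12 / Real.log X ≤ τ)
    (h : ∀ i j, i ≠ j → ∑ p ∈ (ps w (⌊Real.log X⌋₊ ^ 2)).filter (fun p : ℕ => (p : ℤ) ∣ a i - a j), 1 / (p : ℝ) ≤ τ)
    (N : ℕ) (i j : Fin k) (hij : i ≠ j) :
    ∑ p ∈ (ps w N).filter (fun p : ℕ => (p : ℤ) ∣ a i - a j), 1 / (p : ℝ) ≤ 2 * τ := by
  have h1 := sum_split (fun p : ℕ => (p : ℤ) ∣ a i - a j) w (⌊Real.log X⌋₊ ^ 2) N
  have h2 := far_bound X hL (a i - a j) (sub_ne_zero.2 (hne i j hij)) (by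
    rw [Bx, Fintype.mem_piFinset] at ha
    have e1 := mem_Icc.1 (ha i)
    have e2 := mem_Icc.1 (ha j)
    omega) N
  have h3 := h i j hij
  linarith

lemma SS_zero (a : Fin 0 → ℤ) (N : ℕ) : SS a N = 1 := by
  unfold SS
  apply prod_eq_one
  intro p _
  have : nu a p = 0 := by
    unfold nu
    rw [card_eq_zero, filter_eq_empty_iff]
    rintro x _ ⟨l, _⟩
    exact l.elim0
  rw [this]
  simp

lemma exp_le (x : ℝ) (h0 : 0 ≤ x) (h1 : x ≤ 1 / 2) : Real.exp x ≤ 1 + 2 * x := by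
  have h2 := Real.exp_bound_div_one_sub_of_interval h0 (by linarith : x < 1)
  refine h2.trans ?_
  rw [div_le_iff₀ (by linarith)]
  nlinarith

lemma quot_bound {k : ℕ} (ε : ℝ) (h0 : 0 < ε) (h1 : ε ≤ 1) (g h : Fin k → ℝ) (hg : ∀ l, 0 < g l) (hh : ∀ l, 0 < h l)
    (ε2 : ℝ) (he2 : ε2 * k ≤ ε / 16) (_he0 : 0 ≤ ε2) (he1 : ε2 ≤ 1) (hgh : ∀ l, |g l - h l| ≤ ε2 * h l) (t : ℝ)
    (ht : |t| ≤ ε / 4) (S : ℝ) (hS : 0 < S) :
    |S - S * (∏ l, h l / g l) * Real.exp t| ≤ ε * (S * (∏ l, h l / g l) * Real.exp t) := by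
  have hP : 0 < ∏ l, h l / g l := prod_pos fun l _ => div_pos (hh l) (hg l)
  have hH : 0 < S * (∏ l, h l / g l) * Real.exp t := by positivity
  obtain ⟨Q, hQ⟩ : ∃ Q, Q = (∏ l, g l / h l) * Real.exp (-t) := ⟨_, rfl⟩
  have hPQ : (∏ l, h l / g l) * ∏ l, g l / h l = 1 := by
    rw [← prod_mul_distrib]
    apply prod_eq_one
    intro l _
    have := (hg l).ne'
    have := (hh l).ne'
    field_simp
  have hSQ : S = (S * (∏ l, h l / g l) * Real.exp t) * Q := by
    rw [hQ]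
    calc S = S * 1 * 1 := by ring
      _ = S * ((∏ l, h l / g l) * ∏ l, g l / h l) * (Real.exp t * Real.exp (-t)) := by
          rw [hPQ, ← Real.exp_add, add_neg_cancel, Real.exp_zero]
      _ = _ := by ring
  have hup : Q ≤ 1 + ε := by
    have e1 : ∏ l, g l / h l ≤ Real.exp (ε2 * k) := by
      calc ∏ l, g l / h l ≤ ∏ _l : Fin k, Real.exp ε2 := by
            apply Finset.prod_le_prod
            · intro l _; exact (div_pos (hg l) (hh l)).le
            · intro l _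
              rw [div_le_iff₀ (hh l)]
              have e2 := (abs_le.1 (hgh l)).2
              have e3 := Real.add_one_le_exp ε2
              have e4 := mul_le_mul_of_nonneg_right e3 (hh l).le
              linarith
        _ = Real.exp (ε2 * k) := by
            rw [prod_const, card_univ, Fintype.card_fin, ← Real.exp_nat_mul, mul_comm]
    calc Q ≤ Real.exp (ε2 * k) * Real.exp (ε / 4) := by
          rw [hQ]
          apply mul_le_mul e1 _ (Real.exp_pos _).le (Real.exp_pos _).le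
          apply Real.exp_le_exp.2
          linarith [(abs_le.1 ht).1]
      _ = Real.exp (ε2 * k + ε / 4) := (Real.exp_add _ _).symm
      _ ≤ Real.exp (ε / 2) := Real.exp_le_exp.2 (by linarith)
      _ ≤ 1 + 2 * (ε / 2) := exp_le _ (by linarith) (by linarith)
      _ = 1 + ε := by ring
  have hlow : 1 - ε ≤ Q := by
    have e1 : 1 - ε / 16 ≤ ∏ l, g l / h l := by
      calc 1 - ε / 16 ≤ 1 + (k : ℝ) * (-ε2) := by linarith
        _ ≤ (1 + (-ε2)) ^ k := one_add_mul_le_pow (by linarith) k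
        _ = ∏ _l : Fin k, (1 + (-ε2)) := by rw [prod_const, card_univ, Fintype.card_fin]
        _ ≤ ∏ l, g l / h l := by
            apply Finset.prod_le_prod
            · intro l _; linarith
            · intro l _
              rw [le_div_iff₀ (hh l)]
              have e2 := (abs_le.1 (hgh l)).1
              linarith
    have e2 : 1 - ε / 4 ≤ Real.exp (-t) := by
      have := Real.add_one_le_exp (-t)
      have := (abs_le.1 ht).2
      linarith
    have e3 : (1 - ε / 16) * (1 - ε / 4) ≤ Q := by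
      rw [hQ]
      exact mul_le_mul e1 e2 (by linarith) (prod_nonneg fun l _ => (div_pos (hg l) (hh l)).le)
    nlinarith
  generalize S * (∏ l, h l / g l) * Real.exp t = H at *
  have : S - H = H * (Q - 1) := by rw [hSQ]; ring
  rw [this, abs_mul, abs_of_pos hH, mul_comm]
  apply mul_le_mul_of_nonneg_right _ hH.le
  rw [abs_le]
  constructor <;> linarith

/-! ### the main theorem -/

/-- the tuples which are bad for one coordinate, for a coincidence or for the tails from `w` on -/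
lemma bad_count {k : ℕ} (hk : 1 ≤ k) (X : ℕ) (hX : 1 ≤ X) (Q : Fin k × Fin k → (Fin k → ℤ) → Prop)
    [∀ q, DecidablePred (Q q)] [DecidablePred fun a => ∃ q, Q q a] (c : ℝ) (hc : 0 ≤ c)
    (h : ∀ q, (#((Bx k X).filter (Q q)) : ℝ) ≤ c * (2 * X + 1) ^ (k - 1)) :
    (#((Bx k X).filter (fun a => ∃ q, Q q a)) : ℝ) ≤ (k : ℝ) ^ 2 * (c * (3 ^ k * (X : ℝ) ^ (k - 1))) := by
  classical
  have hXr : (1 : ℝ) ≤ X := by exact_mod_cast hX
  have h1 := card_exists (Bx k X) Q (c * (2 * X + 1) ^ (k - 1)) h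
  refine h1.trans ?_
  rw [Fintype.card_prod, Fintype.card_fin]
  push_cast
  rw [← sq]
  apply mul_le_mul_of_nonneg_left _ (by positivity)
  apply mul_le_mul_of_nonneg_left _ hc
  calc (2 * (X : ℝ) + 1) ^ (k - 1) ≤ (3 * X) ^ (k - 1) := by
        apply pow_le_pow_left₀ (by positivity)
        linarith
    _ = 3 ^ (k - 1) * (X : ℝ) ^ (k - 1) := mul_pow _ _ _
    _ ≤ 3 ^ k * (X : ℝ) ^ (k - 1) := by
        apply mul_le_mul_of_nonneg_right _ (by positivity)
        exact pow_le_pow_right₀ (by norm_num) (by omega)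

end HGS

open HGS in
theorem hgs (k : ℕ) : S_HGS k := by
  classical
  intro η hη
  rcases Nat.eq_zero_or_pos k with hk | hk
  · subst hk
    refine ⟨1, one_pos, fun ε1 hε1 u hu => ⟨0, fun X _ => ⟨∅, empty_subset _, ?_, fun a _ _ _ => ?_⟩⟩⟩
    · rw [card_empty, Nat.cast_zero]; positivity
    · refine ⟨1, le_rfl, ?_, ?_⟩
      · simp only [SS_zero]
        exact tendsto_const_nhds
      · rw [SS_zero, sub_self, abs_zero]
        positivity
  obtain ⟨K, hK⟩ : ∃ K : ℝ, K = k := ⟨_, rfl⟩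
  have hK1 : 1 ≤ K := by rw [hK]; exact_mod_cast hk
  have hK0 : 0 < K := by linarith
  obtain ⟨A, hA⟩ : ∃ A : ℝ, A = 3 ^ k := ⟨_, rfl⟩
  have hA1 : 1 ≤ A := by rw [hA]; exact one_le_pow₀ (by norm_num)
  have hA0 : 0 < A := by linarith
  obtain ⟨δ, hδ, hHG⟩ := Run7.h437.CR.hg (η / (16 * K ^ 2 * A)) (by positivity)
  obtain ⟨τ0, hτ0⟩ : ∃ τ0 : ℝ, τ0 = 1 / (32 * K ^ 3) := ⟨_, rfl⟩
  have hτ0p : 0 < τ0 := by rw [hτ0]; positivity
  obtain ⟨w0, hw0⟩ : ∃ w0 : ℕ, w0 = 4 * k + 4 + ⌈32 * K ^ 2⌉₊ + ⌈64 * K ^ 2 * A / (η * τ0)⌉₊ := ⟨_, rfl⟩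
  have hw0k : 4 * k + 4 ≤ w0 := by omega
  have hw01 : 32 * K ^ 2 ≤ w0 := by
    have h1 := Nat.le_ceil (32 * K ^ 2)
    have h2 : (⌈32 * K ^ 2⌉₊ : ℝ) ≤ w0 := by exact_mod_cast (by omega : ⌈32 * K ^ 2⌉₊ ≤ w0)
    linarith
  have hw02 : 64 * K ^ 2 * A / (η * τ0) ≤ w0 := by
    have h1 := Nat.le_ceil (64 * K ^ 2 * A / (η * τ0))
    have h2 : (⌈64 * K ^ 2 * A / (η * τ0)⌉₊ : ℝ) ≤ w0 := by
      exact_mod_cast (by omega : ⌈64 * K ^ 2 * A / (η * τ0)⌉₊ ≤ w0)
    linarith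
  have hw0r : (0 : ℝ) < w0 := by exact_mod_cast (by omega : 0 < w0)
  refine ⟨(1 / ((w0 : ℝ) + 1)) ^ (w0 + 1) * (δ / 2 ^ (w0 + 1)) ^ k * Real.exp (-1), by positivity,
    fun ε1 hε1 u hu => ?_⟩
  obtain ⟨ε, hε⟩ : ∃ ε, ε = min ε1 1 := ⟨_, rfl⟩
  have hε0 : 0 < ε := by rw [hε]; exact lt_min hε1 one_pos
  have hεle : ε ≤ ε1 := by rw [hε]; exact min_le_left _ _
  have hεl1 : ε ≤ 1 := by rw [hε]; exact min_le_right _ _
  obtain ⟨ε2, hε2⟩ : ∃ ε2, ε2 = ε / (16 * K) := ⟨_, rfl⟩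
  have hε20 : 0 < ε2 := by rw [hε2]; positivity
  have hε2K : ε2 * K = ε / 16 := by rw [hε2]; field_simp
  have hε21 : ε2 ≤ 1 := by
    rw [hε2, div_le_one (by positivity)]
    linarith
  obtain ⟨τ1, hτ1⟩ : ∃ τ1, τ1 = ε / (64 * K ^ 3) := ⟨_, rfl⟩
  have hτ1p : 0 < τ1 := by rw [hτ1]; positivity
  obtain ⟨X1, hX1⟩ := hHG ε2 hε20 u hu
  have hur : (0 : ℝ) < u := by exact_mod_cast hu
  obtain ⟨W, hW⟩ : ∃ W : ℝ, W = 4 * K + 4 + 64 * K ^ 2 / ε + 64 * K ^ 2 * A / (η * τ1) := ⟨_, rfl⟩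
  have hev : ∀ᶠ X : ℕ in atTop, 2 ≤ Real.log X ∧ W + 1 ≤ Real.log X ^ (1 / (u : ℝ)) ∧
      Real.log X ^ 2 ≤ (X : ℝ) ^ (1 : ℝ) ∧ 12 / τ0 ≤ Real.log X ∧ 12 / τ1 ≤ Real.log X ∧
      16 * K ^ 2 * A / η ≤ X ∧ 1 ≤ X := by
    have hlog : Tendsto (fun X : ℕ => Real.log X) atTop atTop :=
      Real.tendsto_log_atTop.comp tendsto_natCast_atTop_atTop
    filter_upwards [hlog.eventually_ge_atTop 2,
      ((tendsto_rpow_atTop (by positivity : (0 : ℝ) < 1 / u)).comp hlog).eventually_ge_atTop (W + 1),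
      Pool.Agent.H442R2.EHI.evt_log_pow 2 1 (by norm_num), hlog.eventually_ge_atTop (12 / τ0),
      hlog.eventually_ge_atTop (12 / τ1),
      (tendsto_natCast_atTop_atTop (R := ℝ)).eventually_ge_atTop (16 * K ^ 2 * A / η),
      eventually_ge_atTop 1] with X a1 a2 a3 a4 a5 a6 a7
    exact ⟨a1, a2, a3, a4, a5, a6, a7⟩
  obtain ⟨X2, hX2⟩ := eventually_atTop.1 hev
  refine ⟨max X1 X2, fun X hX => ?_⟩
  obtain ⟨hL, hwW, hLX, hLτ0, hLτ1, hXη, hX1'⟩ := hX2 X ((le_max_right _ _).trans hX)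
  obtain ⟨Bad1, hBs, hBc, hB⟩ := hX1 X ((le_max_left _ _).trans hX)
  clear hX2 hX1 hev hX
  obtain ⟨w, hw⟩ : ∃ w, w = ⌊Real.log X ^ (1 / (u : ℝ))⌋₊ := ⟨_, rfl⟩
  rw [← hw] at hB ⊢
  have hwW' : W ≤ w := by
    have := Nat.lt_floor_add_one (Real.log X ^ (1 / (u : ℝ)))
    rw [← hw] at this
    linarith
  have q1 : 0 < 64 * K ^ 2 / ε := by positivity
  have q2 : 0 < 64 * K ^ 2 * A / (η * τ1) := by positivity
  have hwk : 4 * k + 4 ≤ w := by
    have : (4 : ℝ) * k + 4 ≤ w := by rw [← hK]; linarith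
    exact_mod_cast this
  have hw1 : 64 * K ^ 2 / ε ≤ w := by linarith
  have hw2 : 64 * K ^ 2 * A / (η * τ1) ≤ w := by linarith
  have hwr : (0 : ℝ) < w := by exact_mod_cast (by omega : 0 < w)
  obtain ⟨Y, hY⟩ : ∃ Y, Y = ⌊Real.log X⌋₊ ^ 2 := ⟨_, rfl⟩
  have hYX : Y ≤ X := by
    have h1 : (Y : ℝ) ≤ X := by
      rw [hY]
      push_cast
      rw [Real.rpow_one] at hLX
      have := Nat.floor_le (by linarith : 0 ≤ Real.log X)
      calc (⌊Real.log X⌋₊ : ℝ) ^ 2 ≤ Real.log X ^ 2 := pow_le_pow_left₀ (by positivity) this 2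
        _ ≤ X := hLX
    exact_mod_cast h1
  have hXr : (1 : ℝ) ≤ X := by exact_mod_cast hX1'
  have hX0 : (0 : ℝ) < X := by linarith
  have hLpos : 0 < Real.log X := by linarith
  have hτ0L : 12 / Real.log X ≤ τ0 := by
    rw [div_le_iff₀ hLpos]
    rw [div_le_iff₀ hτ0p] at hLτ0
    linarith
  have hτ1L : 12 / Real.log X ≤ τ1 := by
    rw [div_le_iff₀ hLpos]
    rw [div_le_iff₀ hτ1p] at hLτ1
    linarith
  -- the bad sets
  obtain ⟨Q1, hQ1⟩ : ∃ Q : Fin k × Fin k → (Fin k → ℤ) → Prop, Q = fun q a => a q.1 ∈ Bad1 := ⟨_, rfl⟩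
  obtain ⟨Q2, hQ2⟩ : ∃ Q : Fin k × Fin k → (Fin k → ℤ) → Prop, Q = fun q a => q.1 ≠ q.2 ∧ a q.1 = a q.2 := ⟨_, rfl⟩
  obtain ⟨Q3, hQ3⟩ : ∃ Q : Fin k × Fin k → (Fin k → ℤ) → Prop, Q = fun q a => q.1 ≠ q.2 ∧
    τ0 < ∑ p ∈ (ps w0 Y).filter (fun p : ℕ => (p : ℤ) ∣ a q.1 - a q.2), 1 / (p : ℝ) := ⟨_, rfl⟩
  obtain ⟨Q4, hQ4⟩ : ∃ Q : Fin k × Fin k → (Fin k → ℤ) → Prop, Q = fun q a => q.1 ≠ q.2 ∧
    τ1 < ∑ p ∈ (ps w Y).filter (fun p : ℕ => (p : ℤ) ∣ a q.1 - a q.2), 1 / (p : ℝ) := ⟨_, rfl⟩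
  have hXk : (X : ℝ) ^ k = X * (X : ℝ) ^ (k - 1) := by
    rw [← pow_succ', show k - 1 + 1 = k by omega]
  have hPk : (0 : ℝ) < (X : ℝ) ^ (k - 1) := by positivity
  have b1 : (#((Bx k X).filter (fun a => ∃ q, Q1 q a)) : ℝ) ≤ η / 16 * (X : ℝ) ^ k := by
    have h1 := bad_count hk X hX1' Q1 (η / (16 * K ^ 2 * A) * X) (by positivity) (by
      intro q
      apply card_fix' X q.1 (Q1 q) _
      intro b
      refine le_trans ?_ hBc
      have h2 : (Icc (-(X : ℤ)) X).filter (fun x : ℤ => Q1 q (Function.update b q.1 x)) ⊆ Bad1 := by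
        intro x hx
        rw [mem_filter, hQ1] at hx
        simpa using hx.2
      exact_mod_cast card_le_card h2)
    refine h1.trans (le_of_eq ?_)
    rw [← hK, ← hA, hXk]
    field_simp
  have hemp : ∀ (Q : Fin k × Fin k → (Fin k → ℤ) → Prop) (q : Fin k × Fin k), (∀ a, Q q a → q.1 ≠ q.2) →
      q.1 = q.2 → (#((Bx k X).filter (Q q)) : ℝ) = 0 := by
    intro Q q h1 h2
    have : (Bx k X).filter (Q q) = ∅ := by
      rw [filter_eq_empty_iff]
      intro a _ h3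
      exact h1 a h3 h2
    rw [this, card_empty, Nat.cast_zero]
  have b2 : (#((Bx k X).filter (fun a => ∃ q, Q2 q a)) : ℝ) ≤ η / 16 * (X : ℝ) ^ k := by
    have h1 := bad_count hk X hX1' Q2 1 zero_le_one (by
      intro q
      by_cases hq : q.1 = q.2
      · rw [hemp Q2 q (fun a ha => by rw [hQ2] at ha; exact ha.1) hq]
        positivity
      · apply card_fix' X q.1 (Q2 q) _
        intro b
        have h2 : (Icc (-(X : ℤ)) X).filter (fun x : ℤ => Q2 q (Function.update b q.1 x)) ⊆ {b q.2} := by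
          intro x hx
          rw [mem_filter, hQ2] at hx
          rw [mem_singleton]
          have h3 := hx.2.2
          rw [Function.update_self, Function.update_of_ne (Ne.symm hq)] at h3
          exact h3
        have h3 := card_le_card h2
        rw [card_singleton] at h3
        exact_mod_cast h3)
    refine h1.trans ?_
    rw [← hK, ← hA, hXk, one_mul]
    rw [div_le_iff₀ hη] at hXη
    have h2 : K ^ 2 * A ≤ η / 16 * X := by linarith
    calc K ^ 2 * (A * (X : ℝ) ^ (k - 1)) = (K ^ 2 * A) * (X : ℝ) ^ (k - 1) := by ring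
      _ ≤ (η / 16 * X) * (X : ℝ) ^ (k - 1) := mul_le_mul_of_nonneg_right h2 hPk.le
      _ = _ := by ring
  have b34 : ∀ (v : ℕ) (τ : ℝ) (Q : Fin k × Fin k → (Fin k → ℤ) → Prop), 0 < τ → 1 ≤ v → 64 * K ^ 2 * A / (η * τ) ≤ v →
      (Q = fun q a => q.1 ≠ q.2 ∧
        τ < ∑ p ∈ (ps v Y).filter (fun p : ℕ => (p : ℤ) ∣ a q.1 - a q.2), 1 / (p : ℝ)) →
      (#((Bx k X).filter (fun a => ∃ q, Q q a)) : ℝ) ≤ η / 16 * (X : ℝ) ^ k := by
    intro v τ Q hτ hv hvτ hQ
    have hv0 : (0 : ℝ) < v := by exact_mod_cast hv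
    have h1 := bad_count hk X hX1' Q (4 * X / (v * τ)) (by positivity) (by
      intro q
      by_cases hq : q.1 = q.2
      · rw [hemp Q q (fun a ha => by rw [hQ] at ha; exact ha.1) hq]
        positivity
      · have h2 := count_tail X v Y hv hYX q.1 q.2 hq τ hτ
        have h3 : (Bx k X).filter (Q q) ⊆ (Bx k X).filter (fun a =>
            τ < ∑ p ∈ (ps v Y).filter (fun p : ℕ => (p : ℤ) ∣ a q.1 - a q.2), 1 / (p : ℝ)) := by
          intro a ha
          rw [mem_filter, hQ] at ha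
          rw [mem_filter]
          exact ⟨ha.1, ha.2.2⟩
        have h4 : (#((Bx k X).filter (Q q)) : ℝ) ≤ _ := Nat.cast_le.2 (card_le_card h3)
        refine h4.trans (h2.trans (le_of_eq ?_))
        ring)
    refine h1.trans ?_
    rw [← hK, ← hA, hXk]
    rw [div_le_iff₀ (by positivity)] at hvτ
    have h2 : K ^ 2 * (4 * A) ≤ η / 16 * (v * τ) := by linarith
    calc K ^ 2 * (4 * X / (v * τ) * (A * (X : ℝ) ^ (k - 1)))
        = (K ^ 2 * (4 * A)) * (X * (X : ℝ) ^ (k - 1)) / (v * τ) := by ring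
      _ ≤ (η / 16 * (v * τ)) * (X * (X : ℝ) ^ (k - 1)) / (v * τ) := by
          apply div_le_div_of_nonneg_right _ (by positivity)
          exact mul_le_mul_of_nonneg_right h2 (by positivity)
      _ = _ := by field_simp
  have b3 := b34 w0 τ0 Q3 hτ0p (by omega) hw02 hQ3
  have b4 := b34 w τ1 Q4 hτ1p (by omega) hw2 hQ4
  clear b34 hemp
  refine ⟨(Bx k X).filter (fun a => ∃ q, Q1 q a) ∪ (Bx k X).filter (fun a => ∃ q, Q2 q a) ∪
    (Bx k X).filter (fun a => ∃ q, Q3 q a) ∪ (Bx k X).filter (fun a => ∃ q, Q4 q a), ?_, ?_, ?_⟩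
  · refine union_subset (union_subset (union_subset ?_ ?_) ?_) ?_ <;> exact filter_subset _ _
  · have h1 := card_union_le ((Bx k X).filter (fun a => ∃ q, Q1 q a) ∪ (Bx k X).filter (fun a => ∃ q, Q2 q a) ∪
      (Bx k X).filter (fun a => ∃ q, Q3 q a)) ((Bx k X).filter (fun a => ∃ q, Q4 q a))
    have h2 := card_union_le ((Bx k X).filter (fun a => ∃ q, Q1 q a) ∪ (Bx k X).filter (fun a => ∃ q, Q2 q a))
      ((Bx k X).filter (fun a => ∃ q, Q3 q a))
    have h3 := card_union_le ((Bx k X).filter (fun a => ∃ q, Q1 q a)) ((Bx k X).filter (fun a => ∃ q, Q2 q a))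
    have h4 : (#((Bx k X).filter (fun a => ∃ q, Q1 q a) ∪ (Bx k X).filter (fun a => ∃ q, Q2 q a) ∪
        (Bx k X).filter (fun a => ∃ q, Q3 q a) ∪ (Bx k X).filter (fun a => ∃ q, Q4 q a)) : ℝ) ≤
        #((Bx k X).filter (fun a => ∃ q, Q1 q a)) + #((Bx k X).filter (fun a => ∃ q, Q2 q a)) +
        #((Bx k X).filter (fun a => ∃ q, Q3 q a)) + #((Bx k X).filter (fun a => ∃ q, Q4 q a)) := by
      exact_mod_cast h1.trans (by omega)
    have h5 : 0 < η * (X : ℝ) ^ k := by positivity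
    linarith
  · intro a ha hab hadm
    rw [mem_union, mem_union, mem_union, not_or, not_or, not_or] at hab
    obtain ⟨⟨⟨n1, n2⟩, n3⟩, n4⟩ := hab
    have g1 : ∀ l, a l ∉ Bad1 := by
      intro l hl
      exact n1 (mem_filter.2 ⟨ha, (l, l), by rw [hQ1]; exact hl⟩)
    have g2 : ∀ i j, i ≠ j → a i ≠ a j := by
      intro i j hij hl
      exact n2 (mem_filter.2 ⟨ha, (i, j), by rw [hQ2]; exact ⟨hij, hl⟩⟩)
    have g3 : ∀ i j, i ≠ j → ∑ p ∈ (ps w0 Y).filter (fun p : ℕ => (p : ℤ) ∣ a i - a j), 1 / (p : ℝ) ≤ τ0 := by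
      intro i j hij
      by_contra hc
      push Not at hc
      exact n3 (mem_filter.2 ⟨ha, (i, j), by rw [hQ3]; exact ⟨hij, hc⟩⟩)
    have g4 : ∀ i j, i ≠ j → ∑ p ∈ (ps w Y).filter (fun p : ℕ => (p : ℤ) ∣ a i - a j), 1 / (p : ℝ) ≤ τ1 := by
      intro i j hij
      by_contra hc
      push Not at hc
      exact n4 (mem_filter.2 ⟨ha, (i, j), by rw [hQ4]; exact ⟨hij, hc⟩⟩)
    rw [hY] at g3 g4
    have hal : ∀ l, a l ∈ Icc (-(X : ℤ)) X := by
      intro l
      rw [Bx, Fintype.mem_piFinset] at ha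
      exact ha l
    choose hsq h hδh hlim hcl using fun l => hB (a l) (hal l) (g1 l)
    have hh0 : ∀ l, 0 < h l := fun l => hδ.trans_le (hδh l)
    have T0 : ∀ N, ∑ p ∈ (ps w0 N).filter (fun p : ℕ => ∃ i j, i ≠ j ∧ (p : ℤ) ∣ a i - a j), 1 / (p : ℝ) ≤
        (k : ℝ) ^ 2 * (2 * τ0) := fun N => pair_sum a w0 N (2 * τ0) (by positivity)
      (fun i j hij => tail_all X w0 hL a ha g2 τ0 hτ0L g3 N i j hij)
    have T1 : ∀ N, ∑ p ∈ (ps w N).filter (fun p : ℕ => ∃ i j, i ≠ j ∧ (p : ℤ) ∣ a i - a j), 1 / (p : ℝ) ≤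
        (k : ℝ) ^ 2 * (2 * τ1) := fun N => pair_sum a w N (2 * τ1) (by positivity)
      (fun i j hij => tail_all X w hL a ha g2 τ1 hτ1L g4 N i j hij)
    obtain ⟨t0, ht0, hlim0⟩ := key a w0 hw0k h hlim _ T0
    obtain ⟨t1, ht1, hlim1⟩ := key a w hwk h hlim _ T1
    have hEq := tendsto_nhds_unique hlim0 hlim1
    rw [← hK] at ht0 ht1
    have e0 : |t0| ≤ 1 := by
      refine ht0.trans ?_
      have h1 : 8 * K ^ 2 / w0 ≤ 1 / 4 := by
        rw [div_le_div_iff₀ hw0r (by norm_num)]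
        linarith
      have h2 : 2 * K * (K ^ 2 * (2 * τ0)) = 1 / 8 := by
        rw [hτ0]; field_simp; norm_num
      linarith
    have e1 : |t1| ≤ ε / 4 := by
      refine ht1.trans ?_
      have h1 : 8 * K ^ 2 / w ≤ ε / 8 := by
        rw [div_le_div_iff₀ hwr (by norm_num)]
        rw [div_le_iff₀ hε0] at hw1
        linarith
      have h2 : 2 * K * (K ^ 2 * (2 * τ1)) = ε / 16 := by
        rw [hτ1]; field_simp; norm_num
      linarith
    have hSpos : 0 < SS a w := lt_of_lt_of_le (by positivity) (SS_ge a hadm w)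
    refine ⟨_, ?_, hlim1, ?_⟩
    · rw [← hEq]
      have h1 := SS_ge a hadm w0
      have h2 : (δ / 2 ^ (w0 + 1)) ^ k ≤ ∏ l, h l / hprod (a l) w0 := by
        calc (δ / 2 ^ (w0 + 1)) ^ k = ∏ _l : Fin k, (δ / 2 ^ (w0 + 1)) := by
              rw [prod_const, card_univ, Fintype.card_fin]
          _ ≤ _ := by
              apply Finset.prod_le_prod
              · intro l _; positivity
              · intro l _
                exact div_le_div₀ (hh0 l).le (hδh l) (hprod_pos _ _) (hprod_le _ _)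
      have h3 : Real.exp (-1) ≤ Real.exp t0 := Real.exp_le_exp.2 (by linarith [(abs_le.1 e0).1])
      apply mul_le_mul _ h3 (Real.exp_pos _).le
      · apply mul_nonneg (le_trans (by positivity) h1)
        exact prod_nonneg fun l _ => (div_pos (hh0 l) (hprod_pos _ _)).le
      · apply mul_le_mul h1 h2 (by positivity)
        exact le_trans (by positivity) h1
    · refine (quot_bound ε hε0 hεl1 (fun l => hprod (a l) w) h (fun l => hprod_pos _ _) hh0 ε2
        (by rw [← hK]; exact hε2K.le) hε20.le hε21 hcl t1 e1 (SS a w) hSpos).trans ?_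
      apply mul_le_mul_of_nonneg_right hεle
      have : 0 < ∏ l, h l / hprod (a l) w := prod_pos fun l _ => div_pos (hh0 l) (hprod_pos _ _)
      positivity

end Run7.h285.S
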