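import Pool.Agent.Run7.h376.CGS.D
import Pool.Agent.Run7.h277.S.SM1
import Pool.Agent.Run7.h277.S.SM2
import Pool.Agent.Run7.h382.S.CF
import Pool.Agent.Run7.h382.S.FLS
import Pool.Agent.Run7.h285.S.HGS
import Pool.Agent.Run7.h285.S.SYSM
import Pool.Agent.Run7.h794.MK.All

/-!
# Project SYS: all inputs
-/

set_option autoImplicit false

namespace Run7.h285.S

/-- the theorem without hypotheses -/
theorem sysm_all (k : ℕ) (hk : 1 ≤ k) : S_SYSM k := by
  have hcg := Run7.h376.CGS.cg Pool.Agent.Run7.h794.MK.law_all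
  exact sysm k hk (Run7.h277.S.sm1 hcg k) (Run7.h277.S.sm2 Run7.h382.S.CF k) (Run7.h382.S.FLS k) (hgs k)

end Run7.h285.S
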