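import Pool.Agent.Run7.h285.S.All

/-!
# One polynomial `n² + a` at all scales: the case `k = 1` of the project SYS
-/

set_option autoImplicit false

namespace Run7.h285.S

open Finset Filter Topology
open Run7.h757.CR (hprod)
open Run7.h285.S.HGS (rt rt_card rt_le nu_eq)

lemma nu_one (a : ℤ) (p : ℕ) : nu (fun _ : Fin 1 => a) p = #(rt a p) := by
  rw [nu_eq]
  simp

lemma rt_two (a : ℤ) : #(rt a 2) = 1 := by
  unfold rt
  have h : ∀ x ∈ range 2, ((2 : ℕ) : ℤ) ∣ (x : ℤ) ^ 2 + a ↔ (x : ℤ) = a % 2 := by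
    intro x hx
    rw [mem_range] at hx
    interval_cases x <;> · push_cast; omega
  rw [filter_congr h]
  rcases Int.emod_two_eq_zero_or_one a with h0 | h0
  · rw [h0]; decide
  · rw [h0]; decide

lemma adm_one (a : ℤ) : Adm (fun _ : Fin 1 => a) := by
  intro p hp
  rw [nu_one]
  by_cases h2 : p = 2
  · subst h2
    rw [rt_two]; norm_num
  · have h3 := rt_le p hp h2 a
    have h4 := hp.two_le
    have h5 : #(rt a p) ≤ 2 := by exact_mod_cast h3
    omega

lemma SS_one (a : ℤ) (N : ℕ) : SS (fun _ : Fin 1 => a) N = hprod a N := by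
  unfold SS hprod
  have e : (range (N + 1)).filter (fun w => Nat.Prime w ∧ w ≠ 2) =
      ((range (N + 1)).filter Nat.Prime).filter (fun w => w ≠ 2) := by rw [filter_filter]
  rw [e, prod_filter (s := (range (N + 1)).filter Nat.Prime) (p := fun w => w ≠ 2)]
  refine prod_congr rfl fun p hp => ?_
  rw [mem_filter] at hp
  have hp1 : (1 : ℝ) < p := by exact_mod_cast hp.2.one_lt
  have hp0 : (p : ℝ) ≠ 0 := by linarith
  have hp2 : (p : ℝ) - 1 ≠ 0 := by linarith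
  rw [nu_one, pow_one]
  split_ifs with h2
  · rw [rt_card p hp.2 h2 a]
    have e1 : 1 - 1 / (p : ℝ) = (p - 1) / p := by field_simp
    rw [e1]
    field_simp
    ring
  · have h3 : p = 2 := by tauto
    subst h3
    rw [rt_two]
    norm_num

lemma card_sq (X : ℕ) : #((Icc (-(X : ℤ)) X).filter (fun a => IsSquare (-a))) ≤ Nat.sqrt X + 1 := by
  have h1 : (Icc (-(X : ℤ)) X).filter (fun a => IsSquare (-a)) ⊆
      (range (Nat.sqrt X + 1)).image (fun n : ℕ => -((n : ℤ) ^ 2)) := by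
    intro a ha
    rw [mem_filter, mem_Icc] at ha
    obtain ⟨r, hr⟩ := ha.2
    rw [mem_image]
    refine ⟨r.natAbs, ?_, ?_⟩
    · rw [mem_range, Nat.lt_succ_iff, Nat.le_sqrt]
      have h2 : ((r.natAbs * r.natAbs : ℕ) : ℤ) = r * r := by
        rw [Int.natCast_mul, Int.natAbs_mul_self']
      have h3 : ((r.natAbs * r.natAbs : ℕ) : ℤ) ≤ X := by rw [h2]; linarith [ha.1.1]
      exact_mod_cast h3
    · rw [Int.natCast_natAbs, sq_abs]
      linarith [sq r]
  exact (card_le_card h1).trans (card_image_le.trans (by rw [card_range]))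

/-- one polynomial: all scales at once -/
def S_EEM : Prop := ∀ ε : ℝ, 0 < ε → ∃ T : ℝ, 0 < T ∧ ∀ C : ℕ, ∃ B X₀ : ℕ, ∀ X : ℕ, X₀ ≤ X → ∀ m₀ M : ℕ,
  (X : ℝ) ^ (1 / 3 : ℝ) * Real.log X ^ B ≤ M → (m₀ : ℝ) + M ≤ √X * Real.log X ^ C →
  ∃ Bad ⊆ Icc (-(X : ℤ)) X ×ˢ Ioc m₀ (m₀ + M), (#Bad : ℝ) ≤ ε * (X * M) ∧
    ∀ a ∈ Icc (-(X : ℤ)) X, ∀ m ∈ Ioc m₀ (m₀ + M), (a, m) ∉ Bad →
      ¬ IsSquare (-a) ∧ ∃ h : ℝ, 0 < h ∧ Tendsto (fun z : ℕ => hprod a z) atTop (𝓝 h) ∧
        ∀ H : ℕ, T * Real.log X ≤ H → (H : ℝ) ≤ √X * Real.log X ^ C →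
          |(Run7.h757.CR.P a m H : ℝ) - h * Run7.h757.CR.Wt a m H| ≤ ε * (h * Run7.h757.CR.Wt a m H)

open Classical in
theorem eem_all : S_EEM := by
  intro ε hε
  obtain ⟨T, hT, h1⟩ := sysm_all 1 le_rfl (ε / 2) (by positivity)
  refine ⟨T, hT, fun C => ?_⟩
  obtain ⟨B, X₀, h2⟩ := h1 C
  obtain ⟨X1, hX1⟩ := exists_nat_ge ((4 / ε) ^ 2 + 1)
  refine ⟨B, X₀ + X1, fun X hX m₀ M hM hW => ?_⟩
  obtain ⟨Bad, hB1, hB2, hB3⟩ := h2 X (by omega) m₀ M hM hW
  have hXr : (4 / ε) ^ 2 + 1 ≤ (X : ℝ) := hX1.trans (by exact_mod_cast (by omega : X1 ≤ X))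
  have hXp : (1 : ℝ) ≤ X := by
    have : 0 ≤ (4 / ε) ^ 2 := sq_nonneg _
    linarith
  have hsq : (#((Icc (-(X : ℤ)) X).filter (fun a => IsSquare (-a))) : ℝ) ≤ ε / 2 * X := by
    have h3 : (#((Icc (-(X : ℤ)) X).filter (fun a => IsSquare (-a))) : ℝ) ≤ Nat.sqrt X + 1 := by
      exact_mod_cast card_sq X
    have h4 : (Nat.sqrt X : ℝ) ≤ √X := Real.nat_sqrt_le_real_sqrt
    have h5 : 4 / ε ≤ √(X : ℝ) := by
      apply Real.le_sqrt_of_sq_le
      linarith
    have h6 : √(X : ℝ) * √X = X := Real.mul_self_sqrt (by linarith)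
    have h7 : 1 ≤ √(X : ℝ) := by rw [Real.one_le_sqrt]; exact hXp
    rw [div_le_iff₀ hε] at h5
    have h8 : 2 * √(X : ℝ) ≤ ε / 2 * (√X * √X) := by nlinarith
    rw [h6] at h8
    linarith
  refine ⟨(Bad.image (fun p => (p.1 0, p.2))) ∪ ((Icc (-(X : ℤ)) X).filter (fun a => IsSquare (-a))) ×ˢ Ioc m₀ (m₀ + M),
    ?_, ?_, ?_⟩
  · intro p hp
    rw [mem_union] at hp
    rcases hp with hp | hp
    · rw [mem_image] at hp
      obtain ⟨q, hq, rfl⟩ := hp
      have h3 := mem_product.1 (hB1 hq)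
      have h4 := Fintype.mem_piFinset.1 h3.1 0
      exact mem_product.2 ⟨h4, h3.2⟩
    · rw [mem_product, mem_filter] at hp
      exact mem_product.2 ⟨hp.1.1, hp.2⟩
  · have h3 := card_union_le (Bad.image (fun p => (p.1 0, p.2)))
      (((Icc (-(X : ℤ)) X).filter (fun a => IsSquare (-a))) ×ˢ Ioc m₀ (m₀ + M))
    have h4 : #(Bad.image (fun p : (Fin 1 → ℤ) × ℕ => (p.1 0, p.2))) ≤ #Bad := card_image_le
    rw [card_product, Nat.card_Ioc, Nat.add_sub_cancel_left] at h3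
    have h5 : (#((Bad.image (fun p => (p.1 0, p.2))) ∪
        ((Icc (-(X : ℤ)) X).filter (fun a => IsSquare (-a))) ×ˢ Ioc m₀ (m₀ + M)) : ℝ) ≤
        #Bad + #((Icc (-(X : ℤ)) X).filter (fun a => IsSquare (-a))) * M := by
      exact_mod_cast h3.trans (by omega)
    refine h5.trans ?_
    rw [pow_one] at hB2
    have h6 := mul_le_mul_of_nonneg_right hsq (Nat.cast_nonneg M)
    linarith
  · intro a ha m hm hbad
    rw [mem_union, not_or] at hbad
    have hn : (fun _ : Fin 1 => a, m) ∉ Bad := fun h => hbad.1 (mem_image.2 ⟨_, h, rfl⟩)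
    have hs : ¬ IsSquare (-a) := fun h => hbad.2 (mem_product.2 ⟨mem_filter.2 ⟨ha, h⟩, hm⟩)
    obtain ⟨h, hh, hlim, hH⟩ := hB3 (fun _ => a) (Fintype.mem_piFinset.2 fun _ => ha) m hm hn (adm_one a)
    refine ⟨hs, h, hh, ?_, fun H hTH hHX => ?_⟩
    · refine hlim.congr fun N => ?_
      exact SS_one a N
    · have h4 := hH H (by rw [pow_one]; exact hTH) hHX
      have eP : P (fun _ : Fin 1 => a) m H = Run7.h757.CR.P a m H := by
        unfold P Run7.h757.CR.P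
        congr 1
        ext n
        simp
      have eW : W (fun _ : Fin 1 => a) m H = Run7.h757.CR.Wt a m H := by
        unfold W Run7.h757.CR.Wt
        refine sum_congr rfl fun n _ => ?_
        simp [Pool.Agent.TH892.SW.wt]
      rw [eP, eW] at h4
      refine h4.trans ?_
      have h5 : 0 ≤ h * Run7.h757.CR.Wt a m H := by
        rw [← eW]
        have : 0 ≤ W (fun _ : Fin 1 => a) m H := by
          unfold W
          exact sum_nonneg fun _ _ => prod_nonneg fun _ _ => Pool.Agent.TH892.SW.wt_nonneg _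
        positivity
      nlinarith

end Run7.h285.S
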