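import Pool.Agent.Run7.h285.S.SYSa
import Pool.Agent.Run7.h285.E2b

/-!
# Project SYS, the assembly
-/

set_option autoImplicit false

namespace Run7.h285.S

open Finset Filter Topology
open Pool.Agent.H373R2.T7 (pz Vz lamz mem_pz Vz_ge Vz_inv_le Vz_le_one Vz_inv_small)
open Pool.Agent.TH892.SW (ff wt wt_nonneg wt_le)
open Pool.Agent.TH892.OW (evt_ll)
open Run7.h285.E3 (ff_two wt_le')
open Pool.Agent.H442R2.EHI (evt_log_pow evt_log_ge)

lemma MM_eq (k : ℕ) (G : (Fin k → ℤ) → ℕ → ℝ) (X m₀ M H : ℕ) : MM k G X m₀ M H = MG (Bx k X) G m₀ M H := rfl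

/-- the second moments of the primes minus the model for all lengths -/
theorem mom_1 (k : ℕ) (h1 : S_SM1 k) (θ : ℝ) (hθ : 0 < θ) : ∃ T : ℝ, 1 ≤ T ∧ ∀ C : ℕ, ∃ E1 : ℕ, ∀ E : ℕ, E1 ≤ E →
    ∃ B X₀ : ℕ, ∀ X : ℕ, X₀ ≤ X → ∀ m₀ M H : ℕ, (X : ℝ) ^ (1 / 3 : ℝ) * Real.log X ^ B ≤ M →
      (m₀ : ℝ) + M ≤ √X * Real.log X ^ C → T * Real.log X ^ k ≤ H → H ≤ M →
      MM k (fun a n => pr (fun _ => uu) a n - pr (fun _ => vv ⌊Real.log X ^ E⌋₊) a n) X m₀ M H ≤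
        (X : ℝ) ^ k * M * (((H : ℝ) / Real.log X ^ k) ^ 2 * θ) := by
  obtain ⟨K₀, hK, h1⟩ := h1
  refine ⟨2 * K₀ / θ + 1, by have : 0 < 2 * K₀ / θ := by positivity
                             linarith, fun C => ?_⟩
  obtain ⟨E1, h1⟩ := h1 (2 * k + 1) (C + 1) (k + 2)
  refine ⟨E1, fun E hE => ?_⟩
  obtain ⟨B, X1, h1⟩ := h1 E hE
  obtain ⟨X2, hX2⟩ := eventually_atTop.1 ((evt_log_ge 10000).and (evt_log_ge (16 * K₀ / θ)))
  refine ⟨B, max X1 X2, fun X hX m₀ M H hM hW hT hHM => ?_⟩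
  obtain ⟨hl, hlK⟩ := hX2 X (le_trans (le_max_right _ _) hX)
  have h2 := fun m₁ r hr hr3 hW1 => h1 X (le_trans (le_max_left _ _) hX) m₁ M r hr hr3 hM hW1
  clear h1 hX2 hX
  generalize Real.log X = l at *
  have hl0 : 0 < l := by linarith
  have hl1 : 1 ≤ l := by linarith
  have hlk : 0 < l ^ k := by positivity
  have hW2 : (m₀ : ℝ) + H + M ≤ √X * l ^ (C + 1) := by
    have hHM' : (H : ℝ) ≤ M := by exact_mod_cast hHM
    have h3 : 0 ≤ √(X : ℝ) * l ^ C := by positivity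
    have hm0 : (0 : ℝ) ≤ m₀ := Nat.cast_nonneg _
    calc (m₀ : ℝ) + H + M ≤ 2 * (√X * l ^ C) := by linarith
      _ ≤ l * (√X * l ^ C) := mul_le_mul_of_nonneg_right (by linarith) h3
      _ = _ := by ring
  have hXM : 0 ≤ (X : ℝ) ^ k * M := by positivity
  have hq : 2 * K₀ / θ + 1 ≤ (H : ℝ) / l ^ k := by rw [le_div_iff₀ hlk]; exact hT
  have hH1 : 1 ≤ H := by
    have h3 : (0 : ℝ) < H := by
      have : 0 < 2 * K₀ / θ := by positivity
      have : 0 < (2 * K₀ / θ + 1) * l ^ k := by positivity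
      linarith
    exact_mod_cast h3
  have hKl : 16 * K₀ ≤ θ * l := by rw [div_le_iff₀ hθ] at hlK; linarith
  rcases le_or_gt (H : ℝ) (l ^ (k + 2)) with h3 | h3
  · refine (h2 m₀ H hH1 h3 ?_).trans ?_
    · have : (0 : ℝ) ≤ H := Nat.cast_nonneg _
      linarith
    · apply mul_le_mul_of_nonneg_left _ hXM
      set q := (H : ℝ) / l ^ k with hqd
      have hq0 : 0 < q := by
        have : 0 < 2 * K₀ / θ := by positivity
        linarith
      have e1 : K₀ * H / l ^ k = K₀ * q := by rw [hqd]; ring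
      have e2 : (H : ℝ) ^ 2 / l ^ (2 * k + 1) = q ^ 2 / l := by
        have e3 : l ^ (2 * k + 1) = (l ^ k) ^ 2 * l := by ring
        rw [hqd, e3, div_pow, div_div]
      rw [e1, e2]
      have h4 : K₀ * q ≤ q ^ 2 * (θ / 2) := by
        have h5 : 2 * K₀ / θ ≤ q := by linarith
        rw [div_le_iff₀ hθ] at h5
        nlinarith
      have h6 : q ^ 2 / l ≤ q ^ 2 * (θ / 2) := by
        rw [div_le_iff₀ hl0]
        have h7 : 1 ≤ θ / 2 * l := by linarith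
        have h8 : 0 ≤ q ^ 2 := sq_nonneg q
        nlinarith
      linarith
  · obtain ⟨H₁, hH₁⟩ : ∃ H₁, H₁ = ⌊l ^ (k + 2)⌋₊ := ⟨_, rfl⟩
    have a1 : (H₁ : ℝ) ≤ l ^ (k + 2) := by rw [hH₁]; exact Nat.floor_le (by positivity)
    have a2 : l ^ k * l ≤ (H₁ : ℝ) := by
      have h4 := Nat.lt_floor_add_one (l ^ (k + 2))
      rw [← hH₁] at h4
      have h5 : l ^ (k + 2) = l ^ k * l * l := by ring
      have h6 : 1 ≤ l ^ k * l := by
        have := one_le_pow₀ hl1 (n := k + 1)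
        rwa [pow_succ] at this
      nlinarith
    have a3 : H₁ ≤ H := by
      have : (H₁ : ℝ) ≤ H := by linarith
      exact_mod_cast this
    have a4 : (0 : ℝ) < H₁ := lt_of_lt_of_le (by positivity) a2
    have a5 : 1 ≤ H₁ := by exact_mod_cast a4
    have h4 := MG_long (Bx k X) (fun a n => pr (fun _ => uu) a n - pr (fun _ => vv ⌊l ^ E⌋₊) a n) M H₁
      ((X : ℝ) ^ k * M * (K₀ * H₁ / l ^ k + (H₁ : ℝ) ^ 2 / l ^ (2 * k + 1))) (√X * l ^ (C + 1)) a5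
      (by positivity) (by
        intro m₁ r hr hr1 hW1
        have hr' : (r : ℝ) ≤ H₁ := by exact_mod_cast hr1
        refine (h2 m₁ r hr (by linarith) hW1).trans ?_
        gcongr) m₀ H a3 hW2
    rw [MM_eq]
    refine h4.trans ?_
    have e1 : 4 * ((H : ℝ) / H₁) ^ 2 * ((X : ℝ) ^ k * M * (K₀ * H₁ / l ^ k + (H₁ : ℝ) ^ 2 / l ^ (2 * k + 1))) =
        (X : ℝ) ^ k * M * (((H : ℝ) / l ^ k) ^ 2 * (4 * K₀ * l ^ k / H₁ + 4 / l)) := by
      have e3 : l ^ (2 * k + 1) = l ^ k * l ^ k * l := by ring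
      rw [e3]
      field_simp
    rw [e1]
    apply mul_le_mul_of_nonneg_left _ hXM
    apply mul_le_mul_of_nonneg_left _ (sq_nonneg _)
    have h5 : 4 * K₀ * l ^ k / H₁ ≤ θ / 2 := by
      rw [div_le_iff₀ a4]
      have c1 : θ / 2 * (l ^ k * l) ≤ θ / 2 * H₁ := mul_le_mul_of_nonneg_left a2 (by positivity)
      have c2 : 4 * K₀ * l ^ k ≤ θ / 2 * (l ^ k * l) := by
        have : 4 * K₀ ≤ θ / 2 * l := by linarith
        have := mul_le_mul_of_nonneg_right this hlk.le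
        linarith
      linarith
    have h6 : 4 / l ≤ θ / 2 := by
      rw [div_le_iff₀ hl0]
      linarith
    linarith

/-- the second moments of the difference of two models for all lengths -/
theorem mom_2 (k : ℕ) (hk : 1 ≤ k) (h1 : S_SM2 k) (θ : ℝ) (hθ : 0 < θ) (C E u : ℕ) (hE : 1 ≤ E) (hu : 1 ≤ u) :
    ∃ X₀ : ℕ, ∀ X : ℕ, X₀ ≤ X → ∀ m₀ M H : ℕ, (X : ℝ) ^ (1 / 3 : ℝ) ≤ M →
      (m₀ : ℝ) + M ≤ √X * Real.log X ^ C → Real.log X ^ k ≤ H → H ≤ M →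
      MM k (fun a n => pr (fun _ => ll ⌊Real.log X ^ E⌋₊) a n - pr (fun _ => ll ⌊Real.log X ^ (1 / (u : ℝ))⌋₊) a n) X m₀ M H ≤
        (X : ℝ) ^ k * M * ((H : ℝ) ^ 2 * θ) := by
  obtain ⟨X1, h1⟩ := h1 (C + 1) (k + 2) E u 2 hE hu
  obtain ⟨X2, hX2⟩ := eventually_atTop.1 (((evt_log_ge 10000).and (evt_log_ge ((8 / θ) ^ 2))).and
    (evt_log_ge (Real.exp (8 / θ + 1))))
  refine ⟨max X1 X2, fun X hX m₀ M H hM hW hT hHM => ?_⟩
  obtain ⟨⟨hl, hls⟩, hle⟩ := hX2 X (le_trans (le_max_right _ _) hX)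
  have h2 := fun m₁ r hr hr3 hW1 => h1 X (le_trans (le_max_left _ _) hX) m₁ M r hr hr3 hM hW1
  clear h1 hX2 hX
  have h8 : 0 < 8 / θ := by positivity
  have hm : 8 / θ + 1 ≤ Real.log (Real.log X) := by
    rw [Real.le_log_iff_exp_le (by linarith)]; exact hle
  generalize ⌊Real.log X ^ (1 / (u : ℝ))⌋₊ = w at *
  generalize ⌊Real.log X ^ E⌋₊ = z at *
  generalize Real.log X = l at *
  generalize Real.log l = m at *
  have hl0 : 0 < l := by linarith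
  have hl1 : 1 ≤ l := by linarith
  have hlk : l ≤ l ^ k := le_self_pow₀ hl1 (by omega)
  have hs8 : 8 / θ ≤ √l := Real.le_sqrt_of_sq_le hls
  have hs0 : 0 < √l := by linarith
  have hss : √l * √l = l := Real.mul_self_sqrt hl0.le
  have hm0 : 0 < m := by linarith
  have b1 : 4 / √l ≤ θ / 2 := by
    rw [div_le_iff₀ hs0]
    rw [div_le_iff₀ hθ] at hs8
    linarith
  have b2 : 4 / m ^ 2 ≤ θ / 2 := by
    rw [div_le_iff₀ (by positivity)]
    have h3 : 8 / θ ≤ m ^ 2 := by nlinarith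
    rw [div_le_iff₀ hθ] at h3
    linarith
  have hW2 : (m₀ : ℝ) + H + M ≤ √X * l ^ (C + 1) := by
    have hHM' : (H : ℝ) ≤ M := by exact_mod_cast hHM
    have h3 : 0 ≤ √(X : ℝ) * l ^ C := by positivity
    have hm0 : (0 : ℝ) ≤ m₀ := Nat.cast_nonneg _
    calc (m₀ : ℝ) + H + M ≤ 2 * (√X * l ^ C) := by linarith
      _ ≤ l * (√X * l ^ C) := mul_le_mul_of_nonneg_right (by linarith) h3
      _ = _ := by ring
  have hXM : 0 ≤ (X : ℝ) ^ k * M := by positivity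
  have hlH : l ≤ H := hlk.trans hT
  have hHr : (0 : ℝ) < H := by linarith
  have hH1 : 1 ≤ H := by exact_mod_cast hHr
  rcases le_or_gt (H : ℝ) (l ^ (k + 2)) with h3 | h3
  · refine (h2 m₀ H hH1 h3 ?_).trans ?_
    · linarith
    · apply mul_le_mul_of_nonneg_left _ hXM
      have h4 : (H : ℝ) * √l ≤ (H : ℝ) ^ 2 * (1 / √l) := by
        rw [mul_one_div, le_div_iff₀ hs0]
        have : (H : ℝ) * √l * √l = H * l := by rw [mul_assoc, hss]
        rw [this]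
        nlinarith
      have h5 : (H : ℝ) ^ 2 * (1 / √l) ≤ (H : ℝ) ^ 2 * (θ / 2) := by
        apply mul_le_mul_of_nonneg_left _ (sq_nonneg _)
        have : 1 / √l ≤ 4 / √l := by gcongr; norm_num
        linarith
      have h6 : (H : ℝ) ^ 2 / m ^ 2 ≤ (H : ℝ) ^ 2 * (θ / 2) := by
        rw [div_eq_mul_one_div]
        apply mul_le_mul_of_nonneg_left _ (sq_nonneg _)
        have : 1 / m ^ 2 ≤ 4 / m ^ 2 := by gcongr; norm_num
        linarith
      linarith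
  · obtain ⟨H₁, hH₁⟩ : ∃ H₁, H₁ = ⌊l ^ (k + 2)⌋₊ := ⟨_, rfl⟩
    have a1 : (H₁ : ℝ) ≤ l ^ (k + 2) := by rw [hH₁]; exact Nat.floor_le (by positivity)
    have a2 : l ≤ (H₁ : ℝ) := by
      have h4 := Nat.lt_floor_add_one (l ^ (k + 2))
      rw [← hH₁] at h4
      have h5 : l ^ (k + 2) = l ^ k * l * l := by ring
      have h6 : 1 ≤ l ^ k := one_le_pow₀ hl1
      have h7 : l ≤ l ^ k * l := le_mul_of_one_le_left hl0.le h6
      nlinarith
    have a3 : H₁ ≤ H := by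
      have : (H₁ : ℝ) ≤ H := by linarith
      exact_mod_cast this
    have a4 : (0 : ℝ) < H₁ := by linarith
    have a5 : 1 ≤ H₁ := by exact_mod_cast a4
    have h4 := MG_long (Bx k X) (fun a n => pr (fun _ => ll z) a n - pr (fun _ => ll w) a n) M H₁
      ((X : ℝ) ^ k * M * (H₁ * √l + (H₁ : ℝ) ^ 2 / m ^ 2)) (√X * l ^ (C + 1)) a5
      (by positivity) (by
        intro m₁ r hr hr1 hW1
        have hr' : (r : ℝ) ≤ H₁ := by exact_mod_cast hr1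
        refine (h2 m₁ r hr (by linarith) hW1).trans ?_
        gcongr) m₀ H a3 hW2
    rw [MM_eq]
    refine h4.trans ?_
    have e1 : 4 * ((H : ℝ) / H₁) ^ 2 * ((X : ℝ) ^ k * M * (H₁ * √l + (H₁ : ℝ) ^ 2 / m ^ 2)) =
        (X : ℝ) ^ k * M * ((H : ℝ) ^ 2 * (4 * √l / H₁ + 4 / m ^ 2)) := by
      field_simp
    rw [e1]
    apply mul_le_mul_of_nonneg_left _ hXM
    apply mul_le_mul_of_nonneg_left _ (sq_nonneg _)
    have h5 : 4 * √l / H₁ ≤ 4 / √l := by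
      rw [div_le_div_iff₀ a4 hs0]
      rw [mul_assoc, hss]
      linarith
    linarith

lemma cheb_ar (XM q θ ε eδ D : ℝ) (hq : 0 < q) (he : 0 < eδ) (hθ : θ = ε * eδ ^ 2 / D) (hD : 0 < D) :
    XM * (q ^ 2 * θ) / (eδ * q) ^ 2 = ε / D * XM := by
  rw [hθ]; field_simp

lemma P_eq {k : ℕ} (a : Fin k → ℤ) (m H : ℕ) : (P a m H : ℝ) = ∑ n ∈ Ioc m (m + H), pr (fun _ => uu) a n := by
  unfold P pr uu
  rw [← sum_boole]
  refine sum_congr rfl fun n _ => ?_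
  rw [prod_ite_zero]
  simp

lemma pr_vv {k : ℕ} (z : ℕ) (a : Fin k → ℤ) (n : ℕ) :
    pr (fun _ => vv z) a n = pr (fun _ => ll z) a n * ∏ l, wt ((n : ℤ) ^ 2 + a l).natAbs := by
  unfold pr vv ll
  rw [prod_mul_distrib]

lemma pr_ll_nonneg {k : ℕ} (z : ℕ) (hz : 1 ≤ z) (a : Fin k → ℤ) (n : ℕ) : 0 ≤ pr (fun _ => ll z) a n := by
  unfold pr ll
  exact prod_nonneg fun l _ => Pool.Agent.TH892.SW.lamz_nonneg z _ hz

lemma pr_ll_le {k : ℕ} (z : ℕ) (hz : 1 ≤ z) (a : Fin k → ℤ) (n : ℕ) : pr (fun _ => ll z) a n ≤ ((Vz z)⁻¹) ^ k := by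
  unfold pr ll
  calc ∏ l : Fin k, lamz z ((n : ℤ) ^ 2 + a l).natAbs ≤ ∏ _l : Fin k, (Vz z)⁻¹ :=
        prod_le_prod (fun l _ => Pool.Agent.TH892.SW.lamz_nonneg z _ hz)
          fun l _ => Pool.Agent.TH892.SW.lamz_le z _ hz
    _ = _ := by rw [prod_const, card_univ, Fintype.card_fin]

open Classical in
theorem sys (k : ℕ) (hk : 1 ≤ k) (h1 : S_SM1 k) (h2 : S_SM2 k) (hf : S_FLS k) (h3 : S_HGS k) : S_SYS k := by
  intro ε hε
  obtain ⟨ε₁, hε₁⟩ : ∃ ε₁, ε₁ = min ε 1 / 100 := ⟨_, rfl⟩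
  have hmin : 0 < min ε 1 := lt_min hε one_pos
  have he0 : 0 < ε₁ := by rw [hε₁]; positivity
  have he1 : 12 * ε₁ ≤ ε := by rw [hε₁]; have := min_le_left ε 1; linarith
  have he2 : ε₁ ≤ 1 / 100 := by rw [hε₁]; have := min_le_right ε 1; linarith
  obtain ⟨δ0, hδ0, hHG⟩ := h3 (ε / 4) (by positivity)
  obtain ⟨C1, y0, hC1, hy0, hfl⟩ := hf
  obtain ⟨ε₂, he20, he21⟩ := pow_small k ε₁ he0
  obtain ⟨b, hb1, hb2⟩ : ∃ b : ℕ, C1 ≤ b ∧ 2 * (1 / 2 : ℝ) ^ b ≤ ε₁ := by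
    obtain ⟨n, hn⟩ := exists_pow_lt_of_lt_one (show (0 : ℝ) < ε₁ / 2 by positivity) (show (1 / 2 : ℝ) < 1 by norm_num)
    refine ⟨C1 + n, by omega, ?_⟩
    have h4 : (1 / 2 : ℝ) ^ (C1 + n) ≤ (1 / 2 : ℝ) ^ n := pow_le_pow_of_le_one (by norm_num) (by norm_num) (by omega)
    linarith
  obtain ⟨u, hu⟩ : ∃ u, u = C1 * b := ⟨_, rfl⟩
  have hu1 : 1 ≤ u := by rw [hu]; exact Nat.mul_pos (by omega) (by omega)
  have hur : (0 : ℝ) < u := by exact_mod_cast hu1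
  obtain ⟨Xg, hXg⟩ := hHG ε₁ he0 u hu1
  obtain ⟨θ, hθ⟩ : ∃ θ, θ = ε * (ε₁ * δ0) ^ 2 / 8 := ⟨_, rfl⟩
  have hθ0 : 0 < θ := by rw [hθ]; positivity
  obtain ⟨T, hT, hff⟩ := mom_1 k h1 θ hθ0
  refine ⟨T, by linarith, fun C => ?_⟩
  obtain ⟨E1, hff⟩ := hff C
  obtain ⟨E, hE⟩ : ∃ E, E = E1 + 1 := ⟨_, rfl⟩
  obtain ⟨B, Xa, hff⟩ := hff E (by omega)
  obtain ⟨Xb, hfz⟩ := mom_2 k hk h2 θ hθ0 C E u (by omega) hu1
  obtain ⟨Xc, hVz⟩ := Run7.h285.E2.Vz_sqrt E (by omega)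
  obtain ⟨Xd, hwc⟩ := wt_close (2 * k + 4) (2 * C + 1) ε₂ he20
  have hev : ∀ᶠ X : ℕ in atTop, (10000 + 16 * (k * 3 ^ k) / ε + 2 ^ (k + 1) / (ε₁ * δ0) + 2 ^ (k + 1) / ε₁ : ℝ) ≤ Real.log X ∧
      ((y0 : ℝ) + 1) * Real.log (Real.log X) ^ 0 ≤ Real.log X ^ (1 / (u : ℝ)) ∧
      Real.log X ^ (2 * k + 4) ≤ (X : ℝ) ^ (1 : ℝ) := by
    filter_upwards [evt_log_ge _, evt_ll 0 (1 / (u : ℝ)) (y0 + 1) (by positivity),
      evt_log_pow (2 * k + 4) 1 (by norm_num)] with X a1 a2 a3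
    exact ⟨a1, a2, a3⟩
  obtain ⟨Xe, hXe⟩ := eventually_atTop.1 hev
  refine ⟨B, Xg + Xa + Xb + Xc + Xd + Xe, fun X hX m₀ M H hM hW hTH hHM => ?_⟩
  obtain ⟨BadG, -, hBadG, hgood⟩ := hXg X (by omega)
  have hff := hff X (by omega) m₀ M H hM hW hTH hHM
  have hVz := hVz X (by omega)
  have hwc := hwc X (by omega)
  obtain ⟨hl, hlu, hlX⟩ := hXe X (by omega)
  have p1 : 0 ≤ 16 * ((k : ℝ) * 3 ^ k) / ε := by positivity
  have p2 : 0 < 2 ^ (k + 1) / (ε₁ * δ0) := by positivity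
  have p3 : 0 < 2 ^ (k + 1) / ε₁ := by positivity
  have hl1' : 1 ≤ Real.log X := by linarith
  have hTH' : Real.log X ^ k ≤ H := by
    have : 1 * Real.log X ^ k ≤ T * Real.log X ^ k := mul_le_mul_of_nonneg_right hT (by positivity)
    linarith
  have hM3 : (X : ℝ) ^ (1 / 3 : ℝ) ≤ M := by
    refine le_trans ?_ hM
    exact le_mul_of_one_le_right (by positivity) (one_le_pow₀ hl1')
  have hfz := hfz X (by omega) m₀ M H hM3 hW hTH' hHM
  clear hXg hXe hev h1 h2 h3 hHG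
  rw [pow_zero, mul_one] at hlu
  rw [Real.rpow_one] at hlX
  have hXp : 1 ≤ X := by
    rcases Nat.eq_zero_or_pos X with h | h
    · rw [h] at hl1'; norm_num at hl1'
    · exact h
  obtain ⟨w, hw⟩ : ∃ w, w = ⌊Real.log X ^ (1 / (u : ℝ))⌋₊ := ⟨_, rfl⟩
  obtain ⟨z, hz⟩ : ∃ z, z = ⌊Real.log X ^ E⌋₊ := ⟨_, rfl⟩
  rw [← hz] at hff hfz hVz
  rw [← hw] at hfz hgood
  clear hM hM3
  generalize Real.log X = l at *
  have hl0 : 0 < l := by linarith
  have hlk0 : 0 < l ^ k := by positivity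
  have hlk1 : 1 ≤ l ^ k := one_le_pow₀ hl1'
  have hllk : l ≤ l ^ k := le_self_pow₀ hl1' (by omega)
  have hwl : (w : ℝ) ≤ l ^ (1 / (u : ℝ)) := by rw [hw]; exact Nat.floor_le (by positivity)
  have hwy : y0 ≤ w := by
    have h4 := Nat.lt_floor_add_one (l ^ (1 / (u : ℝ)))
    rw [← hw] at h4
    have h5 : (y0 : ℝ) < w := by linarith
    exact_mod_cast h5.le
  have hw2 : 2 ≤ w := by omega
  have hwu : ((w ^ (C1 * b) : ℕ) : ℝ) ≤ l := by
    rw [← hu]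
    push_cast
    calc (w : ℝ) ^ u ≤ (l ^ (1 / (u : ℝ))) ^ u := pow_le_pow_left₀ (Nat.cast_nonneg _) hwl u
      _ = l := by
          rw [← Real.rpow_natCast, ← Real.rpow_mul hl0.le, one_div, inv_mul_cancel₀ hur.ne', Real.rpow_one]
  have hwH : w ^ (C1 * b) ≤ H := by
    have : ((w ^ (C1 * b) : ℕ) : ℝ) ≤ H := hwu.trans (hllk.trans hTH')
    exact_mod_cast this
  have hz2 : 2 ≤ z := by
    have h4 := Nat.lt_floor_add_one (l ^ E)
    rw [← hz] at h4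
    have h5 : l ≤ l ^ E := le_self_pow₀ hl1' (by omega)
    have h6 : (2 : ℝ) ≤ z := by linarith
    exact_mod_cast h6
  have hX1 : (1 : ℝ) ≤ X := by exact_mod_cast hXp
  have hX0 : (0 : ℝ) < X := by linarith
  have hH0 : (0 : ℝ) < H := by linarith
  have hHMr : (H : ℝ) ≤ M := by exact_mod_cast hHM
  have hM0 : (0 : ℝ) < M := by linarith
  have hXM : 0 < (X : ℝ) ^ k * M := by positivity
  obtain ⟨S, hS⟩ : ∃ S, S = Bx k X ×ˢ Ioc m₀ (m₀ + M) := ⟨_, rfl⟩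
  obtain ⟨lam1, hlam1⟩ : ∃ x, x = (ε₁ * δ0) * ((H : ℝ) / l ^ k) := ⟨_, rfl⟩
  obtain ⟨lam2, hlam2⟩ : ∃ x, x = (ε₁ * δ0) * (H : ℝ) := ⟨_, rfl⟩
  have hlam1p : 0 < lam1 := by rw [hlam1]; positivity
  have hlam2p : 0 < lam2 := by rw [hlam2]; positivity
  -- counting
  have c1 : (#(S.filter (fun p => p.1 ∈ BadG)) : ℝ) ≤ ε / 4 * ((X : ℝ) ^ k * M) := by
    have h4 : S.filter (fun p => p.1 ∈ BadG) ⊆ BadG ×ˢ Ioc m₀ (m₀ + M) := by
      intro p hp
      rw [mem_filter, hS, mem_product] at hp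
      exact mem_product.2 ⟨hp.2, hp.1.2⟩
    have h5 := card_le_card h4
    rw [card_product, Nat.card_Ioc, Nat.add_sub_cancel_left] at h5
    have h6 : (#(S.filter (fun p => p.1 ∈ BadG)) : ℝ) ≤ #BadG * M := by exact_mod_cast h5
    refine h6.trans ?_
    calc (#BadG : ℝ) * M ≤ (ε / 4 * (X : ℝ) ^ k) * M := mul_le_mul_of_nonneg_right hBadG hM0.le
      _ = _ := by ring
  have cff : (#(S.filter (fun p => lam1 < |∑ n ∈ Ioc p.2 (p.2 + H),
      (pr (fun _ => uu) p.1 n - pr (fun _ => vv z) p.1 n)|)) : ℝ) ≤ ε / 8 * ((X : ℝ) ^ k * M) := by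
    rw [hS]
    refine (cheb (Bx k X) (Ioc m₀ (m₀ + M)) (fun a m => ∑ n ∈ Ioc m (m + H), (pr (fun _ => uu) a n - pr (fun _ => vv z) a n))
      lam1 _ hlam1p hff).trans (le_of_eq ?_)
    rw [hlam1]
    exact cheb_ar ((X : ℝ) ^ k * M) (H / l ^ k) θ ε (ε₁ * δ0) 8 (by positivity) (by positivity) hθ (by norm_num)
  have cfz : (#(S.filter (fun p => lam2 < |∑ n ∈ Ioc p.2 (p.2 + H),
      (pr (fun _ => ll z) p.1 n - pr (fun _ => ll w) p.1 n)|)) : ℝ) ≤ ε / 8 * ((X : ℝ) ^ k * M) := by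
    rw [hS]
    refine (cheb (Bx k X) (Ioc m₀ (m₀ + M)) (fun a m => ∑ n ∈ Ioc m (m + H), (pr (fun _ => ll z) a n - pr (fun _ => ll w) a n))
      lam2 _ hlam2p hfz).trans (le_of_eq ?_)
    rw [hlam2]
    exact cheb_ar ((X : ℝ) ^ k * M) H θ ε (ε₁ * δ0) 8 hH0 (by positivity) hθ (by norm_num)
  have cnn : (#(S.filter (fun p => (H : ℝ) / l ^ (2 * k + 2) < (nn p.1 p.2 H ((X : ℝ) / l ^ (2 * k + 4)) : ℝ))) : ℝ) ≤
      ε / 4 * ((X : ℝ) ^ k * M) := by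
    rw [hS]
    refine (near k X m₀ M H ((X : ℝ) / l ^ (2 * k + 4)) ((H : ℝ) / l ^ (2 * k + 2)) (by positivity) (by positivity)).trans ?_
    have e : (M : ℝ) * (H * (k * ((2 * ((X : ℝ) / l ^ (2 * k + 4)) + 1) * (2 * X + 1) ^ (k - 1)))) / ((H : ℝ) / l ^ (2 * k + 2)) =
        M * (k * ((2 * X / l ^ 2 + l ^ (2 * k + 2)) * (2 * X + 1) ^ (k - 1))) := by
      have e2 : l ^ (2 * k + 4) = l ^ (2 * k + 2) * l ^ 2 := by ring
      rw [e2]
      field_simp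
    rw [e]
    have h7 : (2 * (X : ℝ) + 1) ^ (k - 1) ≤ 3 ^ k * X ^ (k - 1) := by
      calc (2 * (X : ℝ) + 1) ^ (k - 1) ≤ (3 * X) ^ (k - 1) := pow_le_pow_left₀ (by positivity) (by linarith) _
        _ = 3 ^ (k - 1) * X ^ (k - 1) := by rw [mul_pow]
        _ ≤ 3 ^ k * X ^ (k - 1) := by
            gcongr
            · norm_num
            · omega
    have h8 : 2 * X / l ^ 2 + l ^ (2 * k + 2) ≤ 3 * X / l ^ 2 := by
      have h9 : l ^ (2 * k + 2) ≤ X / l ^ 2 := by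
        rw [le_div_iff₀ (by positivity), ← pow_add]
        exact hlX
      have h10 : 2 * (X : ℝ) / l ^ 2 + X / l ^ 2 = 3 * X / l ^ 2 := by ring
      linarith
    have h9 : 3 * (X : ℝ) / l ^ 2 * (k * 3 ^ k) ≤ ε / 4 * X := by
      have h4 : 16 * ((k : ℝ) * 3 ^ k) / ε ≤ l := by linarith
      rw [div_le_iff₀ hε] at h4
      have h6 : l ≤ l ^ 2 := le_self_pow₀ hl1' (by norm_num)
      rw [div_mul_eq_mul_div, div_le_iff₀ (by positivity)]
      have h10 : 16 * ((k : ℝ) * 3 ^ k) ≤ l ^ 2 * ε := h4.trans (mul_le_mul_of_nonneg_right h6 hε.le)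
      have h11 := mul_le_mul_of_nonneg_right h10 hX0.le
      have h12 : 0 ≤ (k : ℝ) * 3 ^ k * X := by positivity
      nlinarith
    have h13 : (X : ℝ) ^ k = X * X ^ (k - 1) := by rw [← pow_succ', Nat.sub_add_cancel hk]
    calc (M : ℝ) * (k * ((2 * X / l ^ 2 + l ^ (2 * k + 2)) * (2 * X + 1) ^ (k - 1)))
        ≤ M * (k * ((3 * X / l ^ 2) * (3 ^ k * X ^ (k - 1)))) := by gcongr
      _ = M * ((3 * (X : ℝ) / l ^ 2 * (k * 3 ^ k)) * X ^ (k - 1)) := by ring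
      _ ≤ M * ((ε / 4 * X) * X ^ (k - 1)) := by gcongr
      _ = _ := by rw [h13]; ring
  have c2 := card_or S _ _ _ _ c1 (card_or S _ _ _ _ cff (card_or S _ _ _ _ cfz cnn))
  refine ⟨_, ?_, c2.trans ?_, ?_⟩
  · rw [← hS]; exact filter_subset _ _
  · have : 0 ≤ ε * ((X : ℝ) ^ k * M) := by positivity
    linarith
  · intro a ha m hm hbad hadm
    rw [mem_filter] at hbad
    push Not at hbad
    obtain ⟨g1, g2, g4, g6⟩ := hbad (by rw [hS]; exact mem_product.2 ⟨ha, hm⟩)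
    simp only at g1 g2 g4 g6
    obtain ⟨h, hδh, hlim, hhw⟩ := hgood a ha g1 hadm
    have hh0 : 0 < h := by linarith
    refine ⟨h, hh0, hlim, ?_⟩
    have hP0 : 0 ≤ SS a w := by
      have h4 := (abs_le.1 hhw).1
      have h5 : ε₁ * h ≤ 1 / 100 * h := mul_le_mul_of_nonneg_right he2 hh0.le
      linarith
    have hfl1 := hfl b hb1 w hwy H hwH a m hadm
    have hQ : |∑ n ∈ Ioc m (m + H), pr (fun _ => ll w) a n - H * SS a w| ≤ ε₁ * SS a w * H := by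
      refine hfl1.trans ?_
      apply mul_le_mul_of_nonneg_right _ hH0.le
      exact mul_le_mul_of_nonneg_right hb2 hP0
    have hVzl : ((Vz z)⁻¹) ^ k ≤ l ^ k := by
      apply pow_le_pow_left₀ (inv_nonneg.2 (Pool.Agent.TH892.OW.Vz_pos z).le)
      have h4 : √l ≤ l := by rw [Real.sqrt_le_left hl0.le]; nlinarith
      have h5 := inv_pos.2 (Pool.Agent.TH892.OW.Vz_pos z)
      linarith
    -- the weights
    have hwn : ∀ n ∈ Ioc m (m + H), (∀ i, (X : ℝ) / l ^ (2 * k + 4) ≤ (((n : ℤ) ^ 2 + a i).natAbs : ℝ)) →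
        |∏ i, wt ((n : ℤ) ^ 2 + a i).natAbs - 1 / l ^ k| ≤ ε₁ * (1 / l ^ k) := by
      intro n hn hκ
      have h4 := prod_close (univ : Finset (Fin k)) (fun i => wt ((n : ℤ) ^ 2 + a i).natAbs) (1 / l) ε₂ (by positivity)
        he20.le (by
          intro i _
          refine hwc _ (hκ i) ?_
          rw [mem_Ioc] at hn hm
          have hai := Fintype.mem_piFinset.1 ha i
          rw [mem_Icc] at hai
          have h4 : (((n : ℤ) ^ 2 + a i).natAbs : ℝ) ≤ (n : ℝ) ^ 2 + X := by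
            have h5 : ((n : ℤ) ^ 2 + a i).natAbs ≤ n ^ 2 + X := by
              have h6 : (0 : ℤ) ≤ (n : ℤ) ^ 2 := sq_nonneg _
              have h7 : (((n ^ 2 : ℕ) : ℤ)) = (n : ℤ) ^ 2 := by push_cast; rfl
              omega
            exact_mod_cast h5
          refine h4.trans ?_
          have h5 : (n : ℝ) ≤ 2 * (√X * l ^ C) := by
            have h6 : (n : ℝ) ≤ m + H := by exact_mod_cast hn.2
            have h7 : (m : ℝ) ≤ m₀ + M := by exact_mod_cast hm.2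
            have h8 : (0 : ℝ) ≤ m₀ := Nat.cast_nonneg _
            linarith
          have h6 : (n : ℝ) ^ 2 ≤ (2 * (√X * l ^ C)) ^ 2 := pow_le_pow_left₀ (Nat.cast_nonneg _) h5 2
          have h7 : (2 * (√(X : ℝ) * l ^ C)) ^ 2 = 4 * (X * l ^ (2 * C)) := by
            rw [mul_pow, mul_pow, Real.sq_sqrt hX0.le, ← pow_mul, mul_comm C 2]; norm_num
          have h8 : 1 ≤ l ^ (2 * C) := one_le_pow₀ hl1'
          have h9 : (X : ℝ) ≤ X * l ^ (2 * C) := le_mul_of_one_le_right hX0.le h8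
          have h10 : (X : ℝ) * l ^ (2 * C + 1) = l * (X * l ^ (2 * C)) := by ring
          have h11 : 5 * ((X : ℝ) * l ^ (2 * C)) ≤ l * (X * l ^ (2 * C)) :=
            mul_le_mul_of_nonneg_right (by linarith) (by positivity)
          rw [h10]
          linarith)
      rw [card_univ, Fintype.card_fin, one_div, inv_pow, ← one_div] at h4
      refine h4.trans ?_
      exact mul_le_mul_of_nonneg_right he21 (by positivity)
    have hc1 : 1 / l ^ k ≤ 1 := by rw [div_le_one hlk0]; exact hlk1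
    have e3 := sum_near a m H ((X : ℝ) / l ^ (2 * k + 4)) (1 / l ^ k) ε₁ (((Vz z)⁻¹) ^ k) (fun n => pr (fun _ => ll z) a n)
      (fun n => pr_ll_nonneg z (by omega) a n) (fun n => pr_ll_le z (by omega) a n) (by positivity) hc1 he0.le hwn
    have e4 := sum_near a m H ((X : ℝ) / l ^ (2 * k + 4)) (1 / l ^ k) ε₁ 1 (fun _ => 1)
      (fun _ => zero_le_one) (fun _ => le_rfl) (by positivity) hc1 he0.le hwn
    have e5 : ∑ n ∈ Ioc m (m + H), (1 : ℝ) = H := by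
      rw [sum_const, Nat.card_Ioc, nsmul_eq_mul, mul_one, Nat.add_sub_cancel_left]
    have e6 : ∑ n ∈ Ioc m (m + H), 1 * ∏ i, wt ((n : ℤ) ^ 2 + a i).natAbs = W a m H := by
      unfold W
      exact sum_congr rfl fun n _ => one_mul _
    rw [e5, e6] at e4
    have hPe : (P a m H : ℝ) = ∑ n ∈ Ioc m (m + H), (pr (fun _ => uu) a n - pr (fun _ => vv z) a n) +
        ∑ n ∈ Ioc m (m + H), pr (fun _ => ll z) a n * ∏ i, wt ((n : ℤ) ^ 2 + a i).natAbs := by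
      rw [P_eq, sum_sub_distrib]
      have : ∑ n ∈ Ioc m (m + H), pr (fun _ => vv z) a n =
          ∑ n ∈ Ioc m (m + H), pr (fun _ => ll z) a n * ∏ i, wt ((n : ℤ) ^ 2 + a i).natAbs :=
        sum_congr rfl fun n _ => pr_vv z a n
      rw [this]; ring
    -- bounds for the number of small values
    have hpow : l ≤ l ^ (k + 1) := le_self_pow₀ hl1' (by omega)
    have n1 : 2 ^ (k + 1) * (nn a m H ((X : ℝ) / l ^ (2 * k + 4)) : ℝ) * ((Vz z)⁻¹) ^ k ≤ ε₁ * (h * ((H : ℝ) / l ^ k)) := by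
      have h4 : 2 ^ (k + 1) / (ε₁ * δ0) ≤ l := by linarith
      rw [div_le_iff₀ (by positivity)] at h4
      have hVk : 0 ≤ ((Vz z)⁻¹) ^ k := pow_nonneg (inv_nonneg.2 (Pool.Agent.TH892.OW.Vz_pos z).le) k
      have h5 : (2 : ℝ) ^ (k + 1) ≤ l ^ 2 * (ε₁ * δ0) := by
        have h6 : l ≤ l ^ 2 := le_self_pow₀ hl1' (by norm_num)
        exact h4.trans (mul_le_mul_of_nonneg_right h6 (by positivity))
      calc 2 ^ (k + 1) * (nn a m H ((X : ℝ) / l ^ (2 * k + 4)) : ℝ) * ((Vz z)⁻¹) ^ k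
          ≤ 2 ^ (k + 1) * ((H : ℝ) / l ^ (2 * k + 2)) * l ^ k := by gcongr
        _ ≤ (l ^ 2 * (ε₁ * δ0)) * ((H : ℝ) / l ^ (2 * k + 2)) * l ^ k := by gcongr
        _ = ε₁ * (δ0 * ((H : ℝ) / l ^ k)) := by
            have e2 : l ^ (2 * k + 2) = l ^ k * l ^ k * l ^ 2 := by ring
            rw [e2]
            field_simp
        _ ≤ ε₁ * (h * ((H : ℝ) / l ^ k)) := by gcongr
    have n2 : 2 ^ (k + 1) * (nn a m H ((X : ℝ) / l ^ (2 * k + 4)) : ℝ) * 1 ≤ ε₁ * ((H : ℝ) / l ^ k) := by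
      have h4 : 2 ^ (k + 1) / ε₁ ≤ l := by linarith
      rw [div_le_iff₀ he0] at h4
      have h5 : (2 : ℝ) ^ (k + 1) ≤ l ^ (k + 2) * ε₁ := by
        have h6 : l ≤ l ^ (k + 2) := le_self_pow₀ hl1' (by omega)
        exact h4.trans (mul_le_mul_of_nonneg_right h6 he0.le)
      calc 2 ^ (k + 1) * (nn a m H ((X : ℝ) / l ^ (2 * k + 4)) : ℝ) * 1
          ≤ 2 ^ (k + 1) * ((H : ℝ) / l ^ (2 * k + 2)) * 1 := by gcongr
        _ ≤ (l ^ (k + 2) * ε₁) * ((H : ℝ) / l ^ (2 * k + 2)) * 1 := by gcongr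
        _ = ε₁ * ((H : ℝ) / l ^ k) := by
            have e2 : l ^ (2 * k + 2) = l ^ (k + 2) * l ^ k := by ring
            rw [e2]
            field_simp
    rw [hPe]
    have hδq : ε₁ * δ0 * ((H : ℝ) / l ^ k) ≤ ε₁ * (h * (H / l ^ k)) := by
      have : ε₁ * δ0 * ((H : ℝ) / l ^ k) ≤ ε₁ * h * (H / l ^ k) := by gcongr
      linarith
    have hcomb := combA (l ^ k) H h ε₁ (SS a w) (∑ n ∈ Ioc m (m + H), pr (fun _ => ll z) a n)
      (∑ n ∈ Ioc m (m + H), pr (fun _ => ll w) a n)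
      (∑ n ∈ Ioc m (m + H), pr (fun _ => ll z) a n * ∏ i, wt ((n : ℤ) ^ 2 + a i).natAbs) (W a m H)
      (∑ n ∈ Ioc m (m + H), (pr (fun _ => uu) a n - pr (fun _ => vv z) a n)) hlk0 hH0.le he0 he2 hh0
      (by rw [hlam1] at g2; exact g2.trans hδq)
      (by
        rw [hlam2, sum_sub_distrib] at g4
        refine g4.trans ?_
        have e7 : ε₁ * (h * ((H : ℝ) / l ^ k)) * l ^ k = ε₁ * h * H := by field_simp
        rw [e7]
        gcongr)
      hhw hQ (by linarith) (by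
        have e8 : (1 : ℝ) / l ^ k * H = H / l ^ k := by ring
        have e9 : ε₁ * (1 / l ^ k) * (H : ℝ) = ε₁ * (H / l ^ k) := by ring
        rw [e8, e9] at e4
        linarith)
    refine hcomb.trans ?_
    have hWt : 0 ≤ W a m H := by
      unfold W
      exact sum_nonneg fun _ _ => prod_nonneg fun _ _ => wt_nonneg _
    exact mul_le_mul_of_nonneg_right he1 (by positivity)

end Run7.h285.S
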