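import Pool.Agent.Run7.h285.S.SYS
import Pool.Agent.Run7.h285.X.Max2

/-!
# Project SYS: all scales at once, first part
-/

set_option autoImplicit false

namespace Run7.h285.S

open Finset Filter Topology
open Pool.Agent.H373R2.T7 (pz Vz lamz mem_pz Vz_ge Vz_inv_le Vz_le_one Vz_inv_small)
open Pool.Agent.TH892.SW (ff wt wt_nonneg wt_le)
open Pool.Agent.TH892.OW (evt_ll)
open Run7.h285.X (scal scal_ge scal_lt all_scales)
open Pool.Agent.H442R2.EHI (evt_log_pow evt_log_ge)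

/-- the second moments of the primes minus the model, decreasing in `H` -/
theorem mom_1M (k : ℕ) (h1 : S_SM1 k) : ∃ K₀ : ℝ, 1 ≤ K₀ ∧ ∀ C : ℕ, ∃ E1 : ℕ, ∀ E : ℕ, E1 ≤ E →
    ∃ B X₀ : ℕ, ∀ X : ℕ, X₀ ≤ X → ∀ m₀ M H : ℕ, (X : ℝ) ^ (1 / 3 : ℝ) * Real.log X ^ B ≤ M →
      (m₀ : ℝ) + H + M ≤ √X * Real.log X ^ C → Real.log X ^ k ≤ H →
      MM k (fun a n => pr (fun _ => uu) a n - pr (fun _ => vv ⌊Real.log X ^ E⌋₊) a n) X m₀ M H ≤
        (X : ℝ) ^ k * M * (((H : ℝ) / Real.log X ^ k) ^ 2 * (K₀ * (Real.log X ^ k / H + 1 / Real.log X ^ 2))) := by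
  obtain ⟨K₀, hK, h1⟩ := h1
  refine ⟨12 * K₀, by linarith, fun C => ?_⟩
  obtain ⟨E1, h1⟩ := h1 (2 * k + 2) C (k + 2)
  refine ⟨E1, fun E hE => ?_⟩
  obtain ⟨B, X1, h1⟩ := h1 E hE
  obtain ⟨X2, hX2⟩ := eventually_atTop.1 (evt_log_ge 10000)
  refine ⟨B, max X1 X2, fun X hX m₀ M H hM hW hT => ?_⟩
  have hl := hX2 X (le_trans (le_max_right _ _) hX)
  have h2 := fun m₁ r hr hr3 hW1 => h1 X (le_trans (le_max_left _ _) hX) m₁ M r hr hr3 hM hW1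
  clear h1 hX2 hX
  generalize Real.log X = l at *
  have hl0 : 0 < l := by linarith
  have hl1 : 1 ≤ l := by linarith
  have hlk : 0 < l ^ k := by positivity
  have hlk1 : 1 ≤ l ^ k := one_le_pow₀ hl1
  have hXM : 0 ≤ (X : ℝ) ^ k * M := by positivity
  have hHr : (0 : ℝ) < H := by linarith
  have hH1 : 1 ≤ H := by exact_mod_cast hHr
  have e3 : l ^ (2 * k + 2) = (l ^ k) ^ 2 * l ^ 2 := by ring
  rw [e3] at h2
  have e4 : l ^ (k + 2) = l ^ k * l ^ 2 := by ring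
  rw [e4] at h2
  obtain ⟨L, hL⟩ : ∃ L, L = l ^ k := ⟨_, rfl⟩
  rw [← hL] at h2 hT hlk hlk1 ⊢
  rcases le_or_gt (H : ℝ) (L * l ^ 2) with h3 | h3
  · refine (h2 m₀ H hH1 h3 (by linarith)).trans ?_
    apply mul_le_mul_of_nonneg_left _ hXM
    have e1 : ((H : ℝ) / L) ^ 2 * (12 * K₀ * (L / H + 1 / l ^ 2)) =
        12 * (K₀ * H / L) + 12 * K₀ * ((H : ℝ) ^ 2 / (L ^ 2 * l ^ 2)) := by
      field_simp
    rw [e1]
    have h4 : 0 ≤ K₀ * H / L := by positivity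
    have h5 : 0 ≤ (H : ℝ) ^ 2 / (L ^ 2 * l ^ 2) := by positivity
    nlinarith
  · obtain ⟨H₁, hH₁⟩ : ∃ H₁, H₁ = ⌊L * l ^ 2⌋₊ := ⟨_, rfl⟩
    have a1 : (H₁ : ℝ) ≤ L * l ^ 2 := by rw [hH₁]; exact Nat.floor_le (by positivity)
    have a2 : L * l ^ 2 / 2 ≤ (H₁ : ℝ) := by
      have h4 := Nat.lt_floor_add_one (L * l ^ 2)
      rw [← hH₁] at h4
      have h5 : (2 : ℝ) ≤ L * l ^ 2 := by nlinarith
      linarith
    have a3 : H₁ ≤ H := by
      have : (H₁ : ℝ) ≤ H := by linarith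
      exact_mod_cast this
    have hLl : 0 < L * l ^ 2 := by positivity
    have a4 : (0 : ℝ) < H₁ := by linarith
    have a5 : 1 ≤ H₁ := by exact_mod_cast a4
    have h4 := MG_long (Bx k X) (fun a n => pr (fun _ => uu) a n - pr (fun _ => vv ⌊l ^ E⌋₊) a n) M H₁
      ((X : ℝ) ^ k * M * (K₀ * H₁ / L + (H₁ : ℝ) ^ 2 / (L ^ 2 * l ^ 2))) (√X * l ^ C) a5
      (by positivity) (by
        intro m₁ r hr hr1 hW1
        have hr' : (r : ℝ) ≤ H₁ := by exact_mod_cast hr1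
        refine (h2 m₁ r hr (by linarith) hW1).trans ?_
        gcongr) m₀ H a3 hW
    rw [MM_eq]
    refine h4.trans ?_
    have e1 : 4 * ((H : ℝ) / H₁) ^ 2 * ((X : ℝ) ^ k * M * (K₀ * H₁ / L + (H₁ : ℝ) ^ 2 / (L ^ 2 * l ^ 2))) =
        (X : ℝ) ^ k * M * (((H : ℝ) / L) ^ 2 * (4 * K₀ * (L / H₁) + 4 / l ^ 2)) := by
      field_simp
    rw [e1]
    apply mul_le_mul_of_nonneg_left _ hXM
    apply mul_le_mul_of_nonneg_left _ (sq_nonneg _)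
    have h5 : L / H₁ ≤ 2 / l ^ 2 := by
      rw [div_le_div_iff₀ a4 (by positivity)]
      linarith
    have h6 : 4 * K₀ * (L / H₁) ≤ 4 * K₀ * (2 / l ^ 2) := mul_le_mul_of_nonneg_left h5 (by positivity)
    have h7 : 4 * K₀ * (2 / l ^ 2) = 8 * K₀ * (1 / l ^ 2) := by ring
    have h8 : 4 / l ^ 2 = 4 * (1 / l ^ 2) := by ring
    have h9 : 0 ≤ 1 / l ^ 2 := by positivity
    have h10 : 0 ≤ L / H := by positivity
    rw [h8]
    rw [h7] at h6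
    nlinarith

/-- the second moments of the difference of two models -/
theorem mom_2M (k : ℕ) (h1 : S_SM2 k) (C D E u : ℕ) (hE : 1 ≤ E) (hu : 1 ≤ u) :
    ∃ X₀ : ℕ, ∀ X : ℕ, X₀ ≤ X → ∀ m₀ M H : ℕ, (X : ℝ) ^ (1 / 3 : ℝ) ≤ M →
      (m₀ : ℝ) + M ≤ √X * Real.log X ^ C → Real.log X ≤ H → (H : ℝ) ≤ Real.log X ^ D →
      MM k (fun a n => pr (fun _ => ll ⌊Real.log X ^ E⌋₊) a n - pr (fun _ => ll ⌊Real.log X ^ (1 / (u : ℝ))⌋₊) a n) X m₀ M H ≤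
        (X : ℝ) ^ k * M * ((H : ℝ) ^ 2 * (1 / √(Real.log X) + 1 / Real.log (Real.log X) ^ 2)) := by
  obtain ⟨X1, h1⟩ := h1 C D E u 2 hE hu
  obtain ⟨X2, hX2⟩ := eventually_atTop.1 (evt_log_ge 10000)
  refine ⟨max X1 X2, fun X hX m₀ M H hM hW hT hHD => ?_⟩
  have hl := hX2 X (le_trans (le_max_right _ _) hX)
  have hHr : (0 : ℝ) < H := by linarith
  have h2 := h1 X (le_trans (le_max_left _ _) hX) m₀ M H (by exact_mod_cast hHr) hHD hM hW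
  refine h2.trans ?_
  clear h1 hX2 hX h2
  generalize Real.log X = l at *
  have hl0 : 0 < l := by linarith
  have hs0 : 0 < √l := Real.sqrt_pos.2 hl0
  have hss : √l * √l = l := Real.mul_self_sqrt hl0.le
  have hXM : 0 ≤ (X : ℝ) ^ k * M := by positivity
  apply mul_le_mul_of_nonneg_left _ hXM
  have h4 : (H : ℝ) * √l ≤ (H : ℝ) ^ 2 * (1 / √l) := by
    rw [mul_one_div, le_div_iff₀ hs0]
    have : (H : ℝ) * √l * √l = H * l := by rw [mul_assoc, hss]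
    rw [this]
    nlinarith
  have h5 : (H : ℝ) ^ 2 / Real.log l ^ 2 = (H : ℝ) ^ 2 * (1 / Real.log l ^ 2) := by ring
  rw [h5]
  linarith

/-- one tuple at one scale -/
lemma single {k : ℕ} (z : ℕ) (hz : 2 ≤ z) (a : Fin k → ℤ) (m H : ℕ) (L h δ0 ε κ N V Qw : ℝ) (hL : 1 ≤ L)
    (hε : 0 < ε) (hε1 : ε ≤ 1 / 100) (hh : 0 < h) (hδh : δ0 ≤ h)
    (hG : |∑ n ∈ Ioc m (m + H), (pr (fun _ => uu) a n - pr (fun _ => vv z) a n)| ≤ ε * δ0 * (H / L))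
    (hF : |∑ n ∈ Ioc m (m + H), pr (fun _ => ll z) a n - Qw| ≤ ε * δ0 * H)
    (hN : (nn a m H κ : ℝ) ≤ N) (hN1 : 2 ^ (k + 1) * N * ((Vz z)⁻¹) ^ k ≤ ε * δ0 * (H / L))
    (hN2 : 2 ^ (k + 1) * N ≤ ε * (H / L))
    (hwt : ∀ n ∈ Ioc m (m + H), (∀ i, κ ≤ (((n : ℤ) ^ 2 + a i).natAbs : ℝ)) →
      |∏ i, wt ((n : ℤ) ^ 2 + a i).natAbs - 1 / L| ≤ ε * (1 / L))
    (hV : |V - h| ≤ ε * h) (hQ : |Qw - H * V| ≤ ε * V * H) :
    |(P a m H : ℝ) - h * W a m H| ≤ 12 * ε * (h * W a m H) ∧ |W a m H - H / L| ≤ 2 * ε * (H / L) := by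
  have hL0 : 0 < L := by linarith
  have hH0 : (0 : ℝ) ≤ H := Nat.cast_nonneg _
  have hc1 : 1 / L ≤ 1 := by rw [div_le_one hL0]; exact hL
  have e3 := sum_near a m H κ (1 / L) ε (((Vz z)⁻¹) ^ k) (fun n => pr (fun _ => ll z) a n)
    (fun n => pr_ll_nonneg z (by omega) a n) (fun n => pr_ll_le z (by omega) a n) (by positivity) hc1 hε.le hwt
  have e4 := sum_near a m H κ (1 / L) ε 1 (fun _ => 1)
    (fun _ => zero_le_one) (fun _ => le_rfl) (by positivity) hc1 hε.le hwt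
  have e5 : ∑ n ∈ Ioc m (m + H), (1 : ℝ) = H := by
    rw [sum_const, Nat.card_Ioc, nsmul_eq_mul, mul_one, Nat.add_sub_cancel_left]
  have e6 : ∑ n ∈ Ioc m (m + H), 1 * ∏ i, wt ((n : ℤ) ^ 2 + a i).natAbs = W a m H := by
    unfold W
    exact sum_congr rfl fun n _ => one_mul _
  rw [e5, e6] at e4
  have hVk : 0 ≤ ((Vz z)⁻¹) ^ k := pow_nonneg (inv_nonneg.2 (Pool.Agent.TH892.OW.Vz_pos z).le) k
  have hδq : ε * δ0 * ((H : ℝ) / L) ≤ ε * (h * (H / L)) := by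
    have : ε * δ0 * ((H : ℝ) / L) ≤ ε * h * (H / L) := by gcongr
    linarith
  have n1 : 2 ^ (k + 1) * (nn a m H κ : ℝ) * ((Vz z)⁻¹) ^ k ≤ ε * (h * ((H : ℝ) / L)) := by
    calc 2 ^ (k + 1) * (nn a m H κ : ℝ) * ((Vz z)⁻¹) ^ k ≤ 2 ^ (k + 1) * N * ((Vz z)⁻¹) ^ k := by gcongr
      _ ≤ _ := hN1.trans hδq
  have n2 : 2 ^ (k + 1) * (nn a m H κ : ℝ) * 1 ≤ ε * ((H : ℝ) / L) := by
    rw [mul_one]
    refine le_trans ?_ hN2
    gcongr
  have hPe : (P a m H : ℝ) = ∑ n ∈ Ioc m (m + H), (pr (fun _ => uu) a n - pr (fun _ => vv z) a n) +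
      ∑ n ∈ Ioc m (m + H), pr (fun _ => ll z) a n * ∏ i, wt ((n : ℤ) ^ 2 + a i).natAbs := by
    rw [P_eq, sum_sub_distrib]
    have : ∑ n ∈ Ioc m (m + H), pr (fun _ => vv z) a n =
        ∑ n ∈ Ioc m (m + H), pr (fun _ => ll z) a n * ∏ i, wt ((n : ℤ) ^ 2 + a i).natAbs :=
      sum_congr rfl fun n _ => pr_vv z a n
    rw [this]; ring
  have e8 : (1 : ℝ) / L * H = H / L := by ring
  have e9 : ε * (1 / L) * (H : ℝ) = ε * (H / L) := by ring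
  rw [e8, e9] at e4
  have e4' : |W a m H - H / L| ≤ 2 * ε * (H / L) := by linarith
  refine ⟨?_, e4'⟩
  rw [hPe]
  exact combA L H h ε V (∑ n ∈ Ioc m (m + H), pr (fun _ => ll z) a n) Qw
    (∑ n ∈ Ioc m (m + H), pr (fun _ => ll z) a n * ∏ i, wt ((n : ℤ) ^ 2 + a i).natAbs) (W a m H)
    (∑ n ∈ Ioc m (m + H), (pr (fun _ => uu) a n - pr (fun _ => vv z) a n)) hL0 hH0 hε hε1 hh
    (hG.trans hδq)
    (by
      refine hF.trans ?_
      have e7 : ε * (h * ((H : ℝ) / L)) * L = ε * h * H := by field_simp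
      rw [e7]
      gcongr)
    hV hQ (by linarith) e4'

/-- the cut at `z` from the cut at `w` -/
lemma cut_z (H h δ0 ε V V' Qw Qz : ℝ) (hH : 0 < H) (hε : 0 < ε)
    (hε1 : ε ≤ 1 / 100) (hh : 0 < h) (hδh : δ0 ≤ h) (h2' : |Qz - Qw| ≤ ε * δ0 * H)
    (hV : |V - h| ≤ ε * h) (hQ : |Qw - H * V| ≤ ε * V * H)
    (hQ' : |Qz - H * V'| ≤ ε * V' * H) : |V' - h| ≤ 5 * ε * h := by
  have h2 : |Qz - Qw| ≤ ε * h * H := by
    have : ε * δ0 * H ≤ ε * h * H := by gcongr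
    linarith
  have hV2 := abs_le.1 hV
  have q1 := abs_le.1 hQ
  have q2 := abs_le.1 hQ'
  have q3 := abs_le.1 h2
  have hV'0 : 0 ≤ V' := by
    have h3 := le_trans (abs_nonneg _) hQ'
    by_contra hc
    push Not at hc
    have : ε * V' * H < 0 := mul_neg_of_neg_of_pos (mul_neg_of_pos_of_neg hε hc) hH
    linarith
  have hVu : V ≤ (1 + ε) * h := by linarith
  have hVl : (1 - ε) * h ≤ V := by linarith
  have r1 : (1 - ε) * V' ≤ (1 + ε) * V + ε * h := by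
    have : ((1 - ε) * V') * H ≤ ((1 + ε) * V + ε * h) * H := by linarith
    exact le_of_mul_le_mul_right this hH
  have r2 : (1 - ε) * V - ε * h ≤ (1 + ε) * V' := by
    have : ((1 - ε) * V - ε * h) * H ≤ ((1 + ε) * V') * H := by linarith
    exact le_of_mul_le_mul_right this hH
  have hεh : 0 < ε * h := by positivity
  have hε2 : ε * (ε * h) ≤ 1 / 100 * (ε * h) := mul_le_mul_of_nonneg_right hε1 hεh.le
  have r3 : (1 - ε) * V' ≤ h + 4 * ε * h := by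
    have : (1 + ε) * V ≤ (1 + ε) * ((1 + ε) * h) := mul_le_mul_of_nonneg_left hVu (by linarith)
    nlinarith
  have r4 : h - 4 * ε * h ≤ (1 + ε) * V' := by
    have : (1 - ε) * ((1 - ε) * h) ≤ (1 - ε) * V := mul_le_mul_of_nonneg_left hVl (by linarith)
    nlinarith
  rw [abs_le]
  constructor
  · by_contra hc
    push Not at hc
    have : (1 + ε) * V' < (1 + ε) * (h - 5 * ε * h) := by
      apply mul_lt_mul_of_pos_left _ (by linarith)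
      linarith
    nlinarith
  · by_contra hc
    push Not at hc
    have : (1 - ε) * (h + 5 * ε * h) < (1 - ε) * V' := by
      apply mul_lt_mul_of_pos_left _ (by linarith)
      linarith
    nlinarith

/-- one tuple at one scale, small (cut at `w`) or large (cut at `z`) -/
theorem good_scale {k : ℕ} (w z u D : ℕ) (hz : 2 ≤ z) (a : Fin k → ℤ) (m G HD : ℕ) (l L h δ0 e κ V V' : ℝ)
    (hL : 1 ≤ L) (he : 0 < e) (he2 : 5 * e ≤ 1 / 100) (hh : 0 < h) (hδ : 0 < δ0) (hδh : δ0 ≤ h) (hLG : L ≤ G)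
    (hLHD : L ≤ HD)
    (k1 : |∑ n ∈ Ioc m (m + G), (pr (fun _ => uu) a n - pr (fun _ => vv z) a n)| ≤ e * δ0 * (G / L))
    (N : ℝ) (k3 : (nn a m G κ : ℝ) ≤ N) (hN1 : 2 ^ (k + 1) * N * ((Vz z)⁻¹) ^ k ≤ e * δ0 * (G / L))
    (hN2 : 2 ^ (k + 1) * N ≤ e * (G / L))
    (hwt : ∀ n ∈ Ioc m (m + G), (∀ i, κ ≤ (((n : ℤ) ^ 2 + a i).natAbs : ℝ)) →
      |∏ i, wt ((n : ℤ) ^ 2 + a i).natAbs - 1 / L| ≤ e * (1 / L))
    (hV : |V - h| ≤ e * h)
    (hQ : ∀ G' : ℕ, L ≤ G' → |∑ n ∈ Ioc m (m + G'), pr (fun _ => ll w) a n - G' * V| ≤ e * V * G')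
    (hQz : ∀ G' : ℕ, 1 ≤ G' → u ≤ G' → |∑ n ∈ Ioc m (m + G'), pr (fun _ => ll z) a n - G' * V'| ≤ e * V' * G')
    (huHD : u ≤ HD)
    (hsm : (G : ℝ) ≤ l ^ D → |∑ n ∈ Ioc m (m + G), (pr (fun _ => ll z) a n - pr (fun _ => ll w) a n)| ≤ e * δ0 * G)
    (hlg : l ^ D < (G : ℝ) → HD ≤ G ∧
      |∑ n ∈ Ioc m (m + HD), (pr (fun _ => ll z) a n - pr (fun _ => ll w) a n)| ≤ e * δ0 * HD) :
    |(P a m G : ℝ) - h * W a m G| ≤ 60 * e * (h * W a m G) ∧ |W a m G - G / L| ≤ 10 * e * (G / L) := by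
  have hL0 : 0 < L := by linarith
  have hG0 : (0 : ℝ) < G := by linarith
  have hG1 : 1 ≤ G := by exact_mod_cast hG0
  have hW0 : 0 ≤ W a m G := by
    unfold W
    exact sum_nonneg fun _ _ => prod_nonneg fun _ _ => wt_nonneg _
  have hhW : 0 ≤ h * W a m G := mul_nonneg hh.le hW0
  have hGl : 0 ≤ (G : ℝ) / L := by positivity
  rcases le_or_gt (G : ℝ) (l ^ D) with hGD | hGD
  · have k4 := hsm hGD
    rw [sum_sub_distrib] at k4
    have h4 := single z hz a m G L h δ0 e κ N V _ hL he (by linarith) hh hδh k1 k4 k3 hN1 hN2 hwt hV (hQ G hLG)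
    refine ⟨h4.1.trans ?_, h4.2.trans ?_⟩
    · exact mul_le_mul_of_nonneg_right (by linarith) hhW
    · exact mul_le_mul_of_nonneg_right (by linarith) hGl
  · obtain ⟨hHDG, k4⟩ := hlg hGD
    rw [sum_sub_distrib] at k4
    clear hsm hlg
    have hHD0 : (0 : ℝ) < HD := by linarith
    have hHD1 : 1 ≤ HD := by exact_mod_cast hHD0
    have hVZ := cut_z HD h δ0 e V V' _ _ hHD0 he (by linarith) hh hδh k4 hV (hQ HD hLHD) (hQz HD hHD1 huHD)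
    have hFz' := hQz G hG1 (huHD.trans hHDG)
    have hCz0 : 0 ≤ V' := by
      have h6 := (abs_le.1 hVZ).1
      have h7 : 5 * e * h ≤ 1 / 100 * h := mul_le_mul_of_nonneg_right he2 hh.le
      linarith
    have hm5 : ∀ x : ℝ, 0 ≤ x → e * x ≤ 5 * e * x := fun x hx => mul_le_mul_of_nonneg_right (by linarith) hx
    have g2 : 0 ≤ δ0 * ((G : ℝ) / L) := by positivity
    have g3 : 0 ≤ V' * (G : ℝ) := by positivity
    have k1' := k1.trans (show e * δ0 * ((G : ℝ) / L) ≤ 5 * e * δ0 * (G / L) by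
      have := hm5 _ g2
      rw [mul_assoc e, mul_assoc (5 * e)]; exact this)
    have hN1' := hN1.trans (show e * δ0 * ((G : ℝ) / L) ≤ 5 * e * δ0 * (G / L) by
      have := hm5 _ g2
      rw [mul_assoc e, mul_assoc (5 * e)]; exact this)
    have hFz'' := hFz'.trans (show e * V' * (G : ℝ) ≤ 5 * e * V' * G by
      have := hm5 _ g3
      rw [mul_assoc e, mul_assoc (5 * e)]; exact this)
    have h4 := single z hz a m G L h δ0 (5 * e) κ N V' (∑ n ∈ Ioc m (m + G), pr (fun _ => ll z) a n) hL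
      (by linarith) he2 hh hδh k1' (by rw [sub_self, abs_zero]; positivity) k3 hN1' (hN2.trans (hm5 _ hGl))
      (fun n hn hκ => (hwt n hn hκ).trans (hm5 _ (by positivity))) hVZ hFz''
    refine ⟨h4.1.trans ?_, h4.2.trans ?_⟩
    · exact mul_le_mul_of_nonneg_right (by linarith) hhW
    · exact mul_le_mul_of_nonneg_right (by linarith) hGl

/-- the bad pairs at one scale, first kind -/
def bad1 {k : ℕ} (z : ℕ) (L N e κ : ℝ) (H : ℕ) (p : (Fin k → ℤ) × ℕ) : Prop :=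
  e * ((H : ℝ) / L) < |∑ n ∈ Ioc p.2 (p.2 + H), (pr (fun _ => uu) p.1 n - pr (fun _ => vv z) p.1 n)| ∨
  (H : ℝ) / N < (nn p.1 p.2 H κ : ℝ)

/-- the bad pairs at one scale, second kind -/
def bad2 {k : ℕ} (w z : ℕ) (e : ℝ) (H : ℕ) (p : (Fin k → ℤ) × ℕ) : Prop :=
  e * (H : ℝ) < |∑ n ∈ Ioc p.2 (p.2 + H), (pr (fun _ => ll z) p.1 n - pr (fun _ => ll w) p.1 n)|

open Classical in
lemma count1 (k : ℕ) (hk : 1 ≤ k) (X m₀ M z H : ℕ) (l e F : ℝ) (hl : 1 ≤ l) (hH : (0 : ℝ) < H) (he : 0 < e)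
    (hX : l ^ (2 * k + 4) ≤ X) (hX1 : 1 ≤ X)
    (hm : MM k (fun a n => pr (fun _ => uu) a n - pr (fun _ => vv z) a n) X m₀ M H ≤
      (X : ℝ) ^ k * M * (((H : ℝ) / l ^ k) ^ 2 * F)) :
    (#((Bx k X ×ˢ Ioc m₀ (m₀ + M)).filter (bad1 z (l ^ k) (l ^ (2 * k + 2)) e ((X : ℝ) / l ^ (2 * k + 4)) H)) : ℝ) ≤
      (X : ℝ) ^ k * M * (1 / e ^ 2 * F + 3 * (k * 3 ^ k) / l ^ 2) := by
  have hl0 : 0 < l := by linarith
  have hX1r : (1 : ℝ) ≤ X := by exact_mod_cast hX1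
  have hX0 : (0 : ℝ) < X := by linarith
  have hlam1p : 0 < e * ((H : ℝ) / l ^ k) := by positivity
  have cff : (#((Bx k X ×ˢ Ioc m₀ (m₀ + M)).filter (fun p => e * ((H : ℝ) / l ^ k) < |∑ n ∈ Ioc p.2 (p.2 + H),
      (pr (fun _ => uu) p.1 n - pr (fun _ => vv z) p.1 n)|)) : ℝ) ≤ (X : ℝ) ^ k * M * (1 / e ^ 2 * F) := by
    refine (cheb (Bx k X) (Ioc m₀ (m₀ + M)) (fun a m => ∑ n ∈ Ioc m (m + H), (pr (fun _ => uu) a n - pr (fun _ => vv z) a n))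
      _ _ hlam1p hm).trans (le_of_eq ?_)
    field_simp
  have cnn : (#((Bx k X ×ˢ Ioc m₀ (m₀ + M)).filter (fun p => (H : ℝ) / l ^ (2 * k + 2) <
      (nn p.1 p.2 H ((X : ℝ) / l ^ (2 * k + 4)) : ℝ))) : ℝ) ≤ (X : ℝ) ^ k * M * (3 * (k * 3 ^ k) / l ^ 2) := by
    refine (near k X m₀ M H ((X : ℝ) / l ^ (2 * k + 4)) ((H : ℝ) / l ^ (2 * k + 2)) (by positivity) (by positivity)).trans ?_
    have e' : (M : ℝ) * (H * (k * ((2 * ((X : ℝ) / l ^ (2 * k + 4)) + 1) * (2 * X + 1) ^ (k - 1)))) / ((H : ℝ) / l ^ (2 * k + 2)) =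
        M * (k * ((2 * X / l ^ 2 + l ^ (2 * k + 2)) * (2 * X + 1) ^ (k - 1))) := by
      have e2 : l ^ (2 * k + 4) = l ^ (2 * k + 2) * l ^ 2 := by ring
      rw [e2]
      field_simp
    rw [e']
    have h7 : (2 * (X : ℝ) + 1) ^ (k - 1) ≤ 3 ^ k * X ^ (k - 1) := by
      calc (2 * (X : ℝ) + 1) ^ (k - 1) ≤ (3 * X) ^ (k - 1) := pow_le_pow_left₀ (by positivity) (by linarith) _
        _ = 3 ^ (k - 1) * X ^ (k - 1) := by rw [mul_pow]
        _ ≤ 3 ^ k * X ^ (k - 1) := by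
            gcongr
            · norm_num
            · omega
    have h8 : 2 * X / l ^ 2 + l ^ (2 * k + 2) ≤ 3 * X / l ^ 2 := by
      have h9 : l ^ (2 * k + 2) ≤ X / l ^ 2 := by
        rw [le_div_iff₀ (by positivity), ← pow_add]
        exact hX
      have h10 : 2 * (X : ℝ) / l ^ 2 + X / l ^ 2 = 3 * X / l ^ 2 := by ring
      linarith
    have h13 : (X : ℝ) ^ k = X * X ^ (k - 1) := by rw [← pow_succ', Nat.sub_add_cancel hk]
    calc (M : ℝ) * (k * ((2 * X / l ^ 2 + l ^ (2 * k + 2)) * (2 * X + 1) ^ (k - 1)))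
        ≤ M * (k * ((3 * X / l ^ 2) * (3 ^ k * X ^ (k - 1)))) := by gcongr
      _ = _ := by rw [h13]; ring
  have h4 := card_or _ _ _ _ _ cff cnn
  refine le_trans (le_of_eq ?_) (h4.trans (le_of_eq ?_))
  · congr 2
    ext p
    simp only [mem_filter, bad1]
  · ring

open Classical in
lemma count2 (k : ℕ) (X m₀ M w z H : ℕ) (e F : ℝ) (hH : (0 : ℝ) < H) (he : 0 < e)
    (hm : MM k (fun a n => pr (fun _ => ll z) a n - pr (fun _ => ll w) a n) X m₀ M H ≤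
      (X : ℝ) ^ k * M * ((H : ℝ) ^ 2 * F)) :
    (#((Bx k X ×ˢ Ioc m₀ (m₀ + M)).filter (bad2 w z e H)) : ℝ) ≤ (X : ℝ) ^ k * M * (1 / e ^ 2 * F) := by
  have hlam1p : 0 < e * (H : ℝ) := by positivity
  have cff : (#((Bx k X ×ˢ Ioc m₀ (m₀ + M)).filter (fun p => e * (H : ℝ) < |∑ n ∈ Ioc p.2 (p.2 + H),
      (pr (fun _ => ll z) p.1 n - pr (fun _ => ll w) p.1 n)|)) : ℝ) ≤ (X : ℝ) ^ k * M * (1 / e ^ 2 * F) := by
    refine (cheb (Bx k X) (Ioc m₀ (m₀ + M)) (fun a m => ∑ n ∈ Ioc m (m + H), (pr (fun _ => ll z) a n - pr (fun _ => ll w) a n))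
      _ _ hlam1p hm).trans (le_of_eq ?_)
    field_simp
  refine le_trans (le_of_eq ?_) cff
  congr 2

end Run7.h285.S
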